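import Mathlib
import Pool.Agent.Helper9.NS
import Pool.Agent.Helper21.TO.Defs

/-!
# TORS: further definitions
-/

set_option linter.unusedSectionVars false

namespace Pool.Agent.Helper21.TO

open VC VF Function Polynomial
open Pool.Agent.Helper51.EW (Wei WPt aff zeroPt)

universe u

/-! ### Scaling -/

section scaling

variable {F : Type*} [Field F] {At Bt At' Bt' : F}

lemma nonsingular_scale {c : F} (hc : c ≠ 0) (hA : At' = c ^ 4 * At) (hB : Bt' = c ^ 6 * Bt)
    {x y : F} (h : (sw At Bt).toAffine.Nonsingular x y) :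
    (sw At' Bt').toAffine.Nonsingular (c ^ 2 * x) (c ^ 3 * y) := by
  rw [sw_nonsingular] at h ⊢
  obtain ⟨h1, h2⟩ := h
  refine ⟨by rw [hA, hB]; linear_combination c ^ 6 * h1, ?_⟩
  rcases h2 with h2 | h2
  · left
    intro h0
    apply h2
    have h3 : c ^ 4 * (3 * x ^ 2 + At) = 0 := by
      rw [hA] at h0
      linear_combination -h0
    exact ((mul_eq_zero.mp h3).resolve_left (pow_ne_zero 4 hc)).symm
  · right
    intro h0
    apply h2
    have h3 : c ^ 3 * (y - -y) = 0 := by linear_combination h0
    exact sub_eq_zero.mp ((mul_eq_zero.mp h3).resolve_left (pow_ne_zero 3 hc))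

/-- The isomorphism `(x, y) ↦ (c ^ 2 x, c ^ 3 y)`. -/
noncomputable def scF (c : F) (hc : c ≠ 0) (hA : At' = c ^ 4 * At) (hB : Bt' = c ^ 6 * Bt) :
    EPt At Bt → EPt At' Bt'
  | .zero => 0
  | .some x y h => EPt.mk (c ^ 2 * x) (c ^ 3 * y) (nonsingular_scale hc hA hB h)

end scaling

variable {k : Type u} [Field k] {W : Wei k} {L : Type u} [Field L] [Algebra k L]

/-- The local parameter at the point `c` of the projective line. -/
noncomputable def locp (D : Dat W L) (c : Fin 2 → k) : L :=
  if c 0 = 0 then D.t⁻¹ else D.t - algebraMap k L (c 1)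

lemma one_t_ne {K : Type u} [Field K] (t : K) : (![1, t] : Fin 2 → K) ≠ 0 := by
  intro h
  have := congrFun h 0
  simp at this

lemma map_cA {K : Type u} [Field K] [Algebra k K] (D : Dat W L) (ι : L →ₐ[k] K) :
    ι D.a = MvPolynomial.aeval ![1, ι D.t] W.A := by
  have h := MvPolynomial.comp_aeval_apply (R := k) (![1, D.t] : Fin 2 → L) ι W.A
  have e : (fun i => ι ((![1, D.t] : Fin 2 → L) i)) = ![1, ι D.t] := by
    funext i
    fin_cases i
    · simp
    · simp
  rw [e] at h
  exact h

lemma map_cB {K : Type u} [Field K] [Algebra k K] (D : Dat W L) (ι : L →ₐ[k] K) :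
    ι D.b = MvPolynomial.aeval ![1, ι D.t] W.B := by
  have h := MvPolynomial.comp_aeval_apply (R := k) (![1, D.t] : Fin 2 → L) ι W.B
  have e : (fun i => ι ((![1, D.t] : Fin 2 → L) i)) = ![1, ι D.t] := by
    funext i
    fin_cases i
    · simp
    · simp
  rw [e] at h
  exact h

/-- The point of the Weierstrass model given by a point of the generic fibre. -/
noncomputable def ptL (D : Dat W L) {K : Type u} [Field K] [Algebra k K] (ι : L →ₐ[k] K) :
    EPt (ι D.a) (ι D.b) → WPt W K
  | .zero => zeroPt ![1, ι D.t] (one_t_ne _)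
  | .some x y h => aff ![1, ι D.t] x y (one_t_ne _) (by
      rw [← map_cA D ι, ← map_cB D ι]
      exact (sw_nonsingular.mp h).1)

variable [IsAlgClosed k] [CharZero k]

/-- A description of a point of the Weierstrass model on a smooth fibre. -/
structure JData (D : Dat W L) (y : WPt W k) where
  /-- the point of the projective line -/
  c : Fin 2 → k
  c_ne : c ≠ 0
  /-- a place over it -/
  v : Place k L
  /-- the scaling -/
  l : L
  hb : Base D v l c
  hd : disc W c ≠ 0
  /-- a model -/
  m : Model D v (l ^ W.N) (MvPolynomial.aeval c W.A) (MvPolynomial.aeval c W.B)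
  /-- the point of the fibre -/
  a : EPt (MvPolynomial.aeval c W.A) (MvPolynomial.aeval c W.B)
  eq : y = ptJ W c c_ne a

open Classical in
/-- The cycle of degree zero on the surface given by a point of the Weierstrass model. -/
noncomputable def cycJ (D : Dat W L) (y : WPt W k) : D.S.Cycles :=
  if h : Nonempty (JData D y) then h.some.m.cyc h.some.a else 0

/-- A model at the place `v` which is either the smooth model of a good fibre, or has vanishing
cycles; in both cases every point has a multiple with a nonsingular reduction. -/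
structure Pk (D : Dat W L) (v : Place k L) where
  /-- the scaling -/
  s : L
  /-- the reduced coefficient -/
  At : k
  /-- the reduced coefficient -/
  Bt : k
  /-- the model -/
  m : Model D v s At Bt
  pow : ∀ (K : Type u) [Field K] [Algebra k K] (_ : IsFunctionField k K) (ι : L →ₐ[k] K)
    (w : Place k K), Over v ι w → ∀ P : EPt (ι D.a) (ι D.b),
      ∃ j : ℕ, 0 < j ∧ ∃ Pt : EPt At Bt, Red w (ι s) (j • P) Pt
  cmp : (∃ l c, Base D v l c ∧ disc W c = 0 ∧ ∀ a, Nul D.S (m.cyc a)) ∨
    (∃ l c, Base D v l c ∧ disc W c ≠ 0 ∧ s = l ^ W.N ∧ At = MvPolynomial.aeval c W.A ∧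
      Bt = MvPolynomial.aeval c W.B)

end Pool.Agent.Helper21.TO
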