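import Mathlib
import Pool.Agent.Helper9.NS
import Pool.Agent.Helper21.TO.Defs

/-!
# Block TO-ExtCongr: exterior products modulo `Nul`
Model: `VC.cl_ext'_congr` and `VC.ext'_mem_rat` (Helper26/VC/Final.lean, Ext.lean), with `Nul` in
place of `∈ Rat`. Change one factor after the other (`Finset.piecewise`, `extM` is multilinear,
`extProd a = ext' a` by definition), so it suffices: if `Nul S (a i)` for one `i` then
`linearCombination Φ (ext' a) = 0`. By multilinearity in the other slots these may be assumed to be
points `q j`; then `ext' a` is the image of `a i` under `x ↦ update q i x`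
(`ext'_update_single`), and `x ↦ Φ (update q i x)` is `Kills S` by `Kills.comp` and
`induced_update` (which uses `constS`).
-/

set_option linter.unusedSectionVars false

namespace Pool.Agent.Helper21.TO

open VC VF Function Polynomial
open Pool.Agent.Helper51.EW (Wei WPt aff zeroPt)

universe u

variable {k : Type u} [Field k] [IsAlgClosed k] [CharZero k] {S : Variety k}

private lemma ext_nul (hconst : ∀ (K : Type u) [Field K] [Algebra k K]
    (hK : IsFunctionField k K) (p : S.Pt), ∃ c : S.Mor K, ∀ v, S.eval hK c v = p) {n : ℕ}
    {Φ : (S.pow n).Pt → k} (hΦ : Kills (S.pow n) Φ) (i : Fin n) (a : Fin n → S.Cycles)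
    (ha : Nul S (a i)) : Finsupp.linearCombination ℤ Φ (ext' a) = 0 := by
  classical
  by_cases hemp : Nonempty S.Pt
  swap
  · rw [not_nonempty_iff] at hemp
    have : IsEmpty (Fin n → S.Pt) := ⟨fun p => hemp.false (p i)⟩
    have h0 : ext' a = 0 := Subsingleton.elim _ _
    rw [h0]
    exact map_zero _
  have key : ∀ T : Finset (Fin n), ∀ a : Fin n → S.Cycles, Nul S (a i) →
      (∀ j ∉ T, j ≠ i → ∃ p, a j = Finsupp.single p 1) →
      Finsupp.linearCombination ℤ Φ (ext' a) = 0 := by
    intro T
    induction T using Finset.induction_on with
    | empty =>
      intro a ha h
      have h' : ∀ j, ∃ p, j ≠ i → a j = Finsupp.single p 1 := by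
        intro j
        by_cases hj : j = i
        · exact ⟨hemp.some, fun h => absurd hj h⟩
        · obtain ⟨p, hp⟩ := h j (by simp) hj
          exact ⟨p, fun _ => hp⟩
      choose q hq using h'
      rw [ext'_update_single q i (a i) a hq rfl]
      have h1 := ha _ (hΦ.comp (induced_update S q hconst i))
      exact (Finsupp.linearCombination_mapDomain ℤ (fun p => update q i p) (a i)).trans h1
    | insert j T hj ih =>
      intro a ha h
      by_cases hji : j = i
      · subst hji
        apply ih a ha
        intro l hl hl'
        exact h l (by simp [hl, hl']) hl'
      · have claim : ∀ b : S.Cycles, Finsupp.linearCombination ℤ Φ (ext' (update a j b)) = 0 := by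
          intro b
          induction b using Finsupp.induction_linear with
          | zero =>
            have h0 : extM S.Pt n (update a j 0) = 0 := MultilinearMap.map_update_zero _ _ _
            rw [extM_apply] at h0
            rw [h0]
            exact map_zero _
          | add b c hb hc =>
            have h0 := MultilinearMap.map_update_add (extM S.Pt n) a j b c
            rw [extM_apply, extM_apply, extM_apply] at h0
            rw [h0]
            exact (map_add _ _ _).trans (by rw [hb, hc, add_zero])
          | single p m =>
            have h0 := MultilinearMap.map_update_smul (extM S.Pt n) a j m (Finsupp.single p 1)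
            rw [extM_apply, extM_apply, Finsupp.smul_single, smul_eq_mul, mul_one] at h0
            rw [h0]
            have h1 : Finsupp.linearCombination ℤ Φ
                (ext' (update a j (Finsupp.single p 1))) = 0 := by
              apply ih
              · rw [update_of_ne (fun h => hji h.symm)]; exact ha
              · intro l hl hli
                by_cases hlj : l = j
                · subst hlj
                  exact ⟨p, by rw [update_self]⟩
                · rw [update_of_ne hlj]
                  exact h l (by simp [hl, hlj]) hli
            exact (map_smul _ _ _).trans (by rw [h1, smul_zero])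
        have := claim (a j)
        rwa [update_eq_self] at this
  exact key Finset.univ a ha (fun j hj => absurd (Finset.mem_univ j) hj)

theorem ext_congr (hconst : ∀ (K : Type u) [Field K] [Algebra k K] (hK : IsFunctionField k K)
    (p : S.Pt), ∃ c : S.Mor K, ∀ v, S.eval hK c v = p) {n : ℕ} {Φ : (S.pow n).Pt → k}
    (hΦ : Kills (S.pow n) Φ) (a b : Fin n → S.Cycles) (h : ∀ i, Nul S (a i - b i)) :
    Finsupp.linearCombination ℤ Φ (extProd a) = Finsupp.linearCombination ℤ Φ (extProd b) := by
  classical
  change Finsupp.linearCombination ℤ Φ (ext' a) = Finsupp.linearCombination ℤ Φ (ext' b)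
  have key : ∀ T : Finset (Fin n), Finsupp.linearCombination ℤ Φ (ext' (T.piecewise b a)) =
      Finsupp.linearCombination ℤ Φ (ext' a) := by
    intro T
    induction T using Finset.induction_on with
    | empty => rw [Finset.piecewise_empty]
    | insert i T hi ih =>
      rw [← ih, Finset.piecewise_insert]
      set c := T.piecewise b a with hc
      have hci : c i = a i := by rw [hc, Finset.piecewise_eq_of_notMem _ _ _ hi]
      have h1 : c = update c i (a i) := by
        rw [← hci, update_eq_self]
      have h2 : ext' (update c i (b i)) = ext' c - ext' (update c i (a i - b i)) := by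
        have h3 := MultilinearMap.map_update_sub (extM S.Pt n) c i (a i) (b i)
        rw [extM_apply, extM_apply, extM_apply] at h3
        rw [h3, ← h1]
        abel
      have h4 : Finsupp.linearCombination ℤ Φ (ext' (update c i (a i - b i))) = 0 := by
        apply ext_nul hconst hΦ i
        rw [update_self]
        exact h i
      rw [h2]
      exact (map_sub _ _ _).trans (by rw [h4, sub_zero])
  have := key Finset.univ
  rw [Finset.piecewise_univ] at this
  exact this.symm

end Pool.Agent.Helper21.TO
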