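import Mathlib
import Pool.Agent.Helper9.NS
import Pool.Agent.Helper21.TO.Defs
import Pool.Agent.Helper21.TO.Multi
import Pool.Agent.Helper21.TO.ExtCongr

/-!
# Block TO-Trans: the transform of a functional
`Ψ y = Φ_lin (cyc y_1 × ... × cyc y_n)` is `Kills (J.pow n)`: by the definition of `Rat` and
`AddSubgroup.closure_induction` it suffices to treat a generator, given by `K`, `c : Fin n → J.Mor K`
and `f ≠ 0` in `K`: to show `∑ ord_v f * Ψ (c (v)) = 0` (sum over the finite support,
`finite_support_ord`). Apply `multi` with `T` the support of `f`: `K'`, `m i`, `P i`, `Q i`. For `w` over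
`T`: `(∏ m i) Ψ (c (res w)) = Φ_lin (ext (m i cyc (p_i (res w)))) = Φ_lin (ext ([P_i w] - [Q_i w]))`
by multilinearity and `ext_congr`, `= ∑ over s : Fin n → Bool of ± Φ (R^s (w))`, where
`R^s i = P i` or `Q i` (`extM`, `MultilinearMap.map_sum`, `ext'_single`; as in the proof of
`VC.tp_eq` in Helper26/VC/Product.lean). For each `s`: `∑_w ord_w (f) Φ (R^s (w)) = 0` by
`hΦ.gen hK' (R^s)`. So `∑_w ord_w (f) g (res w) = 0` for `g v = (∏ m i) Ψ (c v)`: for `w` not over
`T` the order of `f` at `w` is `0`, such `w` are not in the support. Descend to `K` by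
`QF.kills_res` (Helper83/QF/Sum.lean) and divide by `∏ m i ≠ 0`.
-/

set_option linter.unusedSectionVars false

namespace Pool.Agent.Helper21.TO

open VC VF Function Polynomial
open Pool.Agent.Helper51.EW (Wei WPt aff zeroPt)

universe u

variable {k : Type u} [Field k] [IsAlgClosed k] [CharZero k] {J S : Variety k}
  {cyc : J.Pt → S.Cycles}

lemma kills_of_gen {X : Variety k} {ψ : X.Pt → k}
    (h : ∀ (K : Type u) [Field K] [Algebra k K] (hK : IsFunctionField k K) (c : X.Mor K) (f : K)
      (hf : f ≠ 0), ∑ v ∈ (finite_support_ord hK hf).toFinset,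
        (ord v.ring f : k) * ψ (X.eval hK c v) = 0) : Kills X ψ := by
  intro z hz
  have hle : X.Rat ≤ (Finsupp.linearCombination ℤ ψ).toAddMonoidHom.ker := by
    unfold Variety.Rat
    rw [AddSubgroup.closure_le]
    rintro z ⟨K, _, _, hK, c, f, hf, rfl⟩
    rw [SetLike.mem_coe, AddMonoidHom.mem_ker]
    rw [finsum_eq_sum_of_support_subset (s := (finite_support_ord hK hf).toFinset)]
    · rw [map_sum, ← h K hK c f hf]
      apply Finset.sum_congr rfl
      intro v _
      change Finsupp.linearCombination ℤ ψ _ = _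
      rw [Finsupp.linearCombination_single, zsmul_eq_mul]
    · rw [Set.Finite.coe_toFinset]
      intro v hv
      rw [Set.mem_ofPred_eq]
      intro h0
      apply hv
      beta_reduce
      rw [h0, Finsupp.single_zero]
  exact hle hz

lemma ext_diff {α : Type u} {n : ℕ} (p q : Fin n → α) :
    ext' (fun i => Finsupp.single (p i) (1 : ℤ) - Finsupp.single (q i) 1) =
      ∑ s : Fin n → Bool, (∏ i, (if s i then (1 : ℤ) else -1)) •
        Finsupp.single (fun i => if s i then p i else q i) 1 := by
  classical
  have h1 : ∀ i, Finsupp.single (p i) (1 : ℤ) - Finsupp.single (q i) 1 =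
      ∑ b : Bool, (if b then (1 : ℤ) else -1) • Finsupp.single (if b then p i else q i) (1 : ℤ) := by
    intro i
    rw [Fintype.sum_bool]
    simp [sub_eq_add_neg]
  simp only [h1]
  rw [← extM_apply, MultilinearMap.map_sum]
  apply Finset.sum_congr rfl
  intro s _
  rw [MultilinearMap.map_smul_univ, extM_apply, ext'_single]

theorem kills_trans (h : Link J S cyc) {n : ℕ} {Φ : (S.pow n).Pt → k}
    (hΦ : Kills (S.pow n) Φ) : Kills (J.pow n) (fun y =>
      Finsupp.linearCombination ℤ Φ (extProd (fun i => cyc (y i)))) := by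
  classical
  apply kills_of_gen
  intro K _ _ hK c f hf
  obtain ⟨K', iF', iA', iAK, iT, hK', m, P, Q, hm, hPQ⟩ :=
    multi h n K hK c {v | ord v.ring f ≠ 0} (finite_support_ord hK hf)
  have hf' : algebraMap K K' f ≠ 0 := (_root_.map_ne_zero _).mpr hf
  let R : (Fin n → Bool) → Fin n → S.Mor K' := fun s i => if s i then P i else Q i
  have hR : ∀ s w, (S.pow n).eval hK' (R s) w =
      fun i => if s i then S.eval hK' (P i) w else S.eval hK' (Q i) w := by
    intro s w
    funext i
    change S.eval hK' (if s i then P i else Q i) w = _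
    split_ifs <;> rfl
  have key : ∀ w : Place k K', ord (VQ.res hK hK' w).ring f ≠ 0 →
      ((∏ i, m i : ℕ) : k) * Finsupp.linearCombination ℤ Φ
        (extProd (fun i => cyc (J.eval hK (c i) (VQ.res hK hK' w)))) =
      ∑ s : Fin n → Bool, ((∏ i, (if s i then (1 : ℤ) else -1) : ℤ) : k) *
        Φ ((S.pow n).eval hK' (R s) w) := by
    intro w hw
    have h1 : extProd (fun i => (m i : ℤ) • cyc (J.eval hK (c i) (VQ.res hK hK' w))) =
        (∏ i, (m i : ℤ)) • extProd (fun i => cyc (J.eval hK (c i) (VQ.res hK hK' w))) :=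
      MultilinearMap.map_smul_univ (extM S.Pt n) (fun i => (m i : ℤ)) _
    have h2 := ext_congr h.constS hΦ
      (fun i => (m i : ℤ) • cyc (J.eval hK (c i) (VQ.res hK hK' w)))
      (fun i => Finsupp.single (S.eval hK' (P i) w) 1 - Finsupp.single (S.eval hK' (Q i) w) 1)
      (fun i => by
        have h3 := hPQ w hw i
        rw [← natCast_zsmul] at h3
        exact h3)
    have h3 : extProd (X := S) (fun i => Finsupp.single (S.eval hK' (P i) w) (1 : ℤ) -
        Finsupp.single (S.eval hK' (Q i) w) 1) = _ :=
      ext_diff (fun i => S.eval hK' (P i) w) (fun i => S.eval hK' (Q i) w)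
    rw [h1, h3, map_smul, map_sum] at h2
    rw [zsmul_eq_mul] at h2
    push_cast at h2 ⊢
    rw [h2]
    apply Finset.sum_congr rfl
    intro s _
    have hR1 : (fun i => S.eval hK' (R s i) w) =
        fun i => if s i then S.eval hK' (P i) w else S.eval hK' (Q i) w := hR s w
    rw [map_smul, Finsupp.linearCombination_single, one_smul, hR1, zsmul_eq_mul]
    push_cast
    rfl
  have hsum : ∑ w ∈ (finite_support_ord hK' hf').toFinset,
      (ord w.ring (algebraMap K K' f) : k) * (fun v => ((∏ i, m i : ℕ) : k) *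
        Finsupp.linearCombination ℤ Φ (extProd (fun i => cyc (J.eval hK (c i) v))))
          (VQ.res hK hK' w) = 0 := by
    have e1 : ∀ w ∈ (finite_support_ord hK' hf').toFinset,
        (ord w.ring (algebraMap K K' f) : k) * (fun v => ((∏ i, m i : ℕ) : k) *
        Finsupp.linearCombination ℤ Φ (extProd (fun i => cyc (J.eval hK (c i) v))))
          (VQ.res hK hK' w) = ∑ s : Fin n → Bool,
          ((∏ i, (if s i then (1 : ℤ) else -1) : ℤ) : k) *
          ((ord w.ring (algebraMap K K' f) : k) * Φ ((S.pow n).eval hK' (R s) w)) := by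
      intro w hw
      have hw' : ord w.ring (algebraMap K K' f) ≠ 0 := by
        rw [Set.Finite.mem_toFinset] at hw
        exact hw
      have hw2 : ord (VQ.res hK hK' w).ring f ≠ 0 := by
        intro h0
        apply hw'
        rw [VP.ord_ram hK hK' w f hf, h0, mul_zero]
      beta_reduce
      rw [key w hw2, Finset.mul_sum]
      apply Finset.sum_congr rfl
      intro s _
      ring
    rw [Finset.sum_congr rfl e1, Finset.sum_comm]
    apply Finset.sum_eq_zero
    intro s _
    rw [← Finset.mul_sum, hΦ.gen hK' (R s) hf', mul_zero]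
  have hfin := Pool.Agent.Helper83.QF.kills_res hK hK' (fun v => ((∏ i, m i : ℕ) : k) *
        Finsupp.linearCombination ℤ Φ (extProd (fun i => cyc (J.eval hK (c i) v)))) hf hf' hsum
  have e2 : ((∏ i, m i : ℕ) : k) * ∑ v ∈ (finite_support_ord hK hf).toFinset,
      (ord v.ring f : k) * Finsupp.linearCombination ℤ Φ
        (extProd (fun i => cyc (((J.pow n).eval hK c v) i))) = 0 := by
    rw [← hfin, Finset.mul_sum]
    apply Finset.sum_congr rfl
    intro v _
    ring
  rcases mul_eq_zero.mp e2 with h0 | h0
  · exfalso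
    rw [Nat.cast_eq_zero, Finset.prod_eq_zero_iff] at h0
    obtain ⟨i, _, hi⟩ := h0
    exact (hm i).ne' hi
  · exact h0

end Pool.Agent.Helper21.TO
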