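import Mathlib
import Pool.Agent.Helper9.NS
import Pool.Agent.Helper21.TO.Defs

/-!
# Block TO-Cs2: prime ideals in the image of the spectrum of an extension of domains
`R → R'` is of finite presentation (`R` noetherian, `R'` of finite type), so by Chevalley's theorem
(`PrimeSpectrum.isConstructible_range_comap`, Mathlib/RingTheory/Spectrum/Prime/Chevalley.lean) the
image `Z` of `Spec R' → Spec R` is constructible. It contains the zero ideal of `R` (the preimage
of the zero ideal of `R'`, by injectivity). A constructible set containing the generic point `⊥`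
contains a basic open set `D(g)`, `g ≠ 0`: prove by induction on constructible sets
(`Topology.IsConstructible` is a finite boolean combination of open sets) the statement '`s`
contains `D(g)` for some `g ≠ 0` or the complement of `s` does', the union, complement and
the case of an open set (empty, or contains a nonempty `D(g)`) being clear as
`D(g) ∩ D(g') = D(g g')` and `g g' ≠ 0`. As `⊥ ∈ Z` and `⊥ ∈ D(g)` the second alternative is
impossible. Alternatively: direct proof by Noether normalisation of `R'` over `Frac R`: some
`R'_g` is integral over a polynomial ring `R_g [y_1, ..., y_n]`.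
-/

set_option linter.unusedSectionVars false

namespace Pool.Agent.Helper21.TO

open VC VF Function Polynomial
open Pool.Agent.Helper51.EW (Wei WPt aff zeroPt)

universe u

/-- A constructible subset of the spectrum of a domain or its complement contains a nonempty basic
open set, according to whether it contains the generic point. -/
private lemma constr_generic53 {R : Type u} [CommRing R] [IsDomain R]
    {s : Set (PrimeSpectrum R)} (hs : Topology.IsConstructible s) :
    ((⊥ : PrimeSpectrum R) ∈ s → ∃ g : R, g ≠ 0 ∧ (PrimeSpectrum.basicOpen g : Set _) ⊆ s) ∧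
    ((⊥ : PrimeSpectrum R) ∉ s → ∃ g : R, g ≠ 0 ∧ (PrimeSpectrum.basicOpen g : Set _) ⊆ sᶜ) := by
  induction hs using Topology.IsConstructible.empty_union_induction with
  | open_retrocompact U hU _ =>
    constructor
    · intro hb
      obtain ⟨_, ⟨g, rfl⟩, hg, hg'⟩ :=
        PrimeSpectrum.isTopologicalBasis_basic_opens.exists_subset_of_mem_open hb hU
      refine ⟨g, ?_, hg'⟩
      intro h0
      apply hg
      rw [h0]
      exact Ideal.zero_mem _
    · intro hb
      refine ⟨1, one_ne_zero, ?_⟩
      intro p _ hp
      apply hb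
      obtain ⟨_, ⟨g, rfl⟩, hg, hg'⟩ :=
        PrimeSpectrum.isTopologicalBasis_basic_opens.exists_subset_of_mem_open hp hU
      apply hg'
      change g ∉ (⊥ : Ideal R)
      intro h0
      apply hg
      rw [Ideal.mem_bot.1 h0]
      exact Ideal.zero_mem _
  | union s hs t ht h1 h2 =>
    constructor
    · rintro (hb | hb)
      · obtain ⟨g, hg, hg'⟩ := h1.1 hb
        exact ⟨g, hg, hg'.trans Set.subset_union_left⟩
      · obtain ⟨g, hg, hg'⟩ := h2.1 hb
        exact ⟨g, hg, hg'.trans Set.subset_union_right⟩
    · intro hb
      rw [Set.mem_union, not_or] at hb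
      obtain ⟨g, hg, hg'⟩ := h1.2 hb.1
      obtain ⟨g₂, hg₂, hg₂'⟩ := h2.2 hb.2
      refine ⟨g * g₂, mul_ne_zero hg hg₂, ?_⟩
      intro p hp
      rw [PrimeSpectrum.basicOpen_mul] at hp
      rw [Set.compl_union]
      exact ⟨hg' hp.1, hg₂' hp.2⟩
  | compl s hs h =>
    refine ⟨h.2, ?_⟩
    intro hb
    rw [compl_compl]
    exact h.1 (by simpa using hb)

theorem cs2 {R R' : Type u} [CommRing R] [IsDomain R] [IsNoetherianRing R] [CommRing R']
    [IsDomain R'] [Algebra R R'] [Algebra.FiniteType R R']
    (hinj : Injective (algebraMap R R')) :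
    ∃ g : R, g ≠ 0 ∧ ∀ p : Ideal R, p.IsPrime → g ∉ p →
      ∃ P : Ideal R', P.IsPrime ∧ P.comap (algebraMap R R') = p := by
  have hfp : (algebraMap R R').FinitePresentation := by
    have h1 : Algebra.FinitePresentation R R' :=
      Algebra.FinitePresentation.of_finiteType.1 inferInstance
    exact (RingHom.finitePresentation_algebraMap (A := R) (B := R')).2 h1
  have hZ := PrimeSpectrum.isConstructible_range_comap hfp
  have hb : (⊥ : PrimeSpectrum R) ∈ Set.range (PrimeSpectrum.comap (algebraMap R R')) := by
    refine ⟨⊥, ?_⟩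
    ext x
    change algebraMap R R' x ∈ (⊥ : Ideal R') ↔ x ∈ (⊥ : Ideal R)
    rw [Ideal.mem_bot, Ideal.mem_bot, map_eq_zero_iff _ hinj]
  obtain ⟨g, hg, hg'⟩ := (constr_generic53 hZ).1 hb
  refine ⟨g, hg, ?_⟩
  intro p hp hgp
  obtain ⟨P, hP⟩ := hg' (show (⟨p, hp⟩ : PrimeSpectrum R) ∈
    (PrimeSpectrum.basicOpen g : Set (PrimeSpectrum R)) from hgp)
  refine ⟨P.asIdeal, P.isPrime, ?_⟩
  exact congrArg PrimeSpectrum.asIdeal hP

end Pool.Agent.Helper21.TO
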