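import Mathlib
import Pool.Agent.Helper9.NS
import Pool.Agent.Helper21.TO.Defs

/-!
# Block TO-Wa: weak approximation
`FF.approx` (Helper17/FF/Approx.lean) with `y w = X0 / g w` and `r` so negative that
`val w (g w) * exp r ≤ 1` for all `w` in `T` (finitely many): then
`g w * z - X0 = g w (z - y w)` has valuation `< 1`, so it is a nonunit (`FF.val_lt_one_iff` or
similar). For `X0` as a constant of `K`: `algebraMap k K X0`.
-/

set_option linter.unusedSectionVars false

namespace Pool.Agent.Helper21.TO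

open VC VF Function Polynomial
open Pool.Agent.Helper51.EW (Wei WPt aff zeroPt)

universe u

variable {k : Type u} [Field k] [IsAlgClosed k] [CharZero k]

private lemma wa0 {K : Type u} [Field K] [Algebra k K] (hK : IsFunctionField k K)
    (w : Place k K) (g z X0 : K) (hg : g ≠ 0) (r : ℤ)
    (h1 : FF.val hK w (z - X0 / g) < WithZero.exp r) (h4 : r ≤ ord w.ring g) :
    g * z - X0 ∈ w.ring.nonunits := by
  have h2 : g * z - X0 = g * (z - X0 / g) := by
    rw [mul_sub, mul_div_cancel₀ _ hg]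
  have h3 : FF.val hK w g ≠ 0 := (Valuation.ne_zero_iff _).mpr hg
  have h5 : FF.val hK w g * WithZero.exp r ≤ 1 := by
    rw [FF.val_eq_exp hK w hg, ← WithZero.exp_add, ← WithZero.exp_zero, WithZero.exp_le_exp]
    linarith
  rw [← FF.val_lt_one_iff hK, h2, map_mul]
  exact lt_of_lt_of_le (mul_lt_mul_of_pos_left h1 (zero_lt_iff.mpr h3)) h5

theorem wa {K : Type u} [Field K] [Algebra k K] (hK : IsFunctionField k K)
    (T : Set (Place k K)) (hT : T.Finite) (g : Place k K → K) (hg : ∀ w, g w ≠ 0)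
    (X0 : Place k K → k) : ∃ z : K, ∀ w ∈ T, IsRes w (g w * z) (X0 w) := by
  have hr : ∃ r : ℤ, ∀ w ∈ T, r ≤ ord w.ring (g w) := by
    obtain ⟨r, hr⟩ := (hT.image (fun w => ord w.ring (g w))).bddBelow
    exact ⟨r, fun w hw => hr ⟨w, hw, rfl⟩⟩
  obtain ⟨r, hr⟩ := hr
  obtain ⟨z, hz⟩ := FF.approx hK hT.toFinset (fun w => algebraMap k K (X0 w) / g w) r
  exact ⟨z, fun w hw => wa0 hK w _ z _ (hg w) r (hz w (hT.mem_toFinset.mpr hw)) (hr w hw)⟩

end Pool.Agent.Helper21.TO
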