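import Mathlib
import Pool.Agent.Helper9.NS
import Pool.Agent.Helper21.TO.Defs

/-!
# Block TO-AbsPsi: the difference function (pure group theory)
For `a` in `G` the set `D a` of the `b` with `b ∉ B`, `a + b ∉ B` is cofinite, hence nonempty.
Claim: `f (a + b) - f b = f (a + b') - f b'` for `b, b' ∈ D a`. Choose `c` outside the finite
set given by: `c ∈ B`, `a + c ∈ B`, `a + b + c = 0`, `c = 0`, `c = -(a + b) - (a + b)`, `a + c = 0`,
`c = -(a + b) - b`, and the same with `b'` in place of `b` (only finitely many `c` are excluded).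
Apply `H` to `P = a + b`, `Q = c`, `P' = b`, `Q' = a + c` (sum `a + b + c ≠ 0`; `P ≠ P + Q` as
`c ≠ 0`; `P ≠ -(P + Q)` as `c ≠ -2 (a + b)`; `P' ≠ P + Q` as `a + c ≠ 0`; `P' ≠ -(P + Q)` as
`c ≠ -(a + b) - b`): `f (a + b) - f b = f (a + c) - f c`. The same for `b'`. Define `ψ a` as the
common value. `ψ (a + a') = f (a + (a' + b)) - f (a' + b) + (f (a' + b) - f b)` for general `b`.
-/

set_option linter.unusedSectionVars false

namespace Pool.Agent.Helper21.TO

open VC VF Function Polynomial
open Pool.Agent.Helper51.EW (Wei WPt aff zeroPt)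

universe u

theorem abs_psi {G V : Type*} [AddCommGroup G] [Infinite G] [AddCommGroup V] (f : G → V)
    (B : Set G) (hB : B.Finite)
    (H : ∀ P Q P' Q', P ∉ B → Q ∉ B → P' ∉ B → Q' ∉ B → P + Q = P' + Q' → P + Q ≠ 0 →
      P ≠ P + Q → P ≠ -(P + Q) → P' ≠ P + Q → P' ≠ -(P + Q) → f P + f Q = f P' + f Q') :
    ∃ ψ : G →+ V, ∀ a b, b ∉ B → a + b ∉ B → f (a + b) - f b = ψ a := by
  have hpre : ∀ a : G, ((fun c => a + c) ⁻¹' B).Finite := fun a =>
    hB.preimage (fun x _ y _ hxy => add_left_cancel hxy)
  have hex : ∀ a a' : G, ∃ b, b ∉ B ∧ a' + b ∉ B ∧ a + (a' + b) ∉ B := by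
    intro a a'
    have hfin : (B ∪ ((fun c => a' + c) ⁻¹' B) ∪ ((fun c => (a + a') + c) ⁻¹' B)).Finite :=
      (hB.union (hpre a')).union (hpre (a + a'))
    obtain ⟨b, hb⟩ := hfin.exists_notMem
    simp only [Set.mem_union, Set.mem_preimage, not_or] at hb
    refine ⟨b, hb.1.1, hb.1.2, ?_⟩
    rw [← add_assoc]
    exact hb.2
  have key : ∀ a b b' : G, b ∉ B → a + b ∉ B → b' ∉ B → a + b' ∉ B →
      f (a + b) - f b = f (a + b') - f b' := by
    intro a b b' hb hab hb' hab'
    let E : G → Set G := fun b => {-(a + b), 0, -(a + b) - (a + b), -a, -(a + b) - b}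
    have hE : ∀ b, (E b).Finite := fun b => by
      simp only [E]
      exact Set.toFinite _
    have hfin : (B ∪ ((fun c => a + c) ⁻¹' B) ∪ E b ∪ E b').Finite :=
      ((hB.union (hpre a)).union (hE b)).union (hE b')
    obtain ⟨c, hc⟩ := hfin.exists_notMem
    simp only [Set.mem_union, Set.mem_preimage, not_or] at hc
    obtain ⟨⟨⟨hc1, hc2⟩, hc3⟩, hc4⟩ := hc
    have main : ∀ b : G, b ∉ B → a + b ∉ B → c ∉ E b → f (a + b) - f b = f (a + c) - f c := by
      intro b hb hab hcE
      simp only [E, Set.mem_insert_iff, Set.mem_singleton_iff, not_or] at hcE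
      obtain ⟨h1, h2, h3, h4, h5⟩ := hcE
      have h := H (a + b) c b (a + c) hab hc1 hb hc2 (by abel)
        (fun h => h1 (by rw [eq_neg_iff_add_eq_zero, add_comm]; exact h))
        (fun h => h2 (by
          have : a + b + 0 = a + b + c := by rw [add_zero]; exact h
          exact (add_left_cancel this).symm))
        (fun h => h3 (by
          have : c = -(a + b) - (a + b) := by
            have h' : a + b + (a + b + c) = 0 := by
              nth_rewrite 1 [h]
              exact neg_add_cancel _
            have h'' : c = (a + b + (a + b + c)) - (a + b) - (a + b) := by abel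
            rw [h''] 
            rw [h']
            abel
          exact this))
        (fun h => h4 (by
          have : c = -a + ((a + b + c) - b) := by abel
          rw [this, ← h]
          abel))
        (fun h => h5 (by
          have h' : b + (a + b + c) = 0 := by
            nth_rewrite 1 [h]
            exact neg_add_cancel _
          have h'' : c = (b + (a + b + c)) - (a + b) - b := by abel
          rw [h'', h']
          abel))
      have h6 : f (a + b) = f b + f (a + c) - f c := by
        rw [← h]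
        abel
      rw [h6]
      abel
    rw [main b hb hab hc3, main b' hb' hab' hc4]
  choose b hb using fun a : G => hex 0 a
  have hψ : ∀ a c, c ∉ B → a + c ∉ B → f (a + c) - f c = f (a + b a) - f (b a) :=
    fun a c h1 h2 => key a c (b a) h1 h2 (hb a).1 (hb a).2.1
  refine ⟨AddMonoidHom.mk' (fun a => f (a + b a) - f (b a)) ?_, fun a c h1 h2 => hψ a c h1 h2⟩
  intro a a'
  obtain ⟨c, h1, h2, h3⟩ := hex a a'
  have e1 := hψ a (a' + c) h2 h3
  have e2 := hψ a' c h1 h2
  have e3 := hψ (a + a') c h1 (by rw [add_assoc]; exact h3)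
  rw [← e1, ← e2, ← e3, ← add_assoc]
  abel

end Pool.Agent.Helper21.TO
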