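import Mathlib
import Pool.Agent.Helper9.NS
import Pool.Agent.Helper21.TO.Defs

/-!
# Block TO-MapPt: points of a curve in a larger field
`mapPt f` is a homomorphism of groups. Model: the proof of
`WeierstrassCurve.Affine.Point.map` (Mathlib/AlgebraicGeometry/EllipticCurve/Affine/Point.lean,
line 799) with `W'.baseChange` replaced by `W'.map f.toRingHom`, or directly by cases from
`add_some`, `slope` (all formulas are polynomial or are quotients with the same denominators; `f`
is injective). Useful: `EPt.mk x y h = WeierstrassCurve.Affine.Point.some x y h` by definition,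
`mapPt f (EPt.mk x y h) = EPt.mk (f x) (f y) _` by `rfl`, and
`(sw a b).toAffine.slope`, `addX`, `addY`, `negY` unfold with `a₁ = a₂ = a₃ = 0`.
-/

set_option linter.unusedSectionVars false

namespace Pool.Agent.Helper21.TO

open VC VF Function Polynomial
open Pool.Agent.Helper51.EW (Wei WPt aff zeroPt)

universe u

variable {k F K : Type u} [Field k] [Field F] [Algebra k F] [Field K] [Algebra k K]
  (f : F →ₐ[k] K) {a b : F}

theorem mapPt_zero : mapPt f (0 : EPt a b) = 0 := rfl

theorem sw_map_h11 (a b : F) : (sw a b).map f.toRingHom = sw (f a) (f b) := by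
  unfold WeierstrassCurve.map
  simp [sw]

theorem slope_h11 (x₁ x₂ y₁ y₂ : F) :
    (sw (f a) (f b)).toAffine.slope (f x₁) (f x₂) (f y₁) (f y₂) =
      f ((sw a b).toAffine.slope x₁ x₂ y₁ y₂) := by
  rw [← sw_map_h11]
  exact WeierstrassCurve.Affine.map_slope f.toRingHom x₁ x₂ y₁ y₂

theorem negY_h11 (x y : F) :
    (sw (f a) (f b)).toAffine.negY (f x) (f y) = f ((sw a b).toAffine.negY x y) := by
  rw [← sw_map_h11]
  exact WeierstrassCurve.Affine.map_negY f.toRingHom x y

theorem addX_h11 (x₁ x₂ l : F) :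
    (sw (f a) (f b)).toAffine.addX (f x₁) (f x₂) (f l) =
      f ((sw a b).toAffine.addX x₁ x₂ l) := by
  rw [← sw_map_h11]
  exact WeierstrassCurve.Affine.map_addX f.toRingHom x₁ x₂ l

theorem addY_h11 (x₁ x₂ y₁ l : F) :
    (sw (f a) (f b)).toAffine.addY (f x₁) (f x₂) (f y₁) (f l) =
      f ((sw a b).toAffine.addY x₁ x₂ y₁ l) := by
  rw [← sw_map_h11]
  exact WeierstrassCurve.Affine.map_addY f.toRingHom x₁ y₁ x₂ l

theorem some_congr_h11 {a b x y x' y' : F} (h : (sw a b).toAffine.Nonsingular x y)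
    (h' : (sw a b).toAffine.Nonsingular x' y') (e : x = x') (e' : y = y') :
    EPt.mk x y h = EPt.mk x' y' h' := by
  subst e
  subst e'
  rfl

theorem mapPt_neg (P : EPt a b) : mapPt f (-P) = -mapPt f P := by
  rcases P with _ | ⟨x, y, h⟩
  · rfl
  · exact some_congr_h11 _ _ rfl (negY_h11 f x y).symm

theorem mapPt_add (P Q : EPt a b) : mapPt f (P + Q) = mapPt f P + mapPt f Q := by
  rcases P with _ | ⟨x₁, y₁, h₁⟩
  · change mapPt f (0 + Q) = 0 + mapPt f Q
    rw [zero_add, zero_add]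
  rcases Q with _ | ⟨x₂, y₂, h₂⟩
  · change mapPt f (EPt.mk x₁ y₁ h₁ + 0) = mapPt f (EPt.mk x₁ y₁ h₁) + 0
    rw [add_zero, add_zero]
  change mapPt f (EPt.mk x₁ y₁ h₁ + EPt.mk x₂ y₂ h₂) =
    EPt.mk (f x₁) (f y₁) _ + EPt.mk (f x₂) (f y₂) _
  by_cases hxy : x₁ = x₂ ∧ y₁ = (sw a b).toAffine.negY x₂ y₂
  · rw [WeierstrassCurve.Affine.Point.add_of_Y_eq hxy.1 hxy.2,
      WeierstrassCurve.Affine.Point.add_of_Y_eq (congrArg f hxy.1)
        (by rw [hxy.2, negY_h11])]
    rfl
  · have hxy' : ¬(f x₁ = f x₂ ∧ f y₁ = (sw (f a) (f b)).toAffine.negY (f x₂) (f y₂)) := by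
      intro h
      exact hxy ⟨f.injective h.1, f.injective (h.2.trans (negY_h11 f x₂ y₂))⟩
    rw [WeierstrassCurve.Affine.Point.add_some hxy,
      WeierstrassCurve.Affine.Point.add_some hxy']
    refine some_congr_h11 _ _ ?_ ?_
    · rw [slope_h11, addX_h11]
    · rw [slope_h11, addY_h11]

theorem mapPt_nsmul (n : ℕ) (P : EPt a b) : mapPt f (n • P) = n • mapPt f P := by
  induction n with
  | zero => rw [zero_smul, zero_smul]; rfl
  | succ n ih => rw [succ_nsmul, succ_nsmul, mapPt_add, ih]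

theorem mapPt_injective : Injective (mapPt f : EPt a b → EPt (f a) (f b)) := by
  intro P Q h
  rcases P with _ | ⟨x₁, y₁, h₁⟩
  · rcases Q with _ | ⟨x₂, y₂, h₂⟩
    · rfl
    · exact absurd h (by intro h; cases h)
  · rcases Q with _ | ⟨x₂, y₂, h₂⟩
    · exact absurd h (by intro h; cases h)
    · have h' : EPt.mk (f x₁) (f y₁) (nonsingular_map f h₁) =
          EPt.mk (f x₂) (f y₂) (nonsingular_map f h₂) := h
      rw [WeierstrassCurve.Affine.Point.some.injEq] at h'
      exact some_congr_h11 _ _ (f.injective h'.1) (f.injective h'.2)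

end Pool.Agent.Helper21.TO
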