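import Mathlib
import Pool.Agent.Helper9.NS
import Pool.Agent.Helper21.TO.Defs

/-!
# Block TO-RedMap: reduction: change of the field, existence, points with given `x`-coordinate
`red_map`: by cases; `κ (σ ^ 2 x) = κ σ ^ 2 * κ x`; `Over.notMem`, `Over.isRes_iff` (Defs).
`RedData.map`: the reduction data in the larger field.
`red_exists`: if `4 At ^ 3 + 27 Bt ^ 2 ≠ 0`: for `P = mk x y`: if `σ ^ 2 x` is not regular the
reduction is `0`. If it is regular with residue `X`, then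
`(σ ^ 3 y) ^ 2 = (σ ^ 2 x) ^ 3 + σ ^ 4 a σ ^ 2 x + σ ^ 6 b`, so `σ ^ 3 y` is regular
(`VF.mem_of_pow`) with a residue `Y`, `Y ^ 2 = X ^ 3 + At X + Bt`, and `(X, Y)` is nonsingular: if
`Y = 0` and `3 X ^ 2 + At = 0` and `X ^ 3 + At X + Bt = 0` then `4 At ^ 3 + 27 Bt ^ 2 = 0`.
`red_of_x`: the same, for `X ^ 3 + At X + Bt ≠ 0` (then `Y ≠ 0`).
`nonsing_of_x`: if `σ ^ 2 z` has the residue `X` with `X ^ 3 + At X + Bt ≠ 0` and
`y ^ 2 = z ^ 3 + a z + b` then `y ≠ 0`, hence `(z, y)` is nonsingular.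
`red_unique`: residues are unique.
-/

set_option linter.unusedSectionVars false

namespace Pool.Agent.Helper21.TO

open VC VF Function Polynomial
open Pool.Agent.Helper51.EW (Wei WPt aff zeroPt)

universe u

variable {k : Type u} [Field k] [IsAlgClosed k] [CharZero k]

section

variable {K K' : Type u} [Field K] [Algebra k K] [Field K'] [Algebra k K'] {w : Place k K}
  {w' : Place k K'} {σ a b : K} {At Bt : k}

theorem RedData.map (hd : RedData w σ a b At Bt) (hK' : IsFunctionField k K') (κ : K →ₐ[k] K')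
    (ho : Over w κ w') : RedData w' (κ σ) (κ a) (κ b) At Bt := by
  refine ⟨hK', (_root_.map_ne_zero κ).mpr hd.ne, ?_, ?_⟩
  · have h := ho _ _ hd.hA
    rwa [map_mul, map_pow] at h
  · have h := ho _ _ hd.hB
    rwa [map_mul, map_pow] at h

theorem red_map (hK : IsFunctionField k K) (κ : K →ₐ[k] K') (ho : Over w κ w') (P : EPt a b)
    (Pt : EPt At Bt) : Red w' (κ σ) (mapPt κ P) Pt ↔ Red w σ P Pt := by
  have e2 : ∀ x : K, κ σ ^ 2 * κ x = κ (σ ^ 2 * x) := fun x => by rw [map_mul, map_pow]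
  have e3 : ∀ y : K, κ σ ^ 3 * κ y = κ (σ ^ 3 * y) := fun y => by rw [map_mul, map_pow]
  rcases P with _ | ⟨x, y, h⟩
  · exact Iff.rfl
  · rcases Pt with _ | ⟨X, Y, h'⟩
    · show κ σ ^ 2 * κ x ∉ w'.ring ↔ σ ^ 2 * x ∉ w.ring
      rw [e2]
      constructor
      · intro h1 h2
        obtain ⟨c, hc⟩ := exists_res hK h2
        exact h1 (ho _ _ hc).mem
      · exact fun h1 => ho.notMem h1
    · show IsRes w' (κ σ ^ 2 * κ x) X ∧ IsRes w' (κ σ ^ 3 * κ y) Y ↔
        IsRes w (σ ^ 2 * x) X ∧ IsRes w (σ ^ 3 * y) Y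
      rw [e2, e3, ho.isRes_iff hK, ho.isRes_iff hK]

end

variable {K : Type u} [Field K] [Algebra k K] {w : Place k K} {σ a b : K} {At Bt : k}

private theorem res_xy1 (hd : RedData w σ a b At Bt) {x y : K} (h : y ^ 2 = x ^ 3 + a * x + b)
    {X : k} (hX : IsRes w (σ ^ 2 * x) X) :
    ∃ Y : k, IsRes w (σ ^ 3 * y) Y ∧ Y ^ 2 = X ^ 3 + At * X + Bt := by
  have h1 : IsRes w ((σ ^ 3 * y) ^ 2) (X ^ 3 + At * X + Bt) := by
    have e : (σ ^ 3 * y) ^ 2 = (σ ^ 2 * x) ^ 3 + (σ ^ 4 * a) * (σ ^ 2 * x) + σ ^ 6 * b := by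
      have e1 : (σ ^ 3 * y) ^ 2 = σ ^ 6 * y ^ 2 := by ring
      rw [e1, h]
      ring
    rw [e]
    exact ((hX.pow 3).add (hd.hA.mul hX)).add hd.hB
  exact exists_res_of_pow hd.hK (by norm_num) h1

private theorem eq_zero_of_neg1 {Y : k} (h : Y = -Y) : Y = 0 := by
  have h1 : 2 * Y = 0 := by linear_combination h
  exact (mul_eq_zero.mp h1).resolve_left two_ne_zero

theorem red_exists (hd : RedData w σ a b At Bt) (hΔ : 4 * At ^ 3 + 27 * Bt ^ 2 ≠ 0)
    (P : EPt a b) : ∃ Pt : EPt At Bt, Red w σ P Pt := by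
  rcases P with _ | ⟨x, y, h⟩
  · exact ⟨0, rfl⟩
  · by_cases hx : σ ^ 2 * x ∈ w.ring
    · obtain ⟨X, hX⟩ := exists_res hd.hK hx
      obtain ⟨Y, hY, hXY⟩ := res_xy1 hd (sw_nonsingular.mp h).1 hX
      have hns : (sw At Bt).toAffine.Nonsingular X Y := by
        rw [sw_nonsingular]
        refine ⟨hXY, ?_⟩
        by_contra hcon
        rw [not_or, not_not, not_not] at hcon
        obtain ⟨h1, h2⟩ := hcon
        rw [eq_zero_of_neg1 h2] at hXY
        have hA : At = -3 * X ^ 2 := by linear_combination (-1) * h1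
        have hB : Bt = 2 * X ^ 3 := by linear_combination (-1) * hXY + X * h1
        apply hΔ
        rw [hA, hB]
        ring
      exact ⟨EPt.mk X Y hns, hX, hY⟩
    · exact ⟨0, hx⟩

theorem red_unique {P : EPt a b} {Pt Qt : EPt At Bt} (h : Red w σ P Pt) (h' : Red w σ P Qt) :
    Pt = Qt := by
  rcases P with _ | ⟨x, y, h0⟩
  · have e1 : Pt = 0 := h
    have e2 : Qt = 0 := h'
    rw [e1, e2]
  · rcases Pt with _ | ⟨X, Y, h1⟩
    · have e1 : σ ^ 2 * x ∉ w.ring := h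
      rcases Qt with _ | ⟨X', Y', h2⟩
      · rfl
      · have e2 : IsRes w (σ ^ 2 * x) X' ∧ IsRes w (σ ^ 3 * y) Y' := h'
        exact absurd e2.1.mem e1
    · have e1 : IsRes w (σ ^ 2 * x) X ∧ IsRes w (σ ^ 3 * y) Y := h
      rcases Qt with _ | ⟨X', Y', h2⟩
      · have e2 : σ ^ 2 * x ∉ w.ring := h'
        exact absurd e1.1.mem e2
      · have e2 : IsRes w (σ ^ 2 * x) X' ∧ IsRes w (σ ^ 3 * y) Y' := h'
        obtain rfl := e1.1.unique e2.1
        obtain rfl := e1.2.unique e2.2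
        rfl

theorem nonsing_of_x (hd : RedData w σ a b At Bt) {z y : K} {X : k}
    (hX : X ^ 3 + At * X + Bt ≠ 0) (hz : IsRes w (σ ^ 2 * z) X)
    (h : y ^ 2 = z ^ 3 + a * z + b) : (sw a b).toAffine.Nonsingular z y := by
  rw [sw_nonsingular]
  refine ⟨h, Or.inr fun h0 => hX ?_⟩
  have h2 : (2 : K) ≠ 0 := by
    have h3 : algebraMap k K 2 ≠ 0 := (_root_.map_ne_zero _).mpr two_ne_zero
    rwa [map_ofNat] at h3
  have h1 : y = 0 := by
    have h4 : 2 * y = 0 := by linear_combination h0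
    exact (mul_eq_zero.mp h4).resolve_left h2
  obtain ⟨Y, hY, hXY⟩ := res_xy1 hd h hz
  rw [h1, mul_zero] at hY
  rw [hY.unique isRes_zero] at hXY
  rw [← hXY]
  ring

theorem red_of_x (hd : RedData w σ a b At Bt) {z y : K} {X : k}
    (hX : X ^ 3 + At * X + Bt ≠ 0) (hz : IsRes w (σ ^ 2 * z) X)
    (h : (sw a b).toAffine.Nonsingular z y) :
    ∃ (Y : k) (h' : (sw At Bt).toAffine.Nonsingular X Y), Y ≠ 0 ∧
      Red w σ (EPt.mk z y h) (EPt.mk X Y h') := by
  obtain ⟨Y, hY, hXY⟩ := res_xy1 hd (sw_nonsingular.mp h).1 hz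
  have hY0 : Y ≠ 0 := by
    rintro rfl
    exact hX (by rw [← hXY]; ring)
  have hns : (sw At Bt).toAffine.Nonsingular X Y := by
    rw [sw_nonsingular]
    exact ⟨hXY, Or.inr fun h0 => hY0 (eq_zero_of_neg1 h0)⟩
  exact ⟨Y, hns, hY0, hz, hY⟩

end Pool.Agent.Helper21.TO
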