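import Mathlib
import Pool.Agent.Helper9.NS
import Pool.Agent.Helper21.TO.Defs

/-!
# Block TO-RedOpp: reduction of a sum, opposite reductions
`P = mk x1 y1`, `Q = mk x2 y2`, scaled coordinates with residues `X`, `Y` and `X`, `-Y`, `Y ≠ 0`.
If `x1 = x2` then `y1 = y2` or `y1 = -y2` (both satisfy the equation), `y1 = y2` is impossible as
the residues `Y`, `-Y` differ (characteristic zero), so `P + Q = 0` (`add_of_Y_eq`). If `x1 ≠ x2`:
`P + Q = mk x3 y3` with `x3 = l ^ 2 - x1 - x2`, `l = (y1 - y2) / (x1 - x2)`. `σ l` is not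
regular: otherwise `σ ^ 3 (y1 - y2) = σ l * (σ ^ 2 x1 - σ ^ 2 x2)` has the residue `0`, but its
residue is `2 Y ≠ 0`. Hence `(σ l) ^ 2` is not regular (`VF.mem_of_pow`) and neither is
`σ ^ 2 x3 = (σ l) ^ 2 - σ ^ 2 x1 - σ ^ 2 x2`.
-/

set_option linter.unusedSectionVars false

namespace Pool.Agent.Helper21.TO

open VC VF Function Polynomial
open Pool.Agent.Helper51.EW (Wei WPt aff zeroPt)

universe u

variable {k K : Type u} [Field k] [IsAlgClosed k] [CharZero k] [Field K] [Algebra k K]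
  {w : Place k K} {σ a b : K} {At Bt : k}

theorem red_add_opp (hd : RedData w σ a b At Bt) {P Q : EPt a b} {X Y : k}
    {h : (sw At Bt).toAffine.Nonsingular X Y} {h' : (sw At Bt).toAffine.Nonsingular X (-Y)}
    (hP : Red w σ P (EPt.mk X Y h)) (hQ : Red w σ Q (EPt.mk X (-Y) h')) (hY : Y ≠ 0) :
    Red w σ (P + Q) (0 : EPt At Bt) := by
  have h2Y : Y ≠ -Y := by
    intro h0
    apply hY
    have h1 : (2 : k) * Y = 0 := by linear_combination h0
    exact (mul_eq_zero.1 h1).resolve_left two_ne_zero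
  rcases P with _ | ⟨x1, y1, h1⟩
  · exact absurd hP (WeierstrassCurve.Affine.Point.some_ne_zero h)
  rcases Q with _ | ⟨x2, y2, h2⟩
  · exact absurd hQ (WeierstrassCurve.Affine.Point.some_ne_zero h')
  obtain ⟨hX1, hY1⟩ : IsRes w (σ ^ 2 * x1) X ∧ IsRes w (σ ^ 3 * y1) Y := hP
  obtain ⟨hX2, hY2⟩ : IsRes w (σ ^ 2 * x2) X ∧ IsRes w (σ ^ 3 * y2) (-Y) := hQ
  have hneg : (sw a b).toAffine.negY x2 y2 = -y2 := by
    simp [WeierstrassCurve.Affine.negY]
  by_cases hx : x1 = x2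
  · subst hx
    have e1 := (sw_nonsingular.1 h1).1
    have e2 := (sw_nonsingular.1 h2).1
    have e3 : (y1 - y2) * (y1 + y2) = 0 := by linear_combination e1 - e2
    rcases mul_eq_zero.1 e3 with e4 | e4
    · have e5 : y1 = y2 := sub_eq_zero.1 e4
      rw [e5] at hY1
      exact absurd (hY1.unique hY2) h2Y
    · have e5 : y1 = (sw a b).toAffine.negY x1 y2 := by
        rw [hneg]
        linear_combination e4
      rw [WeierstrassCurve.Affine.Point.add_of_Y_eq rfl e5]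
      rfl
  · rw [WeierstrassCurve.Affine.Point.add_of_X_ne hx]
    show σ ^ 2 * (sw a b).toAffine.addX x1 x2 ((sw a b).toAffine.slope x1 x2 y1 y2) ∉ w.ring
    rw [WeierstrassCurve.Affine.slope_of_X_ne hx]
    have hax : (sw a b).toAffine.addX x1 x2 ((y1 - y2) / (x1 - x2)) =
        ((y1 - y2) / (x1 - x2)) ^ 2 - x1 - x2 := by
      simp [WeierstrassCurve.Affine.addX]
    rw [hax]
    intro hmem
    have e1 : (σ * ((y1 - y2) / (x1 - x2))) ^ 2 =
        σ ^ 2 * (((y1 - y2) / (x1 - x2)) ^ 2 - x1 - x2) + σ ^ 2 * x1 + σ ^ 2 * x2 := by ring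
    have e2 : (σ * ((y1 - y2) / (x1 - x2))) ^ 2 ∈ w.ring := by
      rw [e1]
      exact w.ring.add_mem _ _ (w.ring.add_mem _ _ hmem hX1.mem) hX2.mem
    obtain ⟨l0, hl0⟩ := exists_res hd.hK (mem_of_pow two_ne_zero e2)
    have hx0 : x1 - x2 ≠ 0 := sub_ne_zero.2 hx
    have e3 : σ ^ 3 * y1 - σ ^ 3 * y2 =
        σ * ((y1 - y2) / (x1 - x2)) * (σ ^ 2 * x1 - σ ^ 2 * x2) := by
      field_simp
    have e4 := hY1.sub hY2
    rw [e3] at e4
    have e5 := e4.unique (hl0.mul (hX1.sub hX2))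
    rw [sub_self, mul_zero] at e5
    apply h2Y
    linear_combination e5

end Pool.Agent.Helper21.TO
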