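import Mathlib
import Pool.Agent.Helper9.NS
import Pool.Agent.Helper21.TO.Defs
import Pool.Agent.Helper21.TO.Defs2

/-!
# Block TO-Sc: scaling is a homomorphism
By cases as in the block MapPt: the slope is multiplied by `c`:
`(c ^ 3 y1 - c ^ 3 y2) / (c ^ 2 x1 - c ^ 2 x2) = c (y1 - y2) / (x1 - x2)`, and
`(3 c ^ 4 x ^ 2 + c ^ 4 At) / (2 c ^ 3 y) = c (3 x ^ 2 + At) / (2 y)`.
-/

set_option linter.unusedSectionVars false

namespace Pool.Agent.Helper21.TO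

open VC VF Function Polynomial
open Pool.Agent.Helper51.EW (Wei WPt aff zeroPt)

universe u

variable {F : Type*} [Field F] {At Bt At' Bt' : F}

private theorem negY_h75 (a b x y : F) : (sw a b).toAffine.negY x y = -y := by
  simp [WeierstrassCurve.Affine.negY]

private theorem addX_h75 (a b x₁ x₂ l : F) :
    (sw a b).toAffine.addX x₁ x₂ l = l ^ 2 - x₁ - x₂ := by
  simp [WeierstrassCurve.Affine.addX]

private theorem addY_h75 (a b x₁ x₂ y₁ l : F) :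
    (sw a b).toAffine.addY x₁ x₂ y₁ l = -(l * (l ^ 2 - x₁ - x₂ - x₁) + y₁) := by
  rw [WeierstrassCurve.Affine.addY, negY_h75, WeierstrassCurve.Affine.negAddY, addX_h75]

private theorem slope_h75 {c : F} (hc : c ≠ 0) (hA : At' = c ^ 4 * At) (x₁ x₂ y₁ y₂ : F) :
    (sw At' Bt').toAffine.slope (c ^ 2 * x₁) (c ^ 2 * x₂) (c ^ 3 * y₁) (c ^ 3 * y₂) =
      c * (sw At Bt).toAffine.slope x₁ x₂ y₁ y₂ := by
  have hc2 : c ^ 2 ≠ 0 := pow_ne_zero 2 hc
  have hc3 : c ^ 3 ≠ 0 := pow_ne_zero 3 hc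
  by_cases hx : x₁ = x₂
  · by_cases hy : y₁ = (sw At Bt).toAffine.negY x₂ y₂
    · rw [WeierstrassCurve.Affine.slope_of_Y_eq hx hy, mul_zero,
        WeierstrassCurve.Affine.slope_of_Y_eq (by rw [hx])]
      rw [hy, negY_h75, negY_h75]
      ring
    · have hy' : c ^ 3 * y₁ ≠ (sw At' Bt').toAffine.negY (c ^ 2 * x₂) (c ^ 3 * y₂) := by
        intro h
        apply hy
        rw [negY_h75] at h ⊢
        apply mul_left_cancel₀ hc3
        rw [h]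
        ring
      have hyy : y₁ - -y₁ ≠ 0 ∨ y₁ - -y₁ = 0 := (em _).symm
      rw [WeierstrassCurve.Affine.slope_of_Y_ne hx hy,
        WeierstrassCurve.Affine.slope_of_Y_ne (by rw [hx]) hy', negY_h75, negY_h75]
      have e1 : c ^ 3 * y₁ - -(c ^ 3 * y₁) = c ^ 3 * (y₁ - -y₁) := by ring
      have e2 : 3 * (c ^ 2 * x₁) ^ 2 + 2 * (sw At' Bt').a₂ * (c ^ 2 * x₁) + (sw At' Bt').a₄ -
          (sw At' Bt').a₁ * (c ^ 3 * y₁) = c ^ 4 * (3 * x₁ ^ 2 + 2 * (sw At Bt).a₂ * x₁ +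
          (sw At Bt).a₄ - (sw At Bt).a₁ * y₁) := by
        change 3 * (c ^ 2 * x₁) ^ 2 + 2 * 0 * (c ^ 2 * x₁) + At' - 0 * (c ^ 3 * y₁) =
          c ^ 4 * (3 * x₁ ^ 2 + 2 * 0 * x₁ + At - 0 * y₁)
        rw [hA]
        ring
      rw [e1, e2]
      rcases hyy with h | h
      · field_simp
      · simp only [h, mul_zero, div_zero]
  · have hx' : c ^ 2 * x₁ ≠ c ^ 2 * x₂ := fun h => hx (mul_left_cancel₀ hc2 h)
    rw [WeierstrassCurve.Affine.slope_of_X_ne hx, WeierstrassCurve.Affine.slope_of_X_ne hx',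
      ← mul_sub, ← mul_sub]
    have h : x₁ - x₂ ≠ 0 := sub_ne_zero.2 hx
    field_simp

private theorem congr_h75 {a b x y x' y' : F} (h : (sw a b).toAffine.Nonsingular x y)
    (h' : (sw a b).toAffine.Nonsingular x' y') (e : x = x') (e' : y = y') :
    EPt.mk x y h = EPt.mk x' y' h' := by
  subst e
  subst e'
  rfl

theorem scF_neg (c : F) (hc : c ≠ 0) (hA : At' = c ^ 4 * At) (hB : Bt' = c ^ 6 * Bt)
    (P : EPt At Bt) : scF c hc hA hB (-P) = -scF c hc hA hB P := by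
  rcases P with _ | ⟨x, y, h⟩
  · rfl
  · refine congr_h75 _ _ rfl ?_
    rw [negY_h75, negY_h75]
    ring

theorem scF_add (c : F) (hc : c ≠ 0) (hA : At' = c ^ 4 * At) (hB : Bt' = c ^ 6 * Bt)
    (P Q : EPt At Bt) : scF c hc hA hB (P + Q) = scF c hc hA hB P + scF c hc hA hB Q := by
  rcases P with _ | ⟨x₁, y₁, h₁⟩
  · change scF c hc hA hB (0 + Q) = 0 + scF c hc hA hB Q
    rw [zero_add, zero_add]
  rcases Q with _ | ⟨x₂, y₂, h₂⟩
  · change scF c hc hA hB (EPt.mk x₁ y₁ h₁ + 0) = scF c hc hA hB (EPt.mk x₁ y₁ h₁) + 0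
    rw [add_zero, add_zero]
  change scF c hc hA hB (EPt.mk x₁ y₁ h₁ + EPt.mk x₂ y₂ h₂) =
    EPt.mk (c ^ 2 * x₁) (c ^ 3 * y₁) _ + EPt.mk (c ^ 2 * x₂) (c ^ 3 * y₂) _
  have hc2 : c ^ 2 ≠ 0 := pow_ne_zero 2 hc
  have hc3 : c ^ 3 ≠ 0 := pow_ne_zero 3 hc
  have hneg : (sw At' Bt').toAffine.negY (c ^ 2 * x₂) (c ^ 3 * y₂) =
      c ^ 3 * (sw At Bt).toAffine.negY x₂ y₂ := by
    rw [negY_h75, negY_h75]
    ring
  by_cases hxy : x₁ = x₂ ∧ y₁ = (sw At Bt).toAffine.negY x₂ y₂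
  · rw [WeierstrassCurve.Affine.Point.add_of_Y_eq hxy.1 hxy.2,
      WeierstrassCurve.Affine.Point.add_of_Y_eq (congrArg (fun z => c ^ 2 * z) hxy.1)
        (by rw [hneg, ← hxy.2])]
    rfl
  · have hxy' : ¬(c ^ 2 * x₁ = c ^ 2 * x₂ ∧
        c ^ 3 * y₁ = (sw At' Bt').toAffine.negY (c ^ 2 * x₂) (c ^ 3 * y₂)) := by
      intro h
      exact hxy ⟨mul_left_cancel₀ hc2 h.1, mul_left_cancel₀ hc3 (h.2.trans hneg)⟩
    rw [WeierstrassCurve.Affine.Point.add_some hxy,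
      WeierstrassCurve.Affine.Point.add_some hxy']
    refine congr_h75 _ _ ?_ ?_
    · rw [slope_h75 (Bt := Bt) (Bt' := Bt') hc hA, addX_h75, addX_h75]
      ring
    · rw [slope_h75 (Bt := Bt) (Bt' := Bt') hc hA, addY_h75, addY_h75]
      ring

theorem scF_bijective (c : F) (hc : c ≠ 0) (hA : At' = c ^ 4 * At) (hB : Bt' = c ^ 6 * Bt) :
    Bijective (scF c hc hA hB : EPt At Bt → EPt At' Bt') := by
  have hc2 : c ^ 2 ≠ 0 := pow_ne_zero 2 hc
  have hc3 : c ^ 3 ≠ 0 := pow_ne_zero 3 hc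
  constructor
  · intro P Q h
    rcases P with _ | ⟨x₁, y₁, h₁⟩
    · rcases Q with _ | ⟨x₂, y₂, h₂⟩
      · rfl
      · exact absurd h (by intro h; cases h)
    · rcases Q with _ | ⟨x₂, y₂, h₂⟩
      · exact absurd h (by intro h; cases h)
      · have h' : EPt.mk (c ^ 2 * x₁) (c ^ 3 * y₁) (nonsingular_scale hc hA hB h₁) =
            EPt.mk (c ^ 2 * x₂) (c ^ 3 * y₂) (nonsingular_scale hc hA hB h₂) := h
        rw [WeierstrassCurve.Affine.Point.some.injEq] at h'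
        exact congr_h75 _ _ (mul_left_cancel₀ hc2 h'.1) (mul_left_cancel₀ hc3 h'.2)
  · intro Q
    rcases Q with _ | ⟨x, y, h⟩
    · exact ⟨0, rfl⟩
    · have hA' : At = c⁻¹ ^ 4 * At' := by
        rw [hA, ← mul_assoc, ← mul_pow, inv_mul_cancel₀ hc, one_pow, one_mul]
      have hB' : Bt = c⁻¹ ^ 6 * Bt' := by
        rw [hB, ← mul_assoc, ← mul_pow, inv_mul_cancel₀ hc, one_pow, one_mul]
      refine ⟨EPt.mk (c⁻¹ ^ 2 * x) (c⁻¹ ^ 3 * y) (nonsingular_scale (inv_ne_zero hc) hA' hB' h), ?_⟩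
      refine congr_h75 _ _ ?_ ?_
      · rw [← mul_assoc, ← mul_pow, mul_inv_cancel₀ hc, one_pow, one_mul]
      · rw [← mul_assoc, ← mul_pow, mul_inv_cancel₀ hc, one_pow, one_mul]

theorem scF_one (hA : At = 1 ^ 4 * At) (hB : Bt = 1 ^ 6 * Bt) (P : EPt At Bt) :
    scF (1 : F) one_ne_zero hA hB P = P := by
  rcases P with _ | ⟨x, y, h⟩
  · rfl
  · refine congr_h75 _ _ ?_ ?_
    · rw [one_pow, one_mul]
    · rw [one_pow, one_mul]

end Pool.Agent.Helper21.TO
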