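import Mathlib
import Pool.Agent.Helper9.NS
import Pool.Agent.Helper21.TO.Defs
import Pool.Agent.Helper21.TO.Defs2
import Pool.Agent.Helper21.TO.Sc
import Pool.Agent.Helper21.TO.FinPt

/-!
# Block TO-ScaleZero: a homomorphism invariant under a nontrivial scaling vanishes
`c ^ 4 At = At`, `c ^ 6 Bt = Bt`, not both `At`, `Bt` are zero.
If `At ≠ 0`: `c ^ 4 = 1`, so `c = -1` or `c ^ 2 = -1`. For `c = -1` the scaling is the inversion
`(X, Y) ↦ (X, -Y)`, `ψ (-a) = ψ a`, so `2 ψ a = 0`. For `c ^ 2 = -1` the scaling applied twice is the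
inversion.
If `At = 0`, `Bt ≠ 0`: `c ^ 6 = 1`. If `c ^ 3 = -1`: the scaling applied three times is
`(X, Y) ↦ (X, -Y)` (as `c ^ 6 = 1`, `c ^ 9 = -1`), the inversion. If `c ^ 3 = 1`, `c ≠ 1`: the scaling
is `(X, Y) ↦ (c ^ 2 X, Y)`, and `P + [c] P + [c ^ 2] P = 0` for `P = mk X Y`, `X ≠ 0`: the three points
have the distinct `x`-coordinates `X`, `c ^ 2 X`, `c X` and the same `Y`; `P + [c] P`: slope `0`,
`x3 = - X - c ^ 2 X = c X`, `y3 = -Y` (`1 + c + c ^ 2 = 0`). So `3 ψ P = 0`. For `X = 0`:
`[c] P = P` gives nothing, but `P` is a difference of points with `X ≠ 0`: `P = (P + Q) - Q` for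
any `Q` with `X (Q) ≠ 0`, `X (P + Q) ≠ 0` (infinitely many points, `infinite_EPt`, `finite_X`); or
`3 P = 0` for `P = (0, Y)` (tangent line `y = Y`, the slope is `0`, `2 P = -P`).
-/

set_option linter.unusedSectionVars false

namespace Pool.Agent.Helper21.TO

open VC VF Function Polynomial
open Pool.Agent.Helper51.EW (Wei WPt aff zeroPt)

universe u

variable {k : Type u} [Field k] [IsAlgClosed k] [CharZero k] {W : Wei k} {L : Type u} [Field L]
  [Algebra k L]

private lemma mk_congr {F : Type*} [Field F] {a b x y x' y' : F}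
    {h : (sw a b).toAffine.Nonsingular x y} {h' : (sw a b).toAffine.Nonsingular x' y'}
    (hx : x = x') (hy : y = y') : EPt.mk x y h = EPt.mk x' y' h' := by
  subst hx
  subst hy
  rfl

private lemma mk_neg {F : Type*} [Field F] {a b x y x' y' : F}
    {h : (sw a b).toAffine.Nonsingular x y} {h' : (sw a b).toAffine.Nonsingular x' y'}
    (hx : x = x') (hy : y = -y') : EPt.mk x y h = -EPt.mk x' y' h' := by
  rw [WeierstrassCurve.Affine.Point.neg_some]
  apply mk_congr hx
  rw [hy]
  unfold WeierstrassCurve.Affine.negY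
  simp

/-- If two points have the same second coordinate and the third point on the line is given. -/
private lemma add_horiz {F : Type*} [Field F] {a b x₁ x₂ x₃ y : F}
    {h₁ : (sw a b).toAffine.Nonsingular x₁ y} {h₂ : (sw a b).toAffine.Nonsingular x₂ y}
    {h₃ : (sw a b).toAffine.Nonsingular x₃ y} (hx : x₁ ≠ x₂) (h : x₁ + x₂ + x₃ = 0) :
    EPt.mk x₁ y h₁ + EPt.mk x₂ y h₂ = -EPt.mk x₃ y h₃ := by
  have hs : (sw a b).toAffine.slope x₁ x₂ y y = 0 := by
    rw [WeierstrassCurve.Affine.slope_of_X_ne hx, sub_self, zero_div]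
  have hX : (sw a b).toAffine.addX x₁ x₂ ((sw a b).toAffine.slope x₁ x₂ y y) = x₃ := by
    rw [hs]
    unfold WeierstrassCurve.Affine.addX
    simp only [zero_pow (two_ne_zero), mul_zero, add_zero]
    linear_combination -h
  have hY : (sw a b).toAffine.negAddY x₁ x₂ y ((sw a b).toAffine.slope x₁ x₂ y y) = y := by
    rw [hs]
    unfold WeierstrassCurve.Affine.negAddY
    rw [zero_mul, zero_add]
  have h1 := WeierstrassCurve.Affine.Point.add_of_X_ne' (W := (sw a b).toAffine) (h₁ := h₁)
    (h₂ := h₂) hx
  refine h1.trans ?_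
  congr 1
  exact mk_congr hX hY

/-- Tripling a point with first coordinate zero. -/
private lemma add_self_zero {F : Type*} [Field F] [CharZero F] {b y : F} (hy : y ≠ 0)
    {h₁ : (sw 0 b).toAffine.Nonsingular 0 y} :
    EPt.mk 0 y h₁ + EPt.mk 0 y h₁ = -EPt.mk 0 y h₁ := by
  have hne : y ≠ (sw 0 b).toAffine.negY 0 y := by
    intro h0
    apply hy
    have h2 : (sw (0 : F) b).toAffine.negY 0 y = -y := by
      unfold WeierstrassCurve.Affine.negY
      simp
    rw [h2] at h0
    have h5 : (2 : F) * y = 0 := by linear_combination h0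
    exact (mul_eq_zero.mp h5).resolve_left two_ne_zero
  have hs : (sw 0 b).toAffine.slope 0 0 y y = 0 := by
    rw [WeierstrassCurve.Affine.slope_of_Y_ne rfl hne]
    simp
  have hX : (sw 0 b).toAffine.addX 0 0 ((sw 0 b).toAffine.slope 0 0 y y) = 0 := by
    rw [hs]
    unfold WeierstrassCurve.Affine.addX
    simp
  have hY : (sw 0 b).toAffine.negAddY 0 0 y ((sw 0 b).toAffine.slope 0 0 y y) = y := by
    rw [hs]
    unfold WeierstrassCurve.Affine.negAddY
    rw [zero_mul, zero_add]
  have h1 := WeierstrassCurve.Affine.Point.add_self_of_Y_ne' (W := (sw 0 b).toAffine) (h₁ := h₁)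
    hne
  refine h1.trans ?_
  congr 1
  exact mk_congr hX hY

theorem psi_zero_of_scale {At Bt : k} (hΔ : 4 * At ^ 3 + 27 * Bt ^ 2 ≠ 0) {c : k} (hc : c ≠ 0)
    (h1 : c ≠ 1) (hA : At = c ^ 4 * At) (hB : Bt = c ^ 6 * Bt) (ψ : EPt At Bt →+ k)
    (h : ∀ a, ψ (scF c hc hA hB a) = ψ a) (a : EPt At Bt) : ψ a = 0 := by
  have two : ∀ z : k, z = -z → z = 0 := by
    intro z hz
    have h5 : (2 : k) * z = 0 := by linear_combination hz
    exact (mul_eq_zero.mp h5).resolve_left two_ne_zero
  match a with
  | .zero => exact map_zero ψ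
  | .some x y hxy =>
    -- one, two and three applications of the scaling
    have s1 : scF c hc hA hB (EPt.mk x y hxy) =
        EPt.mk (c ^ 2 * x) (c ^ 3 * y) (nonsingular_scale hc hA hB hxy) := rfl
    have s2 : scF c hc hA hB (scF c hc hA hB (EPt.mk x y hxy)) =
        EPt.mk (c ^ 2 * (c ^ 2 * x)) (c ^ 3 * (c ^ 3 * y))
          (nonsingular_scale hc hA hB (nonsingular_scale hc hA hB hxy)) := rfl
    have s3 : scF c hc hA hB (scF c hc hA hB (scF c hc hA hB (EPt.mk x y hxy))) =
        EPt.mk (c ^ 2 * (c ^ 2 * (c ^ 2 * x))) (c ^ 3 * (c ^ 3 * (c ^ 3 * y)))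
          (nonsingular_scale hc hA hB (nonsingular_scale hc hA hB
            (nonsingular_scale hc hA hB hxy))) := rfl
    have p1 := h (EPt.mk x y hxy)
    have p2 := h (scF c hc hA hB (EPt.mk x y hxy))
    have p3 := h (scF c hc hA hB (scF c hc hA hB (EPt.mk x y hxy)))
    rw [p1] at p2
    rw [p2] at p3
    by_cases hAt : At = 0
    · have hBt : Bt ≠ 0 := by
        rintro rfl
        apply hΔ
        rw [hAt]
        ring
      have c6 : c ^ 6 = 1 := by
        have : (c ^ 6 - 1) * Bt = 0 := by linear_combination -hB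
        exact sub_eq_zero.mp ((mul_eq_zero.mp this).resolve_right hBt)
      have c33 : (c ^ 3 - 1) * (c ^ 3 + 1) = 0 := by linear_combination c6
      rcases mul_eq_zero.mp c33 with c3 | c3
      · have c3' : c ^ 3 = 1 := sub_eq_zero.mp c3
        have c2 : 1 + c + c ^ 2 = 0 := by
          have : (c - 1) * (1 + c + c ^ 2) = 0 := by linear_combination c3'
          exact (mul_eq_zero.mp this).resolve_left (sub_ne_zero.mpr h1)
        subst hAt
        by_cases hx : x = 0
        · subst hx
          have hy : y ≠ 0 := by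
            rintro rfl
            have := (sw_nonsingular.mp hxy).1
            apply hBt
            linear_combination -this
          have e1 := congrArg ψ (add_self_zero (b := Bt) hy (h₁ := hxy))
          rw [map_add, map_neg] at e1
          have h5 : (3 : k) * ψ (EPt.mk 0 y hxy) = 0 := by linear_combination e1
          exact (mul_eq_zero.mp h5).resolve_left three_ne_zero
        · have hy' : c ^ 3 * y = y := by rw [c3', one_mul]
          have hn : (sw 0 Bt).toAffine.Nonsingular (c ^ 2 * x) y := by
            have := nonsingular_scale hc hA hB hxy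
            rwa [hy'] at this
          have hn2 : (sw 0 Bt).toAffine.Nonsingular (c ^ 2 * (c ^ 2 * x)) y := by
            have := nonsingular_scale hc hA hB hn
            rwa [hy'] at this
          have q1 : EPt.mk (c ^ 2 * x) (c ^ 3 * y) (nonsingular_scale hc hA hB hxy) =
              EPt.mk (c ^ 2 * x) y hn := mk_congr rfl hy'
          have q2 : EPt.mk (c ^ 2 * (c ^ 2 * x)) (c ^ 3 * (c ^ 3 * y))
              (nonsingular_scale hc hA hB (nonsingular_scale hc hA hB hxy)) =
              EPt.mk (c ^ 2 * (c ^ 2 * x)) y hn2 := mk_congr rfl (by rw [hy', hy'])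
          have hne : x ≠ c ^ 2 * x := by
            intro h0
            have h6 : (c ^ 2 - 1) * x = 0 := by linear_combination -h0
            have h7 : c ^ 2 = 1 := sub_eq_zero.mp ((mul_eq_zero.mp h6).resolve_right hx)
            apply h1
            have : c ^ 3 = c * c ^ 2 := by ring
            rw [c3', h7, mul_one] at this
            exact this.symm
          have e1 := congrArg ψ (add_horiz (h₁ := hxy) (h₂ := hn) (h₃ := hn2) hne (by
            linear_combination x * c2 + x * c * c3'))
          rw [map_add, map_neg, ← q1, ← q2, ← s2, ← s1, p1, p2] at e1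
          have h5 : (3 : k) * ψ (EPt.mk x y hxy) = 0 := by linear_combination e1
          exact (mul_eq_zero.mp h5).resolve_left three_ne_zero
      · have c3' : c ^ 3 = -1 := by linear_combination c3
        have e1 : EPt.mk (c ^ 2 * (c ^ 2 * (c ^ 2 * x))) (c ^ 3 * (c ^ 3 * (c ^ 3 * y)))
          (nonsingular_scale hc hA hB (nonsingular_scale hc hA hB
            (nonsingular_scale hc hA hB hxy))) = -EPt.mk x y hxy := by
          apply mk_neg
          · linear_combination x * c6
          · rw [c3']; ring
        rw [s3, e1, map_neg] at p3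
        exact two _ p3.symm
    · have c4 : c ^ 4 = 1 := by
        have : (c ^ 4 - 1) * At = 0 := by linear_combination -hA
        exact sub_eq_zero.mp ((mul_eq_zero.mp this).resolve_right hAt)
      have c22 : (c ^ 2 - 1) * (c ^ 2 + 1) = 0 := by linear_combination c4
      rcases mul_eq_zero.mp c22 with c2 | c2
      · have c2' : (c - 1) * (c + 1) = 0 := by linear_combination c2
        have hc1 : c = -1 := by
          have := (mul_eq_zero.mp c2').resolve_left (sub_ne_zero.mpr h1)
          linear_combination this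
        have e1 : EPt.mk (c ^ 2 * x) (c ^ 3 * y) (nonsingular_scale hc hA hB hxy) =
            -EPt.mk x y hxy := by
          apply mk_neg
          · rw [hc1]; ring
          · rw [hc1]; ring
        rw [s1, e1, map_neg] at p1
        exact two _ p1.symm
      · have c2' : c ^ 2 = -1 := by linear_combination c2
        have e1 : EPt.mk (c ^ 2 * (c ^ 2 * x)) (c ^ 3 * (c ^ 3 * y))
          (nonsingular_scale hc hA hB (nonsingular_scale hc hA hB hxy)) = -EPt.mk x y hxy := by
          apply mk_neg
          · rw [c2']; ring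
          · have : c ^ 3 = c * c ^ 2 := by ring
            rw [this, c2']
            linear_combination y * c2'
        rw [s2, e1, map_neg] at p2
        exact two _ p2.symm

end Pool.Agent.Helper21.TO
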