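import Mathlib
import Pool.Agent.Helper9.NS
import Pool.Agent.Helper21.TO.Defs

/-!
# Block TO-PolyDvd: polynomials vanishing at the generic point
Divide: `F = (Y ^ 2 - C f) G + (C A1 * Y + C A0)` (`Polynomial.modByMonic`, `degree < 2`). Evaluate at
`x`, `y`: `A1 (x) y + A0 (x) = 0` in `Ω`. If `A1 ≠ 0` then `y = - A0 (x) / A1 (x)`, so
`A0 (x) ^ 2 = A1 (x) ^ 2 (x ^ 3 + a x + b)`, hence `A0 ^ 2 = A1 ^ 2 (X ^ 3 + C a X + C b)` in `L[X]` (as
`x` is transcendental), and the degrees have different parity. So `A1 = 0`, `A0 = 0`.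
`poly_zero` is the consequence by evaluation at a point of the curve over another field.
-/

set_option linter.unusedSectionVars false

namespace Pool.Agent.Helper21.TO

open VC VF Function Polynomial
open Pool.Agent.Helper51.EW (Wei WPt aff zeroPt)

universe u

private lemma eval_curve {L Ω : Type u} [Field L] [Field Ω] (f : L →+* Ω) (a b : L) (x y : Ω)
    (he : y ^ 2 = x ^ 3 + f a * x + f b) :
    (X ^ 2 - C (X ^ 3 + C a * X + C b) : L[X][X]).eval₂ (eval₂RingHom f x) y = 0 := by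
  rw [eval₂_sub, eval₂_X_pow, eval₂_C, coe_eval₂RingHom, eval₂_add, eval₂_add, eval₂_mul,
    eval₂_X_pow, eval₂_C, eval₂_C, eval₂_X, he, sub_self]

theorem poly_dvd {L Ω : Type u} [Field L] [Field Ω] (f : L →+* Ω) (a b : L) (x y : Ω)
    (hx : ∀ g : L[X], g ≠ 0 → g.eval₂ f x ≠ 0) (he : y ^ 2 = x ^ 3 + f a * x + f b)
    (F : L[X][X]) (hF : F.eval₂ (eval₂RingHom f x) y = 0) :
    (X ^ 2 - C (X ^ 3 + C a * X + C b) : L[X][X]) ∣ F := by
  set q : L[X] := X ^ 3 + C a * X + C b with hq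
  set M : L[X][X] := X ^ 2 - C q with hM
  have hMm : M.Monic := monic_X_pow_sub_C q two_ne_zero
  rw [← modByMonic_eq_zero_iff_dvd hMm]
  have hdeg : (F %ₘ M).degree < M.degree := degree_modByMonic_lt F hMm
  have hMd : M.degree = 2 := degree_X_pow_sub_C (by norm_num) q
  rw [hMd] at hdeg
  have hr1 : (F %ₘ M).degree ≤ 1 := by
    have h2 : ((2 : ℕ) : WithBot ℕ) = 2 := rfl
    rw [← h2] at hdeg
    exact Order.lt_succ_iff.mp hdeg
  have hr := eq_X_add_C_of_degree_le_one hr1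
  set A1 := (F %ₘ M).coeff 1 with hA1
  set A0 := (F %ₘ M).coeff 0 with hA0
  have hM0 : M.eval₂ (eval₂RingHom f x) y = 0 := eval_curve f a b x y he
  have h0 : (F %ₘ M).eval₂ (eval₂RingHom f x) y = 0 := by
    have h1 := congrArg (fun p : L[X][X] => p.eval₂ (eval₂RingHom f x) y)
      (modByMonic_add_div F M)
    simp only [eval₂_add, eval₂_mul, hM0, zero_mul, add_zero, hF] at h1
    exact h1
  have key : A1.eval₂ f x * y + A0.eval₂ f x = 0 := by
    rw [hr, eval₂_add, eval₂_mul, eval₂_C, eval₂_C, eval₂_X, coe_eval₂RingHom] at h0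
    exact h0
  have hz : ∀ g : L[X], g.eval₂ f x = 0 → g = 0 := fun g hg => by
    by_contra h
    exact hx g h hg
  have hqx : q.eval₂ f x = y ^ 2 := by
    rw [hq, eval₂_add, eval₂_add, eval₂_mul, eval₂_X_pow, eval₂_C, eval₂_C, eval₂_X, he]
  have hA10 : A1 = 0 := by
    by_contra hne
    have e1 : A0 ^ 2 - A1 ^ 2 * q = 0 := by
      apply hz
      rw [eval₂_sub, eval₂_mul, eval₂_pow, eval₂_pow, hqx]
      linear_combination (A0.eval₂ f x - A1.eval₂ f x * y) * key
    have e2 : A0 ^ 2 = A1 ^ 2 * q := sub_eq_zero.mp e1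
    have hq3 : q.natDegree = 3 := by rw [hq]; compute_degree!
    have hq0 : q ≠ 0 := by
      intro h
      rw [h] at hq3
      simp at hq3
    have e3 := congrArg natDegree e2
    rw [natDegree_pow, natDegree_mul (pow_ne_zero 2 hne) hq0, natDegree_pow, hq3] at e3
    omega
  rw [hA10, eval₂_zero, zero_mul, zero_add] at key
  rw [hr, hA10, hz _ key]
  simp

theorem poly_zero {L Ω K : Type u} [Field L] [Field Ω] [Field K] (f : L →+* Ω) (a b : L)
    (x y : Ω) (hx : ∀ g : L[X], g ≠ 0 → g.eval₂ f x ≠ 0)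
    (he : y ^ 2 = x ^ 3 + f a * x + f b) (F : L[X][X])
    (hF : F.eval₂ (eval₂RingHom f x) y = 0) (g : L →+* K) (x1 y1 : K)
    (h1 : y1 ^ 2 = x1 ^ 3 + g a * x1 + g b) : F.eval₂ (eval₂RingHom g x1) y1 = 0 := by
  obtain ⟨G, rfl⟩ := poly_dvd f a b x y hx he F hF
  rw [eval₂_mul, eval_curve g a b x1 y1 h1, zero_mul]

end Pool.Agent.Helper21.TO
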