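import Mathlib
import Pool.Agent.Helper9.NS
import Pool.Agent.Helper21.TO.Defs
import Pool.Agent.Helper21.TO.Defs2

/-!
# Block TO-BaseFacts: the projective line
Elementary facts. `exists_base`: `t` or `1 / t` is regular at `v`; take the residue (if `t` is
regular), otherwise `1 / t` is a nonunit. `base_res`: an element of `k⟮t⟯` is `p (t) / q (t)` with
polynomials `p`, `q` (`IntermediateField.mem_adjoin_simple_iff` or similar). Case `c 0 = 1`: dividing out
powers of `X - C (c 1)` write `z = (t - c 1) ^ n * p1 (t) / q1 (t)`, `n : ℤ`, `p1 (c 1), q1 (c 1) ≠ 0`: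
this is `base_ord` (`locp = t - c 1`; `p1 (t)`, `q1 (t)` have the nonzero residues `p1 (c 1)`,
`q1 (c 1)` at `v`, so their orders are `0`). Case `c 0 = 0`: the same with `t⁻¹` in place of `t - c 1`:
`p (t) = t ^ deg p * (p reversed) (t⁻¹)`. `base_res`: `z = locp ^ n * u (rational in t, with a value
independent of the place)`: at `v` regular, so `n ≥ 0`, and the residue is `0` if `n > 0` and `u (c)`
if `n = 0`, the same at `v'`. `ord_locp`: `locp` is a nonzero nonunit at `v`
(`VC.ord_pos_iff`). `exists_over_base`: a place `v` with `t - c 1` (resp. `1 / t`) a nonunit: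
`VC.exists_place` for this transcendental element.
-/

set_option linter.unusedSectionVars false

namespace Pool.Agent.Helper21.TO

open VC VF Function Polynomial
open Pool.Agent.Helper51.EW (Wei WPt aff zeroPt)

universe u

variable {k : Type u} [Field k] [IsAlgClosed k] [CharZero k] {W : Wei k} {L : Type u} [Field L]
  [Algebra k L]

/-! ### Helpers -/

lemma bf_t_ne (D : Dat W L) : D.t ≠ 0 := by
  intro h
  apply D.ht
  rw [h]
  exact isAlgebraic_zero

lemma bf_tr_sub (D : Dat W L) (a : k) : Transcendental k (D.t - algebraMap k L a) := by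
  intro h
  apply D.ht
  have h1 := h.add (isAlgebraic_algebraMap a)
  rwa [sub_add_cancel] at h1

lemma bf_tr_inv (D : Dat W L) : Transcendental k D.t⁻¹ := by
  intro h
  apply D.ht
  have h1 := h.inv
  rwa [inv_inv] at h1

lemma bf_res_inv {K : Type u} [Field K] [Algebra k K] {v : Place k K} {x : K} {c : k}
    (h : IsRes v x c) (hc : c ≠ 0) : IsRes v x⁻¹ c⁻¹ := by
  obtain ⟨h0, h1⟩ := h.inv_mem hc
  have h2 : x⁻¹ - algebraMap k K c⁻¹ =
      (-(x⁻¹ * algebraMap k K c⁻¹)) * (x - algebraMap k K c) := by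
    have hc' : algebraMap k K c ≠ 0 := (_root_.map_ne_zero _).mpr hc
    rw [map_inv₀]
    field_simp
    ring
  unfold IsRes
  rw [h2]
  exact nonunits_mul (v.ring.neg_mem _ (v.ring.mul_mem _ _ h1 (v.algebraMap_mem _))) h

/-- Rational functions which are regular at a place. -/
lemma bf_rep {K : Type u} [Field K] [Algebra k K] {v : Place k K} {x : K} {a : k}
    (hx : Transcendental k x) (h : IsRes v x a) {z : K}
    (hz : z ∈ IntermediateField.adjoin k {x}) (hzv : z ∈ v.ring) :
    ∃ r s : k[X], s.eval a ≠ 0 ∧ z = aeval x r / aeval x s := by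
  by_cases hz0 : z = 0
  · exact ⟨0, 1, by simp, by simp [hz0]⟩
  obtain ⟨r, s, e⟩ := (IntermediateField.mem_adjoin_simple_iff _ _).1 hz
  have hs0 : s ≠ 0 := by
    rintro rfl
    apply hz0
    rw [e, map_zero, div_zero]
  obtain ⟨r', hr'⟩ := EuclideanDomain.gcd_dvd_left r s
  obtain ⟨s', hs'⟩ := EuclideanDomain.gcd_dvd_right r s
  obtain ⟨g, hg⟩ : ∃ g, g = EuclideanDomain.gcd r s := ⟨_, rfl⟩
  have hgc := EuclideanDomain.gcd_eq_gcd_ab r s
  rw [← hg] at hr' hs' hgc
  have hg0 : g ≠ 0 := by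
    rintro rfl
    rw [zero_mul] at hs'
    exact hs0 hs'
  have hcop : 1 = r' * EuclideanDomain.gcdA r s + s' * EuclideanDomain.gcdB r s := by
    apply mul_left_cancel₀ hg0
    rw [mul_one, mul_add, ← mul_assoc, ← mul_assoc, ← hr', ← hs']
    exact hgc
  have hgx : aeval x g ≠ 0 := fun h0 => hg0 ((transcendental_iff.mp hx) g h0)
  have e' : z = aeval x r' / aeval x s' := by
    rw [e]
    conv_lhs => rw [hr', hs']
    rw [map_mul, map_mul, mul_div_mul_left _ _ hgx]
  refine ⟨r', s', ?_, e'⟩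
  intro hsa
  have hra : r'.eval a ≠ 0 := by
    intro hra
    have h1 := congrArg (Polynomial.eval a) hcop
    rw [eval_one, eval_add, eval_mul, eval_mul, hra, hsa, zero_mul, zero_mul, add_zero] at h1
    exact one_ne_zero h1
  have h1 : IsRes v z⁻¹ 0 := by
    have h2 := (h.poly (p := s')).mul (bf_res_inv (h.poly (p := r')) hra)
    rw [hsa, zero_mul] at h2
    rw [e', inv_div, div_eq_mul_inv]
    exact h2
  have h2 := nonunits_mul hzv (isRes_zero_iff.mp h1)
  rw [mul_inv_cancel₀ hz0] at h2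
  exact one_notMem h2

lemma bf_ord_aeval {K : Type u} [Field K] [Algebra k K] (hK : IsFunctionField k K) (t : K) (a : k) (v : Place k K)
    (hv : t - algebraMap k K a ∈ v.ring.nonunits) (ht : Transcendental k t) (r : k[X])
    (hr : r ≠ 0) :
    ord v.ring (aeval t r) = r.rootMultiplicity a * ord v.ring (t - algebraMap k K a) := by
  have hta : t - algebraMap k K a ≠ 0 := by
    intro h0
    rw [sub_eq_zero] at h0
    rw [h0] at ht
    exact ht (isAlgebraic_algebraMap a)
  have hinj : ∀ p : k[X], p ≠ 0 → aeval t p ≠ 0 := by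
    intro p hp h0
    exact hp ((transcendental_iff.mp ht) p h0)
  obtain ⟨q, hq, hq'⟩ := Polynomial.exists_eq_pow_rootMultiplicity_mul_and_not_dvd r hr a
  have hqa : q.eval a ≠ 0 := by
    intro h0
    exact hq' (Polynomial.dvd_iff_isRoot.mpr h0)
  have hq0 : q ≠ 0 := by
    rintro rfl
    exact hq' (dvd_zero _)
  obtain ⟨s, hs⟩ := Polynomial.X_sub_C_dvd_sub_C_eval (p := q) (a := a)
  have e1 : aeval t q = algebraMap k K (q.eval a) + (t - algebraMap k K a) * aeval t s := by
    have h1 := congrArg (aeval t) hs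
    rw [map_sub, map_mul, map_sub, aeval_X, aeval_C, aeval_C] at h1
    rw [← h1]
    ring
  have htr : t ∈ v.ring := by
    have h1 := v.ring.add_mem _ _ (ValuationSubring.nonunits_subset hv) (v.algebraMap_mem a)
    rwa [sub_add_cancel] at h1
  have hpoly : ∀ p : k[X], aeval t p ∈ v.ring := by
    intro p
    induction p using Polynomial.induction_on with
    | C a => rw [aeval_C]; exact v.algebraMap_mem a
    | add p q hp hq => rw [map_add]; exact v.ring.add_mem _ _ hp hq
    | monomial n a ih =>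
      rw [pow_succ, ← mul_assoc, map_mul, aeval_X]
      exact v.ring.mul_mem _ _ ih htr
  have hta' := (VC.ord_pos_iff hK v hta).mpr hv
  have e2 : ord v.ring (aeval t q) = 0 := by
    rw [e1]
    by_cases hs0 : s = 0
    · rw [hs0, map_zero, mul_zero, add_zero]
      exact VC.ord_algebraMap hK v hqa
    · have hs1 := hinj s hs0
      have h2 : 0 ≤ ord v.ring (aeval t s) := (VC.ord_nonneg_iff hK v hs1).mpr (hpoly s)
      have h3 : ord v.ring ((t - algebraMap k K a) * aeval t s) =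
          ord v.ring (t - algebraMap k K a) + ord v.ring (aeval t s) := VC.ord_mul hK v hta hs1
      have h4 := VC.ord_algebraMap hK v hqa
      obtain ⟨_, h5⟩ := VP.ord_add_eq hK v ((_root_.map_ne_zero (algebraMap k K)).mpr hqa)
        (mul_ne_zero hta hs1) (by rw [h4, h3]; omega)
      rw [h5, h4, h3]
      apply min_eq_left
      omega
  conv_lhs => rw [hq]
  rw [map_mul, map_pow, map_sub, aeval_X, aeval_C, VC.ord_mul hK v (pow_ne_zero _ hta)
    (hinj q hq0), VP.ord_pow hK v hta, e2, add_zero]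

/-- A good coordinate on the base. -/
lemma bf_coord {D : Dat W L} {v : Place k L} {l : L} {c : Fin 2 → k} (hb : Base D v l c) :
    ∃ (x : L) (a : k), Transcendental k x ∧ locp D c = x - algebraMap k L a ∧
      IntermediateField.adjoin k {D.t} ≤ IntermediateField.adjoin k {x} ∧
      ∀ (v' : Place k L) (l' : L), Base D v' l' c → IsRes v' x a := by
  rcases hb with ⟨h1, h2, h3⟩ | ⟨h1, h2, h3, h4⟩
  · refine ⟨D.t, c 1, D.ht, ?_, le_refl _, ?_⟩
    · unfold locp
      rw [if_neg (by rw [h2]; exact one_ne_zero)]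
    · rintro v' l' (⟨g1, g2, g3⟩ | ⟨g1, g2, g3, g4⟩)
      · exact g3
      · rw [h2] at g2
        exact absurd g2 one_ne_zero
  · refine ⟨D.t⁻¹, 0, bf_tr_inv D, ?_, ?_, ?_⟩
    · unfold locp
      rw [if_pos h2, map_zero, sub_zero]
    · rw [IntermediateField.adjoin_simple_le_iff]
      have h5 := inv_mem (IntermediateField.mem_adjoin_simple_self k D.t⁻¹)
      rwa [inv_inv] at h5
    · rintro v' l' (⟨g1, g2, g3⟩ | ⟨g1, g2, g3, g4⟩)
      · rw [h2] at g2
        exact absurd g2 zero_ne_one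
      · exact g4

theorem exists_base (D : Dat W L) (v : Place k L) : ∃ l c, Base D v l c := by
  by_cases ht : D.t ∈ v.ring
  · obtain ⟨d, hd⟩ := exists_res D.hL ht
    exact ⟨1, ![1, d], Or.inl ⟨rfl, rfl, hd⟩⟩
  · refine ⟨D.t⁻¹, ![0, 1], Or.inr ⟨rfl, rfl, rfl, ?_⟩⟩
    rw [isRes_zero_iff, ValuationSubring.mem_nonunits_iff_or]
    right
    rwa [inv_inv]

theorem exists_over_base (D : Dat W L) (c : Fin 2 → k)
    (hc : c 0 = 1 ∨ (c 0 = 0 ∧ c 1 = 1)) : ∃ v l, Base D v l c := by
  rcases hc with hc | ⟨hc, hc'⟩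
  · obtain ⟨v, hv⟩ := VC.exists_place D.hL (bf_tr_sub D (c 1))
    exact ⟨v, 1, Or.inl ⟨rfl, hc, hv⟩⟩
  · obtain ⟨v, hv⟩ := VC.exists_place D.hL (bf_tr_inv D)
    exact ⟨v, D.t⁻¹, Or.inr ⟨rfl, hc, hc', isRes_zero_iff.mpr hv⟩⟩

theorem Base.c_ne {D : Dat W L} {v : Place k L} {l : L} {c : Fin 2 → k} (hb : Base D v l c) :
    c ≠ 0 := by
  rintro rfl
  rcases hb with ⟨_, h2, _⟩ | ⟨_, _, h3, _⟩
  · exact zero_ne_one h2
  · exact zero_ne_one h3

theorem Base.l_ne {D : Dat W L} {v : Place k L} {l : L} {c : Fin 2 → k} (hb : Base D v l c) :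
    l ≠ 0 := by
  rcases hb with ⟨rfl, _, _⟩ | ⟨rfl, _, _, _⟩
  · exact one_ne_zero
  · exact inv_ne_zero (bf_t_ne D)

theorem Base.res {D : Dat W L} {v : Place k L} {l : L} {c : Fin 2 → k} (hb : Base D v l c)
    (i : Fin 2) : IsRes v (l * (![1, D.t] : Fin 2 → L) i) (c i) := by
  rcases hb with ⟨rfl, h2, h3⟩ | ⟨rfl, h2, h3, h4⟩
  · fin_cases i
    · change IsRes v (1 * 1) (c 0)
      rw [mul_one, h2]
      exact isRes_one
    · change IsRes v (1 * D.t) (c 1)
      rw [one_mul]
      exact h3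
  · fin_cases i
    · change IsRes v (D.t⁻¹ * 1) (c 0)
      rw [mul_one, h2]
      exact h4
    · change IsRes v (D.t⁻¹ * D.t) (c 1)
      rw [inv_mul_cancel₀ (bf_t_ne D), h3]
      exact isRes_one

theorem Base.l_eq {D : Dat W L} {v v' : Place k L} {l l' : L} {c : Fin 2 → k}
    (hb : Base D v l c) (hb' : Base D v' l' c) : l = l' := by
  rcases hb with ⟨rfl, h2, _⟩ | ⟨rfl, h2, _, _⟩
  · rcases hb' with ⟨rfl, _, _⟩ | ⟨_, g2, _, _⟩
    · rfl
    · rw [h2] at g2
      exact absurd g2 one_ne_zero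
  · rcases hb' with ⟨_, g2, _⟩ | ⟨rfl, _, _, _⟩
    · rw [h2] at g2
      exact absurd g2 zero_ne_one
    · rfl

theorem Base.unique {D : Dat W L} {v : Place k L} {l l' : L} {c c' : Fin 2 → k}
    (hb : Base D v l c) (hb' : Base D v l' c') : l = l' ∧ c = c' := by
  rcases hb with ⟨rfl, h2, h3⟩ | ⟨rfl, h2, h3, h4⟩
  · rcases hb' with ⟨rfl, g2, g3⟩ | ⟨_, _, _, g4⟩
    · refine ⟨rfl, ?_⟩
      funext i
      fin_cases i
      · exact h2.trans g2.symm
      · exact h3.unique g3
    · exfalso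
      have h5 := h3.mul g4
      rw [mul_inv_cancel₀ (bf_t_ne D), mul_zero] at h5
      exact one_ne_zero (isRes_one.unique h5)
  · rcases hb' with ⟨_, _, g3⟩ | ⟨rfl, g2, g3, _⟩
    · exfalso
      have h5 := g3.mul h4
      rw [mul_inv_cancel₀ (bf_t_ne D), mul_zero] at h5
      exact one_ne_zero (isRes_one.unique h5)
    · refine ⟨rfl, ?_⟩
      funext i
      fin_cases i
      · exact h2.trans g2.symm
      · exact h3.trans g3.symm

theorem Base.fix {D : Dat W L} {v : Place k L} {l : L} {c : Fin 2 → k} (hb : Base D v l c)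
    {τ : L ≃ₐ[k] L} (hτ : τ D.t = D.t) : τ l = l := by
  rcases hb with ⟨rfl, _, _⟩ | ⟨rfl, _, _, _⟩
  · exact map_one τ
  · rw [map_inv₀, hτ]

/-- Two normalised proportional vectors are equal. -/
theorem Base.eq_of_smul {D : Dat W L} {v v' : Place k L} {l l' : L} {c c' : Fin 2 → k}
    (hb : Base D v l c) (hb' : Base D v' l' c') {μ : k} (h : ∀ i, c' i = μ * c i) :
    c = c' := by
  have e0 := h 0
  have e1 := h 1
  rcases hb with ⟨_, h2, _⟩ | ⟨_, h2, h3, _⟩
  · rcases hb' with ⟨_, g2, _⟩ | ⟨_, g2, g3, _⟩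
    · rw [h2, g2, mul_one] at e0
      rw [← e0, one_mul] at e1
      funext i
      fin_cases i
      · exact h2.trans g2.symm
      · exact e1.symm
    · exfalso
      rw [h2, g2, mul_one] at e0
      rw [← e0, zero_mul, g3] at e1
      exact one_ne_zero e1
  · rcases hb' with ⟨_, g2, _⟩ | ⟨_, g2, g3, _⟩
    · exfalso
      rw [h2, g2, mul_zero] at e0
      exact one_ne_zero e0
    · funext i
      fin_cases i
      · exact h2.trans g2.symm
      · exact h3.trans g3.symm

theorem Base.scale {D : Dat W L} {v : Place k L} {l : L} {c : Fin 2 → k} (hb : Base D v l c) :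
    l ^ W.N ≠ 0 ∧ IsRes v ((l ^ W.N) ^ 4 * D.a) (MvPolynomial.aeval c W.A) ∧
      IsRes v ((l ^ W.N) ^ 6 * D.b) (MvPolynomial.aeval c W.B) := by
  refine ⟨pow_ne_zero _ hb.l_ne, ?_, ?_⟩
  · have h1 := aeval_smul' W.hA l (![1, D.t] : Fin 2 → L)
    have h2 := isRes_mvaeval (fun i => hb.res i) W.A
    rw [h1] at h2
    rw [← pow_mul, mul_comm W.N 4]
    exact h2
  · have h1 := aeval_smul' W.hB l (![1, D.t] : Fin 2 → L)
    have h2 := isRes_mvaeval (fun i => hb.res i) W.B
    rw [h1] at h2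
    rw [← pow_mul, mul_comm W.N 6]
    exact h2

theorem ord_locp {D : Dat W L} {v : Place k L} {l : L} {c : Fin 2 → k} (hb : Base D v l c) :
    locp D c ≠ 0 ∧ 0 < ord v.ring (locp D c) := by
  obtain ⟨x, a, hx, e, _, h⟩ := bf_coord hb
  have h0 : locp D c ≠ 0 := by
    rw [e]
    intro h1
    rw [sub_eq_zero] at h1
    rw [h1] at hx
    exact hx (isAlgebraic_algebraMap a)
  refine ⟨h0, ?_⟩
  rw [VC.ord_pos_iff D.hL v h0, e]
  exact h v l hb

theorem base_ord {D : Dat W L} {v : Place k L} {l : L} {c : Fin 2 → k} (hb : Base D v l c)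
    {z : L} (hz : z ∈ IntermediateField.adjoin k {D.t}) (h0 : z ≠ 0) :
    ∃ n : ℤ, ord v.ring z = n * ord v.ring (locp D c) := by
  obtain ⟨x, a, hx, e, hle, h⟩ := bf_coord hb
  obtain ⟨r, s, e1⟩ := (IntermediateField.mem_adjoin_simple_iff _ _).1 (hle hz)
  have hr : r ≠ 0 := by
    rintro rfl
    apply h0
    rw [e1, map_zero, zero_div]
  have hs : s ≠ 0 := by
    rintro rfl
    apply h0
    rw [e1, map_zero, div_zero]
  have hr' : aeval x r ≠ 0 := fun h1 => hr ((transcendental_iff.mp hx) r h1)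
  have hs' : aeval x s ≠ 0 := fun h1 => hs ((transcendental_iff.mp hx) s h1)
  have hv := h v l hb
  refine ⟨(r.rootMultiplicity a : ℤ) - s.rootMultiplicity a, ?_⟩
  rw [e, e1, div_eq_mul_inv, VC.ord_mul D.hL v hr' (inv_ne_zero hs'), VC.ord_inv D.hL v hs',
    bf_ord_aeval D.hL x a v hv hx r hr, bf_ord_aeval D.hL x a v hv hx s hs]
  ring

theorem base_res {D : Dat W L} {v v' : Place k L} {l l' : L} {c : Fin 2 → k}
    (hb : Base D v l c) (hb' : Base D v' l' c) {z : L}
    (hz : z ∈ IntermediateField.adjoin k {D.t}) {d : k} (h : IsRes v z d) : IsRes v' z d := by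
  obtain ⟨x, a, hx, e, hle, hres⟩ := bf_coord hb
  obtain ⟨r, s, hs, rfl⟩ := bf_rep hx (hres v l hb) (hle hz) h.mem
  have key : ∀ w : Place k L, IsRes w x a → IsRes w (aeval x r / aeval x s)
      (r.eval a * (s.eval a)⁻¹) := by
    intro w hw
    rw [div_eq_mul_inv]
    exact (hw.poly (p := r)).mul (bf_res_inv (hw.poly (p := s)) hs)
  rw [h.unique (key v (hres v l hb))]
  exact key v' (hres v' l' hb')

end Pool.Agent.Helper21.TO
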