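import Mathlib
import Pool.Agent.Helper9.NS
import Pool.Agent.Helper21.TO.Defs
import Pool.Agent.Helper21.TO.Defs2

/-!
# Block TO-GoodHom: homomorphisms to the ground field give good points
Let `A0 = {z ∈ L | ι0 z ∈ R'}`, a subring of `L` (`Subring.comap`), and `J` the ideal of the `z` with
`χ (ι0 z) = 0`; `1 ∉ J`. By `Ideal.image_subset_nonunits_valuationSubring` there is a valuation ring `V` of
`L` containing `A0` whose nonunits contain `J`. `t - t0 ∈ J`, `t0 = χ (ι0 t)`, is not zero, so `V ≠ ⊤`;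
the constants are in `A0`. So `V` is the ring of a place `v` with `IsRes v z (χ (ι0 z))` for all
`z ∈ A0` (`z - χ (ι0 z) ∈ J`). So `Base D v 1 ![1, t0]`. Let `P i`, `Q i` be the polynomials with the
coefficients `χ (ι0 (coeff))` (`∑ n ≤ natDegree, C _ * X ^ n`), `X0 = χ x`, `Y0 = χ y`. Then
`P_i (X0) + Q_i (X0) Y0 = χ (g i)`, `g = ev ι0 x y` (`eval₂_eq_sum_range`). Since `χ (g j) ≠ 0`, `P j ≠ 0` or
`Q j ≠ 0`: we have a model `m` with scaling `1 ^ N = 1`, `c = 1`. `Y0 ^ 2 = X0 ^ 3 + A (1, t0) X0 + B (1, t0)`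
(apply `χ` to `he`; `a = A (1, t)` is a polynomial in `t`: `EW.isRes_aeval`). `(X0, Y0)` is nonsingular as
`disc ≠ 0` (see the block RedMap, `red_exists`).
-/

set_option linter.unusedSectionVars false

namespace Pool.Agent.Helper21.TO

open VC VF Function Polynomial
open Pool.Agent.Helper51.EW (Wei WPt aff zeroPt)

universe u

variable {k : Type u} [Field k] [IsAlgClosed k] [CharZero k] {W : Wei k} {L : Type u} [Field L]
  [Algebra k L]

omit [IsAlgClosed k] [CharZero k] in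
private lemma red_poly93 {Ω : Type u} [Field Ω] [Algebra k Ω] (ι0 : L →ₐ[k] Ω)
    (R' : Subalgebra k Ω) (χ : R' →ₐ[k] k) (p : L[X]) (hp : ∀ n, ι0 (p.coeff n) ∈ R') :
    ∃ P : k[X], (∀ n, P.coeff n = χ ⟨ι0 (p.coeff n), hp n⟩) ∧
      ∀ (x : Ω) (hx : x ∈ R'), ∃ h : p.eval₂ (ι0 : L →+* Ω) x ∈ R',
        aeval (χ ⟨x, hx⟩) P = χ ⟨p.eval₂ (ι0 : L →+* Ω) x, h⟩ := by
  have h1 : p.map (ι0 : L →+* Ω) ∈ Polynomial.lifts (R'.val : R' →+* Ω) := by
    rw [Polynomial.lifts_iff_coeff_lifts]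
    intro n
    rw [Polynomial.coeff_map]
    exact ⟨⟨ι0 (p.coeff n), hp n⟩, rfl⟩
  obtain ⟨p', hp'⟩ := (Polynomial.mem_lifts _).mp h1
  have hc : ∀ n, p'.coeff n = ⟨ι0 (p.coeff n), hp n⟩ := by
    intro n
    apply Subtype.ext
    have := congrArg (fun q : Polynomial Ω => q.coeff n) hp'
    simp only [Polynomial.coeff_map] at this
    exact this
  refine ⟨p'.map (χ : R' →+* k), fun n => ?_, fun x hx => ?_⟩
  · rw [Polynomial.coeff_map, hc]
    rfl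
  · have h2 : p.eval₂ (ι0 : L →+* Ω) x = ((p'.eval ⟨x, hx⟩ : R') : Ω) := by
      rw [← Polynomial.eval_map, ← hp', Polynomial.eval_map]
      exact Polynomial.eval₂_at_apply (R'.val : R' →+* Ω) (⟨x, hx⟩ : R')
    have h3 : p.eval₂ (ι0 : L →+* Ω) x ∈ R' := by
      rw [h2]
      exact (p'.eval ⟨x, hx⟩ : R').2
    refine ⟨h3, ?_⟩
    have h4 : (⟨p.eval₂ (ι0 : L →+* Ω) x, h3⟩ : R') = p'.eval ⟨x, hx⟩ := Subtype.ext h2
    rw [h4, Polynomial.coe_aeval_eq_eval, Polynomial.eval_map]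
    exact Polynomial.eval₂_at_apply (χ : R' →+* k) (⟨x, hx⟩ : R')

theorem good_of_hom (D : Dat W L) {Ω : Type u} [Field Ω] [Algebra k Ω] (ι0 : L →ₐ[k] Ω)
    (x y : Ω) (he : y ^ 2 = x ^ 3 + ι0 D.a * x + ι0 D.b) (R' : Subalgebra k Ω) (hx : x ∈ R')
    (hy : y ∈ R') (ht : ι0 D.t ∈ R') (hp : ∀ i n, ι0 ((D.p i).coeff n) ∈ R')
    (hq : ∀ i n, ι0 ((D.q i).coeff n) ∈ R') (hg : ∀ i, ev D.p D.q ι0 x y i ∈ R')
    (χ : R' →ₐ[k] k) (j : Fin D.M) (hj : χ ⟨ev D.p D.q ι0 x y j, hg j⟩ ≠ 0)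
    (hd : disc W ![1, χ ⟨ι0 D.t, ht⟩] ≠ 0) :
    ∃ (v : Place k L) (l : L) (_ : Base D v l ![1, χ ⟨ι0 D.t, ht⟩])
      (m : Model D v (l ^ W.N) (MvPolynomial.aeval ![1, χ ⟨ι0 D.t, ht⟩] W.A)
        (MvPolynomial.aeval ![1, χ ⟨ι0 D.t, ht⟩] W.B)) (X0 Y0 : k)
      (_ : (sw (MvPolynomial.aeval ![1, χ ⟨ι0 D.t, ht⟩] W.A)
        (MvPolynomial.aeval ![1, χ ⟨ι0 D.t, ht⟩] W.B)).toAffine.Nonsingular X0 Y0),
      ∀ i, m.evt X0 Y0 i = χ ⟨ev D.p D.q ι0 x y i, hg i⟩ := by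
  classical
  -- the subring and the ideal
  let A0 : Subring L := R'.toSubring.comap (ι0 : L →+* Ω)
  let ρ : A0 →+* R' := (ι0 : L →+* Ω).restrict A0 R' (fun z hz => hz)
  let φ : A0 →+* k := (χ : R' →+* k).comp ρ
  obtain ⟨B, hAB, hJ⟩ := Ideal.image_subset_nonunits_valuationSubring (RingHom.ker φ)
    (RingHom.ker_ne_top φ)
  have hcR : ∀ c : k, ι0 (algebraMap k L c) ∈ R' := by
    intro c
    rw [AlgHom.commutes]
    exact R'.algebraMap_mem c
  have hres0 : ∀ (z : L) (hz : ι0 z ∈ R'),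
      z - algebraMap k L (χ ⟨ι0 z, hz⟩) ∈ B.nonunits := by
    intro z hz
    have hmem : ι0 (z - algebraMap k L (χ ⟨ι0 z, hz⟩)) ∈ R' := by
      rw [map_sub]
      exact R'.sub_mem hz (hcR _)
    refine hJ ⟨⟨z - algebraMap k L (χ ⟨ι0 z, hz⟩), hmem⟩, ?_, rfl⟩
    show φ _ = 0
    have e : ρ ⟨z - algebraMap k L (χ ⟨ι0 z, hz⟩), hmem⟩ =
        (⟨ι0 z, hz⟩ : R') - algebraMap k R' (χ ⟨ι0 z, hz⟩) := by
      apply Subtype.ext
      show ι0 (z - algebraMap k L (χ ⟨ι0 z, hz⟩)) = ι0 z - algebraMap k Ω (χ ⟨ι0 z, hz⟩)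
      rw [map_sub, AlgHom.commutes]
    show χ (ρ ⟨z - algebraMap k L (χ ⟨ι0 z, hz⟩), hmem⟩) = 0
    rw [e, map_sub, AlgHom.commutes]
    exact sub_self _
  let v : Place k L := {
    ring := B
    algebraMap_mem := fun c => hAB (hcR c)
    ne_top := by
      intro h
      have h1 := hres0 D.t ht
      rw [ValuationSubring.mem_nonunits_iff_or, h] at h1
      rcases h1 with h1 | h1
      · apply D.ht
        have h2 : D.t = algebraMap k L (χ ⟨ι0 D.t, ht⟩) := sub_eq_zero.mp h1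
        rw [h2]
        exact isAlgebraic_algebraMap _
      · exact h1 trivial }
  have hres : ∀ (z : L) (hz : ι0 z ∈ R'), IsRes v z (χ ⟨ι0 z, hz⟩) := hres0
  have hbase : Base D v 1 ![1, χ ⟨ι0 D.t, ht⟩] := Or.inl ⟨rfl, rfl, hres D.t ht⟩
  have hu : ∀ i, IsRes v ((![1, D.t] : Fin 2 → L) i)
      ((![1, χ ⟨ι0 D.t, ht⟩] : Fin 2 → k) i) := by
    intro i
    fin_cases i
    · exact isRes_one
    · exact hres D.t ht
  -- the reductions of the polynomials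
  choose P hPc hPe using fun i => red_poly93 ι0 R' χ (D.p i) (hp i)
  choose Q hQc hQe using fun i => red_poly93 ι0 R' χ (D.q i) (hq i)
  have hev : ∀ i, aeval (χ ⟨x, hx⟩) (P i) + aeval (χ ⟨x, hx⟩) (Q i) * χ ⟨y, hy⟩ =
      χ ⟨ev D.p D.q ι0 x y i, hg i⟩ := by
    intro i
    obtain ⟨h1, h2⟩ := hPe i x hx
    obtain ⟨h3, h4⟩ := hQe i x hx
    rw [h2, h4, ← map_mul, ← map_add]
    rfl
  let m : Model D v ((1 : L) ^ W.N) (MvPolynomial.aeval ![1, χ ⟨ι0 D.t, ht⟩] W.A)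
      (MvPolynomial.aeval ![1, χ ⟨ι0 D.t, ht⟩] W.B) := {
    s_ne := by rw [one_pow]; exact one_ne_zero
    hA := by
      rw [one_pow, one_pow, one_mul]
      exact isRes_mvaeval hu W.A
    hB := by
      rw [one_pow, one_pow, one_mul]
      exact isRes_mvaeval hu W.B
    c := 1
    c_ne := one_ne_zero
    P := P
    Q := Q
    hP := by
      intro i n
      rw [one_pow, inv_one, one_pow, one_mul, one_mul, hPc]
      exact hres _ _
    hQ := by
      intro i n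
      rw [one_pow, inv_one, one_pow, one_mul, one_mul, hQc]
      exact hres _ _
    ne := by
      refine ⟨j, ?_⟩
      by_contra hcon
      rw [not_or, not_not, not_not] at hcon
      apply hj
      rw [← hev j, hcon.1, hcon.2]
      simp }
  -- the equation
  have heq : χ ⟨y, hy⟩ ^ 2 = χ ⟨x, hx⟩ ^ 3 +
      MvPolynomial.aeval ![1, χ ⟨ι0 D.t, ht⟩] W.A * χ ⟨x, hx⟩ +
      MvPolynomial.aeval ![1, χ ⟨ι0 D.t, ht⟩] W.B := by
    have hval : ∀ F : MvPolynomial (Fin 2) k,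
        ((MvPolynomial.aeval (![1, ⟨ι0 D.t, ht⟩] : Fin 2 → R') F : R') : Ω) =
          MvPolynomial.aeval ![1, ι0 D.t] F := by
      intro F
      have h := MvPolynomial.comp_aeval_apply (R := k) (![1, ⟨ι0 D.t, ht⟩] : Fin 2 → R') R'.val F
      have e : (fun i => R'.val ((![1, ⟨ι0 D.t, ht⟩] : Fin 2 → R') i)) = ![1, ι0 D.t] := by
        funext i
        fin_cases i
        · simp
        · simp
      rw [e] at h
      exact h
    have hχ : ∀ F : MvPolynomial (Fin 2) k,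
        χ (MvPolynomial.aeval (![1, ⟨ι0 D.t, ht⟩] : Fin 2 → R') F) =
          MvPolynomial.aeval ![1, χ ⟨ι0 D.t, ht⟩] F := by
      intro F
      have h := MvPolynomial.comp_aeval_apply (R := k) (![1, ⟨ι0 D.t, ht⟩] : Fin 2 → R') χ F
      have e : (fun i => χ ((![1, ⟨ι0 D.t, ht⟩] : Fin 2 → R') i)) =
          ![1, χ ⟨ι0 D.t, ht⟩] := by
        funext i
        fin_cases i
        · simp
        · simp
      rw [e] at h
      exact h
    have h1 : (⟨y, hy⟩ : R') ^ 2 = (⟨x, hx⟩ : R') ^ 3 +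
        MvPolynomial.aeval (![1, ⟨ι0 D.t, ht⟩] : Fin 2 → R') W.A * ⟨x, hx⟩ +
        MvPolynomial.aeval (![1, ⟨ι0 D.t, ht⟩] : Fin 2 → R') W.B := by
      apply Subtype.ext
      push_cast
      rw [hval, hval, ← map_cA D ι0, ← map_cB D ι0]
      exact he
    have h2 := congrArg χ h1
    rw [map_pow, map_add, map_add, map_pow, map_mul, hχ, hχ] at h2
    exact h2
  have hns : (sw (MvPolynomial.aeval ![1, χ ⟨ι0 D.t, ht⟩] W.A)
      (MvPolynomial.aeval ![1, χ ⟨ι0 D.t, ht⟩] W.B)).toAffine.Nonsingular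
        (χ ⟨x, hx⟩) (χ ⟨y, hy⟩) := by
    rw [sw_nonsingular]
    refine ⟨heq, ?_⟩
    by_contra hcon
    rw [not_or, not_not, not_not] at hcon
    obtain ⟨h1, h2⟩ := hcon
    have hY : χ ⟨y, hy⟩ = 0 := by
      have h3 : 2 * χ ⟨y, hy⟩ = 0 := by linear_combination h2
      exact (mul_eq_zero.mp h3).resolve_left two_ne_zero
    rw [hY] at heq
    apply hd
    unfold disc
    have hA : MvPolynomial.aeval ![1, χ ⟨ι0 D.t, ht⟩] W.A = -3 * χ ⟨x, hx⟩ ^ 2 := by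
      linear_combination (-1) * h1
    have hB : MvPolynomial.aeval ![1, χ ⟨ι0 D.t, ht⟩] W.B = 2 * χ ⟨x, hx⟩ ^ 3 := by
      linear_combination (-1) * heq + χ ⟨x, hx⟩ * h1
    rw [hA, hB]
    ring
  exact ⟨v, 1, hbase, m, χ ⟨x, hx⟩, χ ⟨y, hy⟩, hns, fun i => hev i⟩

end Pool.Agent.Helper21.TO
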