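import Mathlib
import Pool.Agent.Helper9.NS
import Pool.Agent.Helper21.TO.Defs
import Pool.Agent.Helper21.TO.ModelRes

/-!
# Block TO-SatModel: the reduced coordinates satisfy the equations
`sat_k`: Let `x = X0 / s ^ 2` and take (`VF.exists_roots`, `n = 1`, `m = 2`) an extension `K` of `L` with
`y`, `y ^ 2 = x ^ 3 + a x + b`, and a place `w` of `K` over `v` (`VP.exists_res`, `over_res`);
`ι = IsScalarTower.toAlgHom k L K`. `σ ^ 2 x` has the residue `X0` and `(σ ^ 3 y) ^ 2` has the residue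
`X0 ^ 3 + At X0 + Bt = Y0 ^ 2`, so `σ ^ 3 y` has the residue `Y0` or `- Y0`
(`VF.exists_res_of_pow`); replace `y` by `-y` in the second case. By `D.sat` the vector
`ev ι x y` satisfies the equations, hence so does `ι c` times it (`Sat.smul`), and its residues
(`Model.isRes_ev`) do (`isRes_mvaeval` and uniqueness of residues).
`Model.sat`: Let `P ∈ I` be a form. Let `F ∈ k[X][Y]` be `P` evaluated at `C P_i + C Q_i * Y`
(`MvPolynomial.aeval`), so that `F (X, Y) = P (evt X Y)` for `X, Y` in any field containing `k`. Divide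
by the monic polynomial `Y ^ 2 - C f`, `f = X ^ 3 + At X + Bt`:
`F = (Y ^ 2 - C f) G + C A1 * Y + C A0`. For all `X0` in `k` choose `Y0` with
`Y0 ^ 2 = f (X0)`: by `sat_k` for `Y0` and `-Y0`: `A1 (X0) Y0 + A0 (X0) = 0 = - A1 (X0) Y0 + A0 (X0)`,
so `A0 (X0) = 0`, `A1 (X0) ^ 2 f (X0) = 0`. `k` is infinite: `A0 = 0`, `A1 ^ 2 f = 0`, `A1 = 0`
(`f ≠ 0`, monic). So `F (X, Y) = 0` whenever `Y ^ 2 = f (X)`.
-/

set_option linter.unusedSectionVars false

namespace Pool.Agent.Helper21.TO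

open VC VF Function Polynomial
open Pool.Agent.Helper51.EW (Wei WPt aff zeroPt)

universe u

variable {k : Type u} [Field k] [IsAlgClosed k] [CharZero k] {W : Wei k} {L : Type u} [Field L]
  [Algebra k L]

theorem Model.sat_k {D : Dat W L} {v : Place k L} {s : L} {At Bt : k} (m : Model D v s At Bt)
    (X0 Y0 : k) (h : Y0 ^ 2 = X0 ^ 3 + At * X0 + Bt) : Sat D.I (m.evt X0 Y0) := by
  have hs0 : s ≠ 0 := m.s_ne
  obtain ⟨x, hxd⟩ : ∃ x : L, s ^ 2 * x = algebraMap k L X0 :=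
    ⟨algebraMap k L X0 / s ^ 2, by field_simp⟩
  obtain ⟨K, _, _, _, _, y, hK, hy⟩ := VF.exists_roots D.hL (n := 1) (m := 2) two_ne_zero
    (fun _ => x ^ 3 + D.a * x + D.b)
  obtain ⟨w, hw⟩ := VP.exists_res D.hL hK v
  have ho : Over v (IsScalarTower.toAlgHom k L K) w := by
    rw [← hw]
    exact over_res D.hL hK w
  set ι := IsScalarTower.toAlgHom k L K with hι
  have hy0 : y 0 ^ 2 = ι (x ^ 3 + D.a * x + D.b) := hy 0
  have hx : IsRes w (ι s ^ 2 * ι x) X0 := by
    rw [← map_pow, ← map_mul, hxd, AlgHom.commutes]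
    exact isRes_const X0
  have hA := ho _ _ m.hA
  have hB := ho _ _ m.hB
  have hy2 : IsRes w ((ι s ^ 3 * y 0) ^ 2) (Y0 ^ 2) := by
    rw [mul_pow, hy0, h]
    have e : (ι s ^ 3) ^ 2 * ι (x ^ 3 + D.a * x + D.b) =
        (ι s ^ 2 * ι x) ^ 3 + ι (s ^ 4 * D.a) * (ι s ^ 2 * ι x) + ι (s ^ 6 * D.b) := by
      simp only [map_add, map_mul, map_pow]
      ring
    rw [e]
    exact ((hx.pow 3).add (hA.mul hx)).add hB
  obtain ⟨e, he, he2⟩ := exists_res_of_pow hK two_ne_zero hy2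
  obtain ⟨z, hz, hzr⟩ : ∃ z : K, z ^ 2 = ι (x ^ 3 + D.a * x + D.b) ∧
      IsRes w (ι s ^ 3 * z) Y0 := by
    rcases sq_eq_sq_iff_eq_or_eq_neg.mp he2 with h1 | h1
    · exact ⟨y 0, hy0, h1 ▸ he⟩
    · refine ⟨-y 0, by rw [neg_sq, hy0], ?_⟩
      have h2 := he.neg
      rw [h1, neg_neg] at h2
      rwa [mul_neg]
  have hsat : Sat D.I (ev D.p D.q ι (ι x) z) :=
    D.sat K ι (ι x) z (by rw [hz]; simp only [map_add, map_mul, map_pow])
  have hres : ∀ i, IsRes w (ι m.c * ev D.p D.q ι (ι x) z i) (m.evt X0 Y0 i) :=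
    fun i => m.isRes_ev ι ho hx hzr i
  intro P hP n hn
  have h1 := isRes_mvaeval hres P
  rw [(hsat.smul (ι m.c)) P hP n hn] at h1
  exact h1.unique isRes_zero

theorem Model.sat {D : Dat W L} {v : Place k L} {s : L} {At Bt : k} (m : Model D v s At Bt)
    {K : Type u} [Field K] [Algebra k K] (x y : K)
    (h : y ^ 2 = x ^ 3 + algebraMap k K At * x + algebraMap k K Bt) :
    Sat D.I (m.evt x y) := by
  intro P hP n hn
  obtain ⟨F, hF⟩ : ∃ F : k[X][X], F = MvPolynomial.aeval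
      (fun i => (C (m.P i) + C (m.Q i) * X : k[X][X])) P := ⟨_, rfl⟩
  have key : ∀ (K' : Type u) [Field K'] [Algebra k K'] (x y : K'),
      Polynomial.aevalAeval x y F = MvPolynomial.aeval (m.evt x y) P := by
    intro K' _ _ x y
    rw [hF, MvPolynomial.comp_aeval_apply]
    congr 2
    funext i
    simp only [map_add, map_mul, Polynomial.aevalAeval_C, Polynomial.aevalAeval_Y]
    rfl
  obtain ⟨f, hf⟩ : ∃ f : k[X], f = X ^ 3 + C At * X + C Bt := ⟨_, rfl⟩
  have hfv : ∀ (K' : Type u) [Field K'] [Algebra k K'] (x : K'),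
      aeval x f = x ^ 3 + algebraMap k K' At * x + algebraMap k K' Bt := by
    intro K' _ _ x
    rw [hf]
    simp
  have hf0 : f ≠ 0 := by
    intro h0
    have h1 : f.coeff 3 = 1 := by
      rw [hf]
      simp [coeff_X, coeff_C]
    rw [h0, coeff_zero] at h1
    exact zero_ne_one h1
  have hmon : (X ^ 2 - C f : k[X][X]).Monic := monic_X_pow_sub_C f two_ne_zero
  have hdeg : (F %ₘ (X ^ 2 - C f)).degree ≤ 1 := by
    have h1 := degree_modByMonic_lt F hmon
    rw [degree_X_pow_sub_C (by norm_num : 0 < 2)] at h1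
    exact Order.le_of_lt_succ h1
  have hr := eq_X_add_C_of_degree_le_one hdeg
  have hdiv := modByMonic_add_div F (X ^ 2 - C f)
  obtain ⟨A1, hA1⟩ : ∃ A1, A1 = (F %ₘ (X ^ 2 - C f)).coeff 1 := ⟨_, rfl⟩
  obtain ⟨A0, hA0⟩ : ∃ A0, A0 = (F %ₘ (X ^ 2 - C f)).coeff 0 := ⟨_, rfl⟩
  rw [← hA1, ← hA0] at hr
  have hval : ∀ (K' : Type u) [Field K'] [Algebra k K'] (x y : K'),
      y ^ 2 = x ^ 3 + algebraMap k K' At * x + algebraMap k K' Bt →
      Polynomial.aevalAeval x y F = aeval x A1 * y + aeval x A0 := by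
    intro K' _ _ x y hxy
    rw [← hdiv, hr]
    simp only [map_add, map_mul, map_sub, map_pow, Polynomial.aevalAeval_C,
      Polynomial.aevalAeval_Y]
    rw [hfv, hxy, sub_self, zero_mul, add_zero]
  have hz : ∀ X0 : k, A0.eval X0 = 0 ∧ A1.eval X0 ^ 2 * f.eval X0 = 0 := by
    intro X0
    obtain ⟨Y0, hY0⟩ := IsAlgClosed.exists_pow_nat_eq (X0 ^ 3 + At * X0 + Bt)
      (by norm_num : 0 < 2)
    have h1 : aeval X0 A1 * Y0 + aeval X0 A0 = 0 := by
      rw [← hval k X0 Y0 (by rw [hY0]; rfl), key]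
      exact m.sat_k X0 Y0 hY0 P hP n hn
    have h2 : aeval X0 A1 * (-Y0) + aeval X0 A0 = 0 := by
      rw [← hval k X0 (-Y0) (by rw [neg_sq, hY0]; rfl), key]
      exact m.sat_k X0 (-Y0) (by rw [neg_sq, hY0]) P hP n hn
    rw [coe_aeval_eq_eval] at h1 h2
    have h3 : A0.eval X0 = 0 := by
      have h4 : 2 * A0.eval X0 = 0 := by linear_combination h1 + h2
      exact (mul_eq_zero.mp h4).resolve_left two_ne_zero
    refine ⟨h3, ?_⟩
    have h5 : f.eval X0 = Y0 ^ 2 := by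
      have := hfv k X0
      rw [coe_aeval_eq_eval] at this
      rw [this, hY0]
      rfl
    rw [h3, add_zero] at h1
    rw [h5]
    linear_combination (A1.eval X0 * Y0) * h1
  have hA00 : A0 = 0 := Polynomial.funext fun X0 => by rw [(hz X0).1, eval_zero]
  have hA10 : A1 = 0 := by
    have h1 : A1 ^ 2 * f = 0 := Polynomial.funext fun X0 => by
      rw [eval_mul, eval_pow, (hz X0).2, eval_zero]
    exact pow_eq_zero_iff (two_ne_zero) |>.mp ((mul_eq_zero.mp h1).resolve_right hf0)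
  rw [← key, hval K x y h, hA00, hA10, map_zero, zero_mul, add_zero]

end Pool.Agent.Helper21.TO
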