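import Mathlib
import Pool.Agent.Helper9.NS
import Pool.Agent.Helper21.TO.Defs
import Pool.Agent.Helper21.TO.ModelRes
import Pool.Agent.Helper21.TO.SatModel

/-!
# Block TO-Val: values of the points of the surface
`Pt` is affine, as it is good: `Pt = mk X Y`, `hr` gives the residues of `ι s ^ 2 x`, `ι s ^ 3 y`, so
`ι c * ev i` has the residue `evt X Y i` (`Model.isRes_ev`), and `evt X Y ≠ 0`, so `ev ≠ 0`
(`VF.res_ne_zero` for the vector multiplied by `ι c`). The value is computed by `peval_eq'`; by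
definition `m.sp (mk X Y) = cy (evt X Y) = single (ppt ..) 1` (`dif_pos`, using `Model.sat_k`).
`val_const`: here the vector is `evt x y` with `x`, `y` regular at `w` with residues `X`, `Y`
(`1 ^ 2 * x = x`), `aeval x (P i)` has the residue `aeval X (P i) = eval X (P i)` (`VF.IsRes.poly`), use
`peval_eq` and `Model.sat`.
-/

set_option linter.unusedSectionVars false

namespace Pool.Agent.Helper21.TO

open VC VF Function Polynomial
open Pool.Agent.Helper51.EW (Wei WPt aff zeroPt)

universe u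

variable {k : Type u} [Field k] [IsAlgClosed k] [CharZero k] {W : Wei k} {L : Type u} [Field L]
  [Algebra k L]

theorem Model.sp_good {D : Dat W L} {v : Place k L} {s : L} {At Bt : k} (m : Model D v s At Bt)
    {X Y : k} {h : (sw At Bt).toAffine.Nonsingular X Y} (hg : m.evt X Y ≠ 0) :
    ∃ hs : Sat D.I (m.evt X Y), m.sp (EPt.mk X Y h) = Finsupp.single (ppt (m.evt X Y) hg hs) 1 := by
  have hs : Sat D.I (m.evt X Y) := m.sat_k X Y (sw_nonsingular.mp h).1
  refine ⟨hs, ?_⟩
  change cy D.I (m.evt X Y) = _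
  unfold cy
  rw [dif_pos ⟨hg, hs⟩]

theorem Model.val {D : Dat W L} {v : Place k L} {s : L} {At Bt : k} (m : Model D v s At Bt)
    {K : Type u} [Field K] [Algebra k K] (hK : IsFunctionField k K) (ι : L →ₐ[k] K)
    {w : Place k K} (ho : Over v ι w) {x y : K}
    {h : (sw (ι D.a) (ι D.b)).toAffine.Nonsingular x y} {Pt : EPt At Bt}
    (hr : Red w (ι s) (EPt.mk x y h) Pt) (hg : m.Good Pt) :
    ∃ (hne : ev D.p D.q ι x y ≠ 0) (hs : Sat D.I (ev D.p D.q ι x y)),
      Finsupp.single ((proj k D.I).eval hK (ppt _ hne hs) w) 1 = m.sp Pt := by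
  rcases Pt with _ | ⟨X, Y, h'⟩
  · exact hg.elim
  · have hg' : m.evt X Y ≠ 0 := hg
    obtain ⟨hx, hy⟩ := hr
    have hv : ∀ i, IsRes w (ι m.c * ev D.p D.q ι x y i) (m.evt X Y i) := fun i =>
      m.isRes_ev ι ho hx hy i
    have hsat : Sat D.I (ev D.p D.q ι x y) := D.sat K ι x y (sw_nonsingular.mp h).1
    have hne : ev D.p D.q ι x y ≠ 0 := by
      intro h0
      apply res_ne_zero hg' hv
      funext i
      rw [congrFun h0 i, Pi.zero_apply, mul_zero]
    obtain ⟨hs, e⟩ := m.sp_good (h := h') hg'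
    refine ⟨hne, hsat, ?_⟩
    rw [peval_eq' hK w hne hsat hg' hs (ι m.c) hv]
    exact e.symm

theorem Model.val_const {D : Dat W L} {v : Place k L} {s : L} {At Bt : k} (m : Model D v s At Bt)
    {K : Type u} [Field K] [Algebra k K] (hK : IsFunctionField k K)
    {w : Place k K} {x y : K}
    {h : (sw (algebraMap k K At) (algebraMap k K Bt)).toAffine.Nonsingular x y} {Pt : EPt At Bt}
    (hr : Red w (1 : K) (EPt.mk x y h) Pt) (hg : m.Good Pt) :
    ∃ (hne : m.evt x y ≠ 0) (hs : Sat D.I (m.evt x y)),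
      Finsupp.single ((proj k D.I).eval hK (ppt _ hne hs) w) 1 = m.sp Pt := by
  rcases Pt with _ | ⟨X, Y, h'⟩
  · exact hg.elim
  · have hg' : m.evt X Y ≠ 0 := hg
    obtain ⟨hx, hy⟩ := hr
    rw [one_pow, one_mul] at hx hy
    have hp : ∀ p : k[X], IsRes w (aeval x p) (aeval X p) := fun p => by
      rw [Polynomial.coe_aeval_eq_eval]
      exact hx.poly
    have hv : ∀ i, IsRes w (m.evt x y i) (m.evt X Y i) := fun i =>
      (hp _).add ((hp _).mul hy)
    have hsat : Sat D.I (m.evt x y) := m.sat x y (sw_nonsingular.mp h).1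
    have hne : m.evt x y ≠ 0 := res_ne_zero hg' hv
    obtain ⟨hs, e⟩ := m.sp_good (h := h') hg'
    refine ⟨hne, hsat, ?_⟩
    rw [peval_eq hK w hne hsat hg' hs hv]
    exact e.symm

end Pool.Agent.Helper21.TO
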