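import Mathlib
import Pool.Agent.Helper9.NS
import Pool.Agent.Helper21.TO.Defs
import Pool.Agent.Helper21.TO.FinPt

/-!
# Block TO-FinBad: finitely many bad points
Take `i` with `P i ≠ 0` or `Q i ≠ 0` and `N = P_i ^ 2 - Q_i ^ 2 (X ^ 3 + At X + Bt)`. `N ≠ 0`: if
`P_i ^ 2 = Q_i ^ 2 (X ^ 3 + At X + Bt)` and `Q_i ≠ 0` the degrees have different parity, and if
`Q_i = 0` then `P_i = 0`. If `b = mk X Y` is not good then `P_i (X) + Q_i (X) Y = 0`, so `N (X) = 0`. Use
`finite_X` (block FinPt) for the roots of `N`, and the point `0`.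
-/

set_option linter.unusedSectionVars false

namespace Pool.Agent.Helper21.TO

open VC VF Function Polynomial
open Pool.Agent.Helper51.EW (Wei WPt aff zeroPt)

universe u

variable {k : Type u} [Field k] [IsAlgClosed k] [CharZero k] {W : Wei k} {L : Type u} [Field L]
  [Algebra k L]

/-- The equation for the first coordinate of a bad point is not trivial. -/
private lemma norm_ne {P Q : k[X]} (h : P ≠ 0 ∨ Q ≠ 0) (a b : k) :
    P ^ 2 - Q ^ 2 * (X ^ 3 + C a * X + C b) ≠ 0 := by
  intro h0
  have h1 : P ^ 2 = Q ^ 2 * (X ^ 3 + C a * X + C b) := sub_eq_zero.mp h0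
  have hd : (X ^ 3 + C a * X + C b : k[X]).natDegree = 3 := by compute_degree!
  have hF : (X ^ 3 + C a * X + C b : k[X]) ≠ 0 := by
    intro h2
    rw [h2, natDegree_zero] at hd
    exact absurd hd (by norm_num)
  by_cases hQ : Q = 0
  · rw [hQ] at h1
    have h2 : P ^ 2 = 0 := by rw [h1]; ring
    rcases h with h | h
    · exact h (pow_eq_zero_iff two_ne_zero |>.mp h2)
    · exact h hQ
  · have h2 := congrArg natDegree h1
    rw [natDegree_mul (pow_ne_zero 2 hQ) hF, natDegree_pow, natDegree_pow, hd] at h2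
    omega

theorem Model.finite_bad {D : Dat W L} {v : Place k L} {s : L} {At Bt : k}
    (m : Model D v s At Bt) : {b : EPt At Bt | ¬ m.Good b}.Finite := by
  obtain ⟨i, hi⟩ := m.ne
  have hN := norm_ne hi At Bt
  refine ((Set.finite_singleton (0 : EPt At Bt)).union
    (finite_X _ (Polynomial.finite_setOf_isRoot hN))).subset ?_
  intro b hb
  match b, hb with
  | .zero, _ => exact Or.inl rfl
  | .some x y h, hb =>
    right
    refine ⟨x, y, h, rfl, ?_⟩
    have h1 : m.evt x y = 0 := not_not.mp hb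
    have h2 : aeval x (m.P i) + aeval x (m.Q i) * y = 0 := congrFun h1 i
    rw [coe_aeval_eq_eval] at h2
    have h3 := (sw_nonsingular.mp h).1
    show IsRoot (m.P i ^ 2 - m.Q i ^ 2 * (X ^ 3 + C At * X + C Bt)) x
    unfold IsRoot
    simp only [eval_sub, eval_add, eval_pow, eval_X, eval_mul, eval_C]
    linear_combination (eval x (m.P i) - eval x (m.Q i) * y) * h2 + eval x (m.Q i) ^ 2 * h3

theorem Model.finite_bad_add {D : Dat W L} {v : Place k L} {s : L} {At Bt : k}
    (m : Model D v s At Bt) (a : EPt At Bt) : {b : EPt At Bt | ¬ m.Good (a + b)}.Finite :=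
  m.finite_bad.preimage (f := fun b => a + b) ((add_right_injective a).injOn)

/-- A good point `b` with `a + b` good, avoiding a finite set. -/
theorem Model.exists_good {D : Dat W L} {v : Place k L} {s : L} {At Bt : k}
    (m : Model D v s At Bt) (a : EPt At Bt) (F : Set (EPt At Bt)) (hF : F.Finite) :
    ∃ b, m.Good b ∧ m.Good (a + b) ∧ b ∉ F := by
  haveI : Infinite (EPt At Bt) := infinite_EPt At Bt
  obtain ⟨b, hb⟩ := ((m.finite_bad.union (m.finite_bad_add a)).union hF).exists_notMem
  rw [Set.mem_union, Set.mem_union, not_or, not_or] at hb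
  exact ⟨b, not_not.mp hb.1.1, not_not.mp hb.1.2, hb.2⟩

end Pool.Agent.Helper21.TO
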