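import Mathlib
import Pool.Agent.Helper9.NS
import Pool.Agent.Helper21.TO.Defs
import Pool.Agent.Helper21.TO.Defs2
import Pool.Agent.Helper21.TO.BaseFacts
import Pool.Agent.Helper21.TO.Wa

/-!
# Block TO-Tra: the Galois group is transitive on the places over a point
For `τ ∈ H` let `v_τ = Place.comap D.hL D.hL τ v` (`over_comap`: `Over v_τ τ v`), and `v'_τ` the same for
`v'`. Suppose `v' ≠ v_τ` for all `τ ∈ H`. Then `v'_ρ ≠ v_τ` for all `ρ, τ ∈ H` (otherwise
`v' = v_{τ ρ⁻¹}` or similar: comaps compose, use `Over.comp` and `Over.eq_comap` with `τ.symm`). By weak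
approximation (`wa` with `g = 1`) there is `y` with residue `1` at all `v_τ` and `0` at all `v'_τ`.
`N = ∏ τ ∈ H, τ y` is fixed by `H`, so it is in `k⟮t⟯` (`D.fixed`). `τ y` has the residue `1` at `v`
and `0` at `v'` (`Over`), so `N` has the residue `1` at `v` and `0` at `v'` (the factor `τ = 1`,
all factors regular). This contradicts `base_res`.
-/

set_option linter.unusedSectionVars false

namespace Pool.Agent.Helper21.TO

open VC VF Function Polynomial
open Pool.Agent.Helper51.EW (Wei WPt aff zeroPt)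

universe u

variable {k : Type u} [Field k] [IsAlgClosed k] [CharZero k] {W : Wei k} {L : Type u} [Field L]
  [Algebra k L]

lemma isRes_prod {K : Type u} [Field K] [Algebra k K] {v : Place k K} {ι : Type*}
    (s : Finset ι) (f : ι → K) (g : ι → k) (h : ∀ i ∈ s, IsRes v (f i) (g i)) :
    IsRes v (∏ i ∈ s, f i) (∏ i ∈ s, g i) := by
  classical
  induction s using Finset.induction_on with
  | empty =>
    rw [Finset.prod_empty, Finset.prod_empty]
    exact isRes_one
  | insert a s ha ih =>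
    rw [Finset.prod_insert ha, Finset.prod_insert ha]
    exact (h a (Finset.mem_insert_self a s)).mul
      (ih fun i hi => h i (Finset.mem_insert_of_mem hi))

theorem tra {D : Dat W L} {v v' : Place k L} {l l' : L} {c : Fin 2 → k} (hb : Base D v l c)
    (hb' : Base D v' l' c) : ∃ τ ∈ D.H, Over v' ((τ : L ≃ₐ[k] L) : L →ₐ[k] L) v := by
  classical
  by_contra hcon
  push Not at hcon
  have hF : Finite D.H := D.finH
  have hFt : Fintype D.H := Fintype.ofFinite _
  let V : D.H → Place k L := fun τ => Place.comap D.hL D.hL ((τ : L ≃ₐ[k] L) : L →ₐ[k] L) v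
  let V' : D.H → Place k L := fun τ => Place.comap D.hL D.hL ((τ : L ≃ₐ[k] L) : L →ₐ[k] L) v'
  have hV : ∀ τ, Over (V τ) ((τ : L ≃ₐ[k] L) : L →ₐ[k] L) v := fun τ => over_comap _ _ _ _
  have hV' : ∀ τ, Over (V' τ) ((τ : L ≃ₐ[k] L) : L →ₐ[k] L) v' := fun τ => over_comap _ _ _ _
  have hne : ∀ ρ τ, V' ρ ≠ V τ := by
    intro ρ τ h
    refine hcon _ (τ * ρ⁻¹).2 ?_
    intro z c hz
    have h1 : IsRes (V' ρ) ((ρ : L ≃ₐ[k] L).symm z) c := by
      rw [← (hV' ρ).isRes_iff D.hL]
      have e : (((ρ : L ≃ₐ[k] L) : L →ₐ[k] L)) ((ρ : L ≃ₐ[k] L).symm z) = z :=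
        (ρ : L ≃ₐ[k] L).apply_symm_apply z
      rwa [e]
    rw [h] at h1
    exact hV τ _ _ h1
  obtain ⟨y, hy⟩ := wa D.hL (Set.range V ∪ Set.range V')
    ((Set.finite_range V).union (Set.finite_range V')) (fun _ => 1) (fun _ => one_ne_zero)
    (fun w => if w ∈ Set.range V then 1 else 0)
  have h1 : ∀ τ : D.H, IsRes v ((τ : L ≃ₐ[k] L) y) 1 := by
    intro τ
    have h := hy (V τ) (Or.inl ⟨τ, rfl⟩)
    have e : (if V τ ∈ Set.range V then (1 : k) else 0) = 1 := if_pos ⟨τ, rfl⟩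
    rw [one_mul, e] at h
    exact hV τ _ _ h
  have h2 : ∀ τ : D.H, IsRes v' ((τ : L ≃ₐ[k] L) y) 0 := by
    intro τ
    have h := hy (V' τ) (Or.inr ⟨τ, rfl⟩)
    have e : (if V' τ ∈ Set.range V then (1 : k) else 0) = 0 := by
      apply if_neg
      rintro ⟨ρ, hρ⟩
      exact hne τ ρ hρ.symm
    rw [one_mul, e] at h
    exact hV' τ _ _ h
  have h3 : IsRes v (∏ τ : D.H, (τ : L ≃ₐ[k] L) y) 1 := by
    have := isRes_prod (v := v) Finset.univ (fun τ : D.H => (τ : L ≃ₐ[k] L) y) (fun _ => 1)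
      (fun τ _ => h1 τ)
    rwa [Finset.prod_const_one] at this
  have h4 : IsRes v' (∏ τ : D.H, (τ : L ≃ₐ[k] L) y) 0 := by
    have := isRes_prod (v := v') Finset.univ (fun τ : D.H => (τ : L ≃ₐ[k] L) y) (fun _ => 0)
      (fun τ _ => h2 τ)
    have e : (∏ _τ : D.H, (0 : k)) = 0 := Finset.prod_eq_zero (Finset.mem_univ (1 : D.H)) rfl
    rwa [e] at this
  have h5 : (∏ τ : D.H, (τ : L ≃ₐ[k] L) y) ∈ IntermediateField.adjoin k {D.t} := by
    apply D.fixed
    intro σ hσ
    rw [map_prod]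
    exact Fintype.prod_equiv (Equiv.mulLeft (⟨σ, hσ⟩ : D.H)) _ _ (fun τ => rfl)
  exact one_ne_zero ((base_res hb hb' h5 h3).unique h4)

end Pool.Agent.Helper21.TO
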