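import Mathlib
import Pool.Agent.Helper9.NS
import Pool.Agent.Helper21.TO.Defs
import Pool.Agent.Helper21.TO.Twist
import Pool.Agent.Helper21.TO.PsiM

/-!
# Block TO-TwistCyc: twisting the cycles
`twist_cyc`: choose `b` outside the finite sets such that `b`, `a + b` are not in `F` (`Model.twist`);
all four points are good. `m.cyc a ~ m.sp (a + b) - m.sp b = m'.sp (scF (a + b + et)) -
m'.sp (scF (b + et)) = m'.sp (scF a + scF (b + et)) - m'.sp (scF (b + et)) ~ m'.cyc (scF a)`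
(`Model.nul_cyc` for `m` and `m'`, `scF_add`).
`twist_sp`: from `Model.twist`, for a functional which is constant on the good points of `m`, resp.
of `m'`: the two constants are equal (take one `b ∉ F`).
-/

set_option linter.unusedSectionVars false

namespace Pool.Agent.Helper21.TO

open VC VF Function Polynomial
open Pool.Agent.Helper51.EW (Wei WPt aff zeroPt)

universe u

variable {k : Type u} [Field k] [IsAlgClosed k] [CharZero k] {W : Wei k} {L : Type u} [Field L]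
  [Algebra k L]

theorem Model.twist_cyc {D : Dat W L} {τ : L ≃ₐ[k] L} (hτ : τ D.t = D.t) {e : EPt D.a D.b}
    (he : Tw D.p D.q D.a D.b τ e) {v v' : Place k L} (hv : Over v' (τ : L →ₐ[k] L) v)
    {s s' : L} {At Bt At' Bt' : k} (m : Model D v s At Bt) (m' : Model D v' s' At' Bt') {c : k}
    (hc : c ≠ 0) (hs : IsRes v (τ s' / s) c) (hA : At' = c ^ 4 * At) (hB : Bt' = c ^ 6 * Bt)
    (hΔ : 4 * At ^ 3 + 27 * Bt ^ 2 ≠ 0) (a : EPt At Bt) :
    Nul D.S (m.cyc a - m'.cyc (scF c hc hA hB a)) := by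
  obtain ⟨et, F, hF, hT⟩ := Model.twist hτ he hv m m' hc hs hA hB hΔ
  have hF2 : {b : EPt At Bt | a + b ∈ F}.Finite :=
    hF.preimage (f := fun b => a + b) ((add_right_injective a).injOn)
  obtain ⟨b, hb, hab, hbF⟩ := m.exists_good a (F ∪ {b | a + b ∈ F}) (hF.union hF2)
  rw [Set.mem_union, not_or] at hbF
  obtain ⟨h1, h2, h3⟩ := hT b hbF.1
  obtain ⟨h4, h5, h6⟩ := hT (a + b) hbF.2
  have e : scF c hc hA hB (a + b + et) = scF c hc hA hB a + scF c hc hA hB (b + et) := by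
    rw [add_assoc, scF_add]
  rw [e] at h5 h6
  have n1 := m.nul_cyc a b hb hab
  have n2 := m'.nul_cyc (scF c hc hA hB a) (scF c hc hA hB (b + et)) h2 h5
  rw [h3, h6] at n1
  have n3 := n1.sub n2
  rwa [sub_sub_sub_cancel_right] at n3

theorem Model.twist_sp {D : Dat W L} {τ : L ≃ₐ[k] L} (hτ : τ D.t = D.t) {e : EPt D.a D.b}
    (he : Tw D.p D.q D.a D.b τ e) {v v' : Place k L} (hv : Over v' (τ : L →ₐ[k] L) v)
    {s s' : L} {At Bt At' Bt' : k} (m : Model D v s At Bt) (m' : Model D v' s' At' Bt') {c : k}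
    (hc : c ≠ 0) (hs : IsRes v (τ s' / s) c) (hA : At' = c ^ 4 * At) (hB : Bt' = c ^ 6 * Bt)
    (hΔ : 4 * At ^ 3 + 27 * Bt ^ 2 ≠ 0) {φ : D.S.Pt → k} {κ κ' : k}
    (h : ∀ b, m.Good b → Finsupp.linearCombination ℤ φ (m.sp b) = κ)
    (h' : ∀ b, m'.Good b → Finsupp.linearCombination ℤ φ (m'.sp b) = κ') : κ = κ' := by
  obtain ⟨et, F, hF, hT⟩ := Model.twist hτ he hv m m' hc hs hA hB hΔ
  obtain ⟨b, -, -, hbF⟩ := m.exists_good 0 F hF
  obtain ⟨h1, h2, h3⟩ := hT b hbF
  rw [← h b h1, h3, h' _ h2]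

end Pool.Agent.Helper21.TO
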