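import Mathlib
import Pool.Agent.Helper9.NS
import Pool.Agent.Helper21.TO.Defs
import Pool.Agent.Helper21.TO.Defs2
import Pool.Agent.Helper21.TO.BaseFacts
import Pool.Agent.Helper21.TO.Tra
import Pool.Agent.Helper21.TO.JVal
import Pool.Agent.Helper21.TO.TwistCyc
import Pool.Agent.Helper21.TO.PsiM

/-!
# Block TO-CycJ: the cycle of a point of the Weierstrass model
`cycJ_eq`: `JData` is nonempty; let `J` be the chosen one, `ptJ c a = ptJ J.c J.a`. By `ptJ_smul` and
`Base.eq_of_smul` (`hb`, `J.hb`) `J.c = c` (`obtain ⟨c', ...⟩ := J`, `subst`), by `ptJ_inj`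
`J.a = a`, by `Base.l_eq` `J.l = l`. `tra` gives `τ ∈ D.H` with `Over J.v τ v`; `e` from `D.tw`. By
`Model.twist_cyc` with `c = 1` (`τ (l ^ N) / l ^ N = 1` by `Base.fix`; `hA`, `hB` by `simp`, `hΔ` is
`disc W c ≠ 0`): `Nul (m.cyc a - J.m.cyc (scF 1 a))` and `scF_one`.
`cycJ_bad`: there is no `JData`: otherwise `WPt.mk b = ptJ c a`, so `b.u` is proportional to `c`
(`EW.mk_eq_iff`, cases on `a`) and `disc W b.u = μ ^ (12 N) disc W c ≠ 0` (`EW.aeval_smul`).
`cycJ_zero`: a point of the zero section: take any `c = (1, c1)` with any place; if there is a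
`JData`, then `J.a = 0` (the point is on the zero section: `EW.mk_eq_iff`, third coordinate), and
`Model.cyc_zero`. Otherwise the cycle is `0` by definition.
-/

set_option linter.unusedSectionVars false

namespace Pool.Agent.Helper21.TO

open VC VF Function Polynomial
open Pool.Agent.Helper51.EW (Wei WPt aff zeroPt)

universe u

variable {k : Type u} [Field k] [IsAlgClosed k] [CharZero k] {W : Wei k} {L : Type u} [Field L]
  [Algebra k L]

theorem cycJ_eq (D : Dat W L) {v : Place k L} {l : L} {c : Fin 2 → k} (hb : Base D v l c)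
    (hd : disc W c ≠ 0) (hc : c ≠ 0)
    (m : Model D v (l ^ W.N) (MvPolynomial.aeval c W.A) (MvPolynomial.aeval c W.B))
    (a : EPt (MvPolynomial.aeval c W.A) (MvPolynomial.aeval c W.B)) :
    Nul D.S (cycJ D (ptJ W c hc a) - m.cyc a) := by
  classical
  have hne : Nonempty (JData D (ptJ W c hc a)) := ⟨⟨c, hc, v, l, hb, hd, m, a, rfl⟩⟩
  unfold cycJ
  rw [dif_pos hne]
  generalize hne.some = J
  obtain ⟨c', hc', v', l', hb', hd', m', a', eq⟩ := J
  obtain ⟨μ, _, hμ⟩ := ptJ_smul eq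
  have hcc := Base.eq_of_smul hb hb' hμ
  subst hcc
  have hll := Base.l_eq hb hb'
  subst hll
  have haa := ptJ_inj eq
  subst haa
  obtain ⟨τ, hτ, ho⟩ := tra hb hb'
  obtain ⟨e, he⟩ := D.tw τ hτ
  have hτt := D.fixt τ hτ
  have hl0 := hb.l_ne
  have hs : IsRes v (τ (l ^ W.N) / l ^ W.N) (1 : k) := by
    rw [map_pow, hb.fix hτt, div_self (pow_ne_zero _ hl0)]
    exact isRes_one
  have h1 := Model.twist_cyc hτt he ho m m' (c := 1) one_ne_zero hs (by ring) (by ring) hd a
  rw [scF_one] at h1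
  have h2 := h1.neg
  rwa [neg_sub] at h2

theorem cycJ_bad (D : Dat W L) (b : Helper51.EW.Coord W k) (hd : disc W b.u = 0) :
    cycJ D (WPt.mk b) = 0 := by
  classical
  unfold cycJ
  rw [dif_neg]
  rintro ⟨J⟩
  apply J.hd
  obtain ⟨μ, hμ⟩ : ∃ μ : k, ∀ i, J.c i = μ * b.u i := by
    have h := J.eq
    rcases ha : J.a with _ | ⟨x, y, hxy⟩
    · rw [ha] at h
      obtain ⟨l, c, _, _, h1, _⟩ := Pool.Agent.Helper51.EW.mk_eq_iff.mp h
      exact ⟨l, h1⟩
    · rw [ha] at h
      obtain ⟨l, c, _, _, h1, _⟩ := Pool.Agent.Helper51.EW.mk_eq_iff.mp h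
      exact ⟨l, h1⟩
  have e : J.c = fun i => μ * b.u i := funext hμ
  unfold disc at hd ⊢
  rw [e, Pool.Agent.Helper51.EW.aeval_smul W.hA, Pool.Agent.Helper51.EW.aeval_smul W.hB]
  linear_combination μ ^ (12 * W.N) * hd

theorem cycJ_zero (D : Dat W L) : ∃ o, cycJ D o = 0 := by
  classical
  refine ⟨zeroPt ![1, 0] (one_t_ne 0), ?_⟩
  unfold cycJ
  split_ifs with hne
  · generalize hne.some = J
    obtain ⟨c, hc, v, l, hb, hd, m, a, eq⟩ := J
    rcases a with _ | ⟨x, y, hxy⟩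
    · exact Model.cyc_zero m
    · exfalso
      obtain ⟨l, c', _, _, _, h2⟩ := Pool.Agent.Helper51.EW.mk_eq_iff.mp eq
      have h3 := h2 2
      change (1 : k) = l ^ Pool.Agent.Helper51.EW.wt W.N 2 * c' * 0 at h3
      rw [mul_zero] at h3
      exact one_ne_zero h3
  · rfl

end Pool.Agent.Helper21.TO
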