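import Mathlib
import Pool.Agent.Helper9.NS
import Pool.Agent.Helper21.TO.Defs
import Pool.Agent.Helper21.TO.Defs2
import Pool.Agent.Helper21.TO.BaseFacts
import Pool.Agent.Helper21.TO.Tra
import Pool.Agent.Helper21.TO.TwistCyc
import Pool.Agent.Helper21.TO.PsiM
import Pool.Agent.Helper21.TO.CycJ

/-!
# Block TO-Kappa: functionals with vanishing transform are constant on the good points of the fibres
`kappa_one`: `φ_lin (m.cyc a) = 0` for all `a`, by `cycJ_eq` and `h`. So with `ψ` from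
`Model.lin_cyc`, `ψ = 0`, and for good `b`, `b'`: `a = b' - b`, `φ_lin (sp (a + b)) = φ_lin (sp b)`.
`kappa_two`: `tra` gives `τ ∈ D.H`, `Over v' τ v`, `e` from `D.tw`; `Base.l_eq`: `l' = l`; by `kappa_one`
`φ` is constant on the good points of `m` (value `κ`) and of `m'` (value `κ'`), and
`Model.twist_sp` with `c = 1` gives `κ = κ'` (`Base.fix`). (Take `κ = φ_lin (sp b)`.)
-/

set_option linter.unusedSectionVars false

namespace Pool.Agent.Helper21.TO

open VC VF Function Polynomial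
open Pool.Agent.Helper51.EW (Wei WPt aff zeroPt)

universe u

variable {k : Type u} [Field k] [IsAlgClosed k] [CharZero k] {W : Wei k} {L : Type u} [Field L]
  [Algebra k L]

theorem kappa_one {D : Dat W L} {φ : D.S.Pt → k} (hφ : Kills D.S φ)
    (h : ∀ y, Finsupp.linearCombination ℤ φ (cycJ D y) = 0) {v : Place k L} {l : L}
    {c : Fin 2 → k} (hb : Base D v l c) (hd : disc W c ≠ 0)
    (m : Model D v (l ^ W.N) (MvPolynomial.aeval c W.A) (MvPolynomial.aeval c W.B))
    (b b' : EPt (MvPolynomial.aeval c W.A) (MvPolynomial.aeval c W.B)) (h1 : m.Good b)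
    (h2 : m.Good b') :
    Finsupp.linearCombination ℤ φ (m.sp b) = Finsupp.linearCombination ℤ φ (m.sp b') := by
  obtain ⟨ψ, hψ1, hψ2⟩ := m.lin_cyc hφ
  have hc : c ≠ 0 := hb.c_ne
  have hψ : ∀ a, ψ a = 0 := by
    intro a
    have h3 := cycJ_eq D hb hd hc m a φ hφ
    rw [map_sub, h, zero_sub, neg_eq_zero] at h3
    rw [← hψ2 a, h3]
  have e : (b' - b) + b = b' := sub_add_cancel b' b
  have h4 := hψ1 (b' - b) b h1 (by rw [e]; exact h2)
  rw [e, hψ, sub_eq_zero] at h4
  exact h4.symm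

theorem kappa_two {D : Dat W L} {φ : D.S.Pt → k} (hφ : Kills D.S φ)
    (h : ∀ y, Finsupp.linearCombination ℤ φ (cycJ D y) = 0) {v v' : Place k L} {l l' : L}
    {c : Fin 2 → k} (hb : Base D v l c) (hb' : Base D v' l' c) (hd : disc W c ≠ 0)
    (m : Model D v (l ^ W.N) (MvPolynomial.aeval c W.A) (MvPolynomial.aeval c W.B))
    (m' : Model D v' (l' ^ W.N) (MvPolynomial.aeval c W.A) (MvPolynomial.aeval c W.B))
    (b b' : EPt (MvPolynomial.aeval c W.A) (MvPolynomial.aeval c W.B)) (h1 : m.Good b)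
    (h2 : m'.Good b') :
    Finsupp.linearCombination ℤ φ (m.sp b) = Finsupp.linearCombination ℤ φ (m'.sp b') := by
  obtain ⟨τ, hτ, ho⟩ := tra hb hb'
  obtain ⟨e, he⟩ := D.tw τ hτ
  have hτt := D.fixt τ hτ
  have hll := Base.l_eq hb hb'
  subst hll
  have hl0 := hb.l_ne
  have hs : IsRes v (τ (l ^ W.N) / l ^ W.N) (1 : k) := by
    rw [map_pow, hb.fix hτt, div_self (pow_ne_zero _ hl0)]
    exact isRes_one
  exact Model.twist_sp hτt he ho m m' (c := 1) one_ne_zero hs (by ring) (by ring) hd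
    (fun b₁ hb₁ => kappa_one hφ h hb hd m b₁ b hb₁ h1)
    (fun b₁ hb₁ => kappa_one hφ h hb' hd m' b₁ b' hb₁ h2)

end Pool.Agent.Helper21.TO
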