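import Mathlib
import Pool.Agent.Helper9.NS
import Pool.Agent.Helper21.TO.Defs
import Pool.Agent.Helper21.TO.Defs2
import Pool.Agent.Helper21.TO.ExModel
import Pool.Agent.Helper21.TO.FinBad
import Pool.Agent.Helper21.TO.Val
import Pool.Agent.Helper21.TO.BaseFacts
import Pool.Agent.Helper21.TO.Kappa

/-!
# Block TO-KapConst: functionals with vanishing transform are constant on almost all fibres
Choose `i` with `p i ≠ 0` or `q i ≠ 0`; `G = p_i ^ 2 - q_i ^ 2 (X ^ 3 + C a X + C b) ≠ 0` in `L[X]` (parity of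
the degrees). Choose `x0 ∈ k` with `z = G (x0) ≠ 0` and `z' = x0 ^ 3 + a x0 + b ≠ 0` in `L` (nonzero
polynomials over `L` have finitely many roots, `k` is infinite). Let `K ⊇ L` contain `y0` with
`y0 ^ 2 = z'` (`VF.exists_roots`, `n = 1`, `m = 2`), `ι = IsScalarTower.toAlgHom k L K`. The vector
`ev ι x0 y0` is not zero, as `ev_i (x0, y0) * ev_i (x0, -y0) = ι z`; it satisfies the equations
(`D.sat`) and gives a `K`-point `O'` of `S`.
Let `T` be the finite set of the places `v` of `L` at which one of the coefficients of the `p j`, `q j`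
is not regular, or a fixed nonzero coefficient `γ` is not a unit, or `z` or `z'` is not a unit
(`finite_support_ord` for the nonzero ones among them). Let `Ex` be the set of the `t0` with
`IsRes v t t0` for some `v ∈ T`, and of the zeros of `disc W ![1, t0]` (a nonzero polynomial in `t0`:
`disc W (1, T)` evaluated at `T = t` is `4 a ^ 3 + 27 b ^ 2 ≠ 0`, `D.hΔ`). `Ex` is finite.
Claim: let `t0 ∉ Ex`, `hb : Base D v l ![1, t0]` (so `l = 1`), `m` a model with scaling `l ^ N = 1`, `w` a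
place of `K` over `v` (`Over v ι w`). Then the value of `O'` at `w` is `m.sp b` for a good `b`: by `Model.hP`,
`hQ`, `ne` some `m.c * coefficient` has a nonzero residue (`s = 1`), and the coefficients are regular, so
`1 / m.c` is regular; `m.c * γ` is regular and `γ` is a unit, so `m.c` is regular. So `m.c` is a unit,
`m.c ^ 2 z` has a nonzero residue, which is the product of the residues of
`ι m.c * ev_i (x0, ± y0)`; so `evt (x0, Y0) ≠ 0` where `Y0` is the residue of `y0` (it exists: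
`y0 ^ 2 = z'` is regular), `Y0 ≠ 0` as `z'` is a unit. `(x0, Y0)` is nonsingular; use `Model.val`.
Conclusion: for `t0, t1 ∉ Ex` and models over them, `kappa_two` shows that
`κ (t0) = φ_lin (m.sp b)` does not depend on `v`, `m`, `b` (models exist: `Base.scale`, `exists_model`, good
points: `Model.exists_good`), and `VF.path` for `K`, `O'`, `τ = ι t` gives `κ (t0) = κ (t1)` (if
`IsRes w (ι t) t0` then `Base D (VQ.res w) 1 ![1, t0]`, `over_res`, `Over.isRes_iff`). `κ` is the common value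
(`Ex` is finite, so there is some `t0 ∉ Ex`).
-/

set_option linter.unusedSectionVars false

namespace Pool.Agent.Helper21.TO

open VC VF Function Polynomial
open Pool.Agent.Helper51.EW (Wei WPt aff zeroPt)

universe u

variable {k : Type u} [Field k] [IsAlgClosed k] [CharZero k] {W : Wei k} {L : Type u} [Field L]
  [Algebra k L]

private lemma kc_norm_ne {F : Type*} [Field F] {P Q : F[X]} (h : P ≠ 0 ∨ Q ≠ 0) (a b : F) :
    P ^ 2 - Q ^ 2 * (X ^ 3 + C a * X + C b) ≠ 0 := by
  intro h0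
  have h1 : P ^ 2 = Q ^ 2 * (X ^ 3 + C a * X + C b) := sub_eq_zero.mp h0
  have hd : (X ^ 3 + C a * X + C b : F[X]).natDegree = 3 := by compute_degree!
  have hF : (X ^ 3 + C a * X + C b : F[X]) ≠ 0 := by
    intro h2
    rw [h2, natDegree_zero] at hd
    exact absurd hd (by norm_num)
  by_cases hQ : Q = 0
  · rw [hQ] at h1
    have h2 : P ^ 2 = 0 := by rw [h1]; ring
    rcases h with h | h
    · exact h (pow_eq_zero_iff two_ne_zero |>.mp h2)
    · exact h hQ
  · have h2 := congrArg natDegree h1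
    rw [natDegree_mul (pow_ne_zero 2 hQ) hF, natDegree_pow, natDegree_pow, hd] at h2
    omega

/-- A constant which is not a root. -/
private lemma kc_finite {F : Type u} [Field F] [Algebra k F] {G : F[X]} (hG : G ≠ 0) :
    {x : k | G.eval (algebraMap k F x) = 0}.Finite := by
  refine Set.Finite.of_injOn (f := algebraMap k F) ?_ (algebraMap k F).injective.injOn
    (Polynomial.finite_setOf_isRoot hG)
  intro x hx
  exact hx

private lemma kc_unit {v : Place k L} (hL : IsFunctionField k L) {f : L} (hf : f ≠ 0)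
    (h : ord v.ring f = 0) : ∃ c : k, c ≠ 0 ∧ IsRes v f c := by
  have h1 : f ∈ v.ring := (VC.ord_nonneg_iff hL v hf).mp (by rw [h])
  obtain ⟨c, hc⟩ := exists_res hL h1
  refine ⟨c, ?_, hc⟩
  rintro rfl
  have h2 := (VC.ord_pos_iff hL v hf).mpr (isRes_zero_iff.mp hc)
  omega

private lemma kc_res_inv {K : Type u} [Field K] [Algebra k K] {v : Place k K} {x : K} {c : k}
    (h : IsRes v x c) (hc : c ≠ 0) : IsRes v x⁻¹ c⁻¹ := by
  obtain ⟨h0, h1⟩ := h.inv_mem hc
  have h2 : x⁻¹ - algebraMap k K c⁻¹ =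
      (-(x⁻¹ * algebraMap k K c⁻¹)) * (x - algebraMap k K c) := by
    have hc' : algebraMap k K c ≠ 0 := (_root_.map_ne_zero _).mpr hc
    rw [map_inv₀]
    field_simp
    ring
  unfold IsRes
  rw [h2]
  exact nonunits_mul (v.ring.neg_mem _ (v.ring.mul_mem _ _ h1 (v.algebraMap_mem _))) h

private lemma kc_disc (W : Wei k) (D : Dat W L) :
    {t0 : k | disc W ![1, t0] = 0}.Finite := by
  obtain ⟨A, hA⟩ : ∃ A : k[X], ∀ (F : Type u) [Field F] [Algebra k F] (x : F),
      aeval x A = MvPolynomial.aeval ![1, x] W.A := by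
    refine ⟨MvPolynomial.aeval ![1, Polynomial.X] W.A, fun F _ _ x => ?_⟩
    rw [MvPolynomial.comp_aeval_apply (R := k) (![1, X] : Fin 2 → k[X]) (aeval x) W.A]
    congr 2
    funext i
    fin_cases i
    · simp
    · simp
  obtain ⟨B, hB⟩ : ∃ B : k[X], ∀ (F : Type u) [Field F] [Algebra k F] (x : F),
      aeval x B = MvPolynomial.aeval ![1, x] W.B := by
    refine ⟨MvPolynomial.aeval ![1, Polynomial.X] W.B, fun F _ _ x => ?_⟩
    rw [MvPolynomial.comp_aeval_apply (R := k) (![1, X] : Fin 2 → k[X]) (aeval x) W.B]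
    congr 2
    funext i
    fin_cases i
    · simp
    · simp
  have h0 : (4 * A ^ 3 + 27 * B ^ 2 : k[X]) ≠ 0 := by
    intro h
    apply D.hΔ
    have h1 := congrArg (aeval D.t) h
    rw [map_zero, map_add, map_mul, map_mul, map_pow, map_pow, map_ofNat, map_ofNat, hA, hB] at h1
    exact h1
  refine (Polynomial.finite_setOf_isRoot h0).subset ?_
  intro t0 ht
  have h1 : disc W ![1, t0] = 0 := ht
  unfold disc at h1
  rw [← hA, ← hB] at h1
  show IsRoot (4 * A ^ 3 + 27 * B ^ 2 : k[X]) t0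
  unfold IsRoot
  rw [← coe_aeval_eq_eval, map_add, map_mul, map_mul, map_pow, map_pow, map_ofNat, map_ofNat]
  exact h1

/-- The section and the exceptional places. -/
private lemma kc_sec (D : Dat W L) : ∃ (K : Type u) (_ : Field K) (_ : Algebra k K)
    (_ : Algebra L K) (_ : IsScalarTower k L K) (hK : IsFunctionField k K) (O' : D.S.Mor K)
    (T : Set (Place k L)), T.Finite ∧ ∀ v ∉ T, ∀ (t0 : k) (l : L) (_ : Base D v l ![1, t0])
      (m : Model D v (l ^ W.N) (MvPolynomial.aeval ![1, t0] W.A) (MvPolynomial.aeval ![1, t0] W.B))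
      (w : Place k K), Over v (IsScalarTower.toAlgHom k L K) w →
      ∃ b : EPt (MvPolynomial.aeval ![1, t0] W.A) (MvPolynomial.aeval ![1, t0] W.B), m.Good b ∧
        Finsupp.single (D.S.eval hK O' w) 1 = m.sp b := by
  obtain ⟨i, hi⟩ := D.ne
  obtain ⟨x0, hx0⟩ := ((kc_finite (k := k) (kc_norm_ne hi D.a D.b)).union
    (kc_finite (k := k) (G := (X ^ 3 + C D.a * X + C D.b : L[X])) (by
      intro h2
      have hd : (X ^ 3 + C D.a * X + C D.b : L[X]).natDegree = 3 := by compute_degree!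
      rw [h2, natDegree_zero] at hd
      exact absurd hd (by norm_num)))).exists_notMem
  rw [Set.mem_union, not_or] at hx0
  obtain ⟨hx1, hx2⟩ := hx0
  obtain ⟨x, hx⟩ : ∃ x : L, x = algebraMap k L x0 := ⟨_, rfl⟩
  obtain ⟨z', hz'⟩ : ∃ z' : L, z' = x ^ 3 + D.a * x + D.b := ⟨_, rfl⟩
  obtain ⟨z, hz⟩ : ∃ z : L, z = (D.p i).eval x ^ 2 - (D.q i).eval x ^ 2 * z' := ⟨_, rfl⟩
  have hz0 : z ≠ 0 := by
    intro h
    apply hx1
    show Polynomial.eval (algebraMap k L x0) _ = 0
    rw [← hx]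
    simp only [eval_sub, eval_add, eval_pow, eval_X, eval_mul, eval_C]
    rw [← hz', ← hz, h]
  have hz'0 : z' ≠ 0 := by
    intro h
    apply hx2
    show Polynomial.eval (algebraMap k L x0) _ = 0
    rw [← hx]
    simp only [eval_add, eval_pow, eval_X, eval_mul, eval_C]
    rw [← hz', h]
  obtain ⟨K, _, _, _, _, y, hK, hy⟩ := exists_roots (k := k) D.hL (m := 2) two_ne_zero
    (fun _ : Fin 1 => z')
  obtain ⟨y0, hy0⟩ : ∃ y0, y0 = y 0 := ⟨_, rfl⟩
  obtain ⟨ι, hι⟩ : ∃ ι : L →ₐ[k] K, ι = IsScalarTower.toAlgHom k L K := ⟨_, rfl⟩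
  have hιa : ∀ a, ι a = algebraMap L K a := fun a => by rw [hι]; rfl
  have hysq : y0 ^ 2 = ι z' := by rw [hy0, hy 0, hιa]
  have hιz' : ι z' ≠ 0 := (_root_.map_ne_zero ι).mpr hz'0
  have hιz : ι z ≠ 0 := (_root_.map_ne_zero ι).mpr hz0
  have hy00 : y0 ≠ 0 := by
    intro h
    apply hιz'
    rw [← hysq, h]
    norm_num
  have hev : ∀ (Y : K) (j : Fin D.M), ev D.p D.q ι (ι x) Y j =
      ι ((D.p j).eval x) + ι ((D.q j).eval x) * Y := by
    intro Y j
    have h1 : ∀ p : L[X], p.eval₂ (ι : L →+* K) (ι x) = ι (p.eval x) := fun p =>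
      Polynomial.eval₂_at_apply (ι : L →+* K) x
    unfold ev
    rw [h1, h1]
  have hprod : ev D.p D.q ι (ι x) y0 i * ev D.p D.q ι (ι x) (-y0) i = ι z := by
    rw [hev, hev, hz, map_sub, map_mul, map_pow, map_pow, ← hysq]
    ring
  have hne : ev D.p D.q ι (ι x) y0 ≠ 0 := by
    intro h
    apply hιz
    rw [← hprod, h, Pi.zero_apply, zero_mul]
  have heqn : y0 ^ 2 = (ι x) ^ 3 + ι D.a * ι x + ι D.b := by
    rw [hysq, hz']
    simp only [map_add, map_mul, map_pow]
  have hsat : Sat D.I (ev D.p D.q ι (ι x) y0) := D.sat K ι _ _ heqn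
  have hchar : CharZero K := charZero_of_injective_algebraMap (algebraMap k K).injective
  have hns : (sw (ι D.a) (ι D.b)).toAffine.Nonsingular (ι x) y0 := by
    rw [sw_nonsingular]
    refine ⟨heqn, Or.inr ?_⟩
    intro h
    apply hy00
    have h1 : (2 : K) * y0 = 0 := by linear_combination h
    rcases mul_eq_zero.mp h1 with h2 | h2
    · exact absurd h2 two_ne_zero
    · exact h2
  classical
  let E : Finset L := (Finset.univ.biUnion fun j => (D.p j).coeffs) ∪
    (Finset.univ.biUnion fun j => (D.q j).coeffs) ∪ {z, z'}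
  have hE0 : ∀ e ∈ E, e ≠ 0 := by
    intro e he
    simp only [E, Finset.mem_union, Finset.mem_biUnion, Finset.mem_univ, true_and,
      Finset.mem_insert, Finset.mem_singleton] at he
    rcases he with (⟨j, hj⟩ | ⟨j, hj⟩) | h | h
    · obtain ⟨n, hn, rfl⟩ := Polynomial.mem_coeffs_iff.mp hj
      exact Polynomial.mem_support_iff.mp hn
    · obtain ⟨n, hn, rfl⟩ := Polynomial.mem_coeffs_iff.mp hj
      exact Polynomial.mem_support_iff.mp hn
    · rw [h]; exact hz0
    · rw [h]; exact hz'0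
  have hEp : ∀ j n, (D.p j).coeff n ≠ 0 → (D.p j).coeff n ∈ E := by
    intro j n h
    simp only [E, Finset.mem_union, Finset.mem_biUnion, Finset.mem_univ, true_and]
    exact Or.inl (Or.inl ⟨j, Polynomial.coeff_mem_coeffs h⟩)
  have hEq : ∀ j n, (D.q j).coeff n ≠ 0 → (D.q j).coeff n ∈ E := by
    intro j n h
    simp only [E, Finset.mem_union, Finset.mem_biUnion, Finset.mem_univ, true_and]
    exact Or.inl (Or.inr ⟨j, Polynomial.coeff_mem_coeffs h⟩)
  have hEz : z ∈ E := by simp [E]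
  have hEz' : z' ∈ E := by simp [E]
  refine ⟨K, inferInstance, inferInstance, inferInstance, inferInstance, hK, ppt _ hne hsat,
    ⋃ e ∈ E, {v : Place k L | ord v.ring e ≠ 0}, ?_, ?_⟩
  · exact Set.Finite.biUnion E.finite_toSet fun e he => finite_support_ord D.hL (hE0 e he)
  · intro v hv t0 l hb m w ho
    rw [← hι] at ho
    have hunit : ∀ e ∈ E, ∃ c : k, c ≠ 0 ∧ IsRes v e c := by
      intro e he
      refine kc_unit D.hL (hE0 e he) ?_
      by_contra h
      exact hv (Set.mem_biUnion (show e ∈ (E : Set L) from he) h)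
    have hl : l = 1 := by
      rcases hb with ⟨h1, _, _⟩ | ⟨_, h2, _, _⟩
      · exact h1
      · exact absurd h2 (by simp)
    subst hl
    obtain ⟨s, hs⟩ : ∃ s : L, s = 1 ^ W.N := ⟨_, rfl⟩
    have hs1 : s = 1 := by rw [hs, one_pow]
    have hsn : ∀ n : ℕ, s⁻¹ ^ n = 1 := fun n => by rw [hs1, inv_one, one_pow]
    obtain ⟨At, hAt⟩ : ∃ At : k, At = MvPolynomial.aeval ![1, t0] W.A := ⟨_, rfl⟩
    obtain ⟨Bt, hBt⟩ : ∃ Bt : k, Bt = MvPolynomial.aeval ![1, t0] W.B := ⟨_, rfl⟩
    revert m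
    rw [← hs, ← hAt, ← hBt]
    intro m
    -- the common factor is a unit
    obtain ⟨cc, hcc0, hcc⟩ : ∃ c : k, c ≠ 0 ∧ IsRes v m.c c := by
      obtain ⟨j, hj⟩ := m.ne
      rcases hj with hj | hj
      · have h1 := m.hP j (m.P j).natDegree
        rw [hsn, mul_one] at h1
        have h2 : (m.P j).coeff (m.P j).natDegree ≠ 0 := leadingCoeff_ne_zero.mpr hj
        have h3 := h1.ne_zero h2
        obtain ⟨c', hc'0, hc'⟩ := hunit _ (hEp j _ (right_ne_zero_of_mul h3))
        have h4 := h1.mul (kc_res_inv hc' hc'0)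
        rw [mul_assoc, mul_inv_cancel₀ (right_ne_zero_of_mul h3), mul_one] at h4
        exact ⟨_, mul_ne_zero h2 (inv_ne_zero hc'0), h4⟩
      · have h1 := m.hQ j (m.Q j).natDegree
        rw [hsn, mul_one] at h1
        have h2 : (m.Q j).coeff (m.Q j).natDegree ≠ 0 := leadingCoeff_ne_zero.mpr hj
        have h3 := h1.ne_zero h2
        obtain ⟨c', hc'0, hc'⟩ := hunit _ (hEq j _ (right_ne_zero_of_mul h3))
        have h4 := h1.mul (kc_res_inv hc' hc'0)
        rw [mul_assoc, mul_inv_cancel₀ (right_ne_zero_of_mul h3), mul_one] at h4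
        exact ⟨_, mul_ne_zero h2 (inv_ne_zero hc'0), h4⟩
    obtain ⟨e, he0, he⟩ := hunit _ hEz'
    obtain ⟨d, hd0, hd⟩ := hunit _ hEz
    obtain ⟨Y0, hY0, hY0e⟩ := exists_res_of_pow hK two_ne_zero (x := y0) (v := w) (c := e) (by
      rw [hysq]
      exact ho _ _ he)
    have hY00 : Y0 ≠ 0 := by
      rintro rfl
      apply he0
      rw [← hY0e]
      norm_num
    have hxr : IsRes w (ι x) x0 := ho _ _ (by rw [hx]; exact isRes_const x0)
    have hxr' : IsRes w (ι s ^ 2 * ι x) x0 := by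
      rw [hs1, map_one, one_pow, one_mul]
      exact hxr
    have hyr : IsRes w (ι s ^ 3 * y0) Y0 := by
      rw [hs1, map_one, one_pow, one_mul]
      exact hY0
    have hyr' : IsRes w (ι s ^ 3 * -y0) (-Y0) := by
      rw [hs1, map_one, one_pow, one_mul]
      exact hY0.neg
    have hevt : m.evt x0 Y0 ≠ 0 := by
      intro h
      have h1 := (m.isRes_ev ι ho hxr' hyr i).mul (m.isRes_ev ι ho hxr' hyr' i)
      rw [h, Pi.zero_apply, zero_mul] at h1
      have h2 : ι m.c * ev D.p D.q ι (ι x) y0 i * (ι m.c * ev D.p D.q ι (ι x) (-y0) i) =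
          ι (m.c * m.c * z) := by
        rw [map_mul, map_mul, ← hprod]
        ring
      rw [h2] at h1
      have h3 := ho _ _ ((hcc.mul hcc).mul hd)
      exact mul_ne_zero (mul_ne_zero hcc0 hcc0) hd0 (h3.unique h1)
    have hAr : IsRes v D.a At := by
      have h1 := m.hA
      rwa [hs1, one_pow, one_mul] at h1
    have hBr : IsRes v D.b Bt := by
      have h1 := m.hB
      rwa [hs1, one_pow, one_mul] at h1
    have hns' : (sw At Bt).toAffine.Nonsingular x0 Y0 := by
      rw [sw_nonsingular]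
      refine ⟨?_, Or.inr ?_⟩
      · rw [hY0e]
        have h1 : IsRes v z' (x0 ^ 3 + At * x0 + Bt) := by
          rw [hz']
          have hxv : IsRes v x x0 := by rw [hx]; exact isRes_const x0
          exact ((hxv.pow 3).add (hAr.mul hxv)).add hBr
        exact he.unique h1
      · intro h
        apply hY00
        have h1 : (2 : k) * Y0 = 0 := by linear_combination h
        rcases mul_eq_zero.mp h1 with h2 | h2
        · exact absurd h2 two_ne_zero
        · exact h2
    refine ⟨EPt.mk x0 Y0 hns', hevt, ?_⟩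
    obtain ⟨hne', hs', h⟩ := m.val hK ι ho (h := hns) (Pt := EPt.mk x0 Y0 hns') ⟨hxr', hyr⟩ hevt
    exact h

theorem kappa_const {D : Dat W L} {φ : D.S.Pt → k} (hφ : Kills D.S φ)
    (h : ∀ y, Finsupp.linearCombination ℤ φ (cycJ D y) = 0) :
    ∃ (κ : k) (Ex : Set k), Ex.Finite ∧ ∀ t0 ∉ Ex, ∀ (v : Place k L) (l : L)
      (_ : Base D v l ![1, t0])
      (m : Model D v (l ^ W.N) (MvPolynomial.aeval ![1, t0] W.A) (MvPolynomial.aeval ![1, t0] W.B))
      (b : EPt (MvPolynomial.aeval ![1, t0] W.A) (MvPolynomial.aeval ![1, t0] W.B)),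
      m.Good b → Finsupp.linearCombination ℤ φ (m.sp b) = κ := by
  obtain ⟨K, _, _, _, _, hK, O', T, hT, hO⟩ := kc_sec D
  let Ex : Set k := (⋃ v ∈ T, {t0 : k | IsRes v D.t t0}) ∪ {t0 : k | disc W ![1, t0] = 0}
  have hEx : Ex.Finite := by
    refine Set.Finite.union (hT.biUnion fun v _ => ?_) (kc_disc W D)
    refine Set.Subsingleton.finite ?_
    intro a ha b hb
    exact IsRes.unique ha hb
  have hdisc : ∀ t0 ∉ Ex, disc W ![1, t0] ≠ 0 := fun t0 ht0 h0 => ht0 (Or.inr h0)
  have hnT : ∀ t0 ∉ Ex, ∀ (v : Place k L) (l : L), Base D v l ![1, t0] → v ∉ T := by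
    intro t0 ht0 v l hb hv
    apply ht0
    left
    refine Set.mem_biUnion hv ?_
    rcases hb with ⟨_, _, h3⟩ | ⟨_, h2, _, _⟩
    · exact h3
    · exact absurd h2 (by simp)
  -- the value on the section
  have hval : ∀ t0 ∉ Ex, ∀ (v : Place k L) (l : L)
      (_ : Base D v l ![1, t0])
      (m : Model D v (l ^ W.N) (MvPolynomial.aeval ![1, t0] W.A) (MvPolynomial.aeval ![1, t0] W.B))
      (b : EPt (MvPolynomial.aeval ![1, t0] W.A) (MvPolynomial.aeval ![1, t0] W.B)),
      m.Good b → ∀ w : Place k K, IsRes w (algebraMap L K D.t) t0 →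
        φ (D.S.eval hK O' w) = Finsupp.linearCombination ℤ φ (m.sp b) := by
    intro t0 ht0 v l hb m b hg w hw
    have ho := over_res D.hL hK w
    obtain ⟨v', hv'⟩ : ∃ v', v' = VQ.res D.hL hK w := ⟨_, rfl⟩
    rw [← hv'] at ho
    have h1 : IsRes v' D.t t0 := (ho.isRes_iff D.hL).mp hw
    have hb' : Base D v' 1 ![1, t0] := Or.inl ⟨rfl, rfl, h1⟩
    obtain ⟨h2, h3, h4⟩ := hb'.scale
    obtain ⟨m'⟩ := exists_model D v' h2 h3 h4
    obtain ⟨b', hb1, hb2⟩ := hO v' (hnT t0 ht0 v' 1 hb') t0 1 hb' m' w ho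
    have h5 := kappa_two hφ h hb hb' (hdisc t0 ht0) m m' b b' hg hb1
    rw [h5, ← hb2, Finsupp.linearCombination_single, one_smul]
  have hτ : Transcendental k (algebraMap L K D.t) :=
    (transcendental_algebraMap_iff (algebraMap L K).injective).mpr D.ht
  -- a base value
  obtain ⟨t1, ht1⟩ := hEx.exists_notMem
  obtain ⟨v1, l1, hb1⟩ := exists_over_base D ![1, t1] (Or.inl rfl)
  obtain ⟨h2, h3, h4⟩ := hb1.scale
  obtain ⟨m1⟩ := exists_model D v1 h2 h3 h4
  obtain ⟨b1, hg1, -, -⟩ := m1.exists_good 0 ∅ Set.finite_empty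
  refine ⟨Finsupp.linearCombination ℤ φ (m1.sp b1), Ex, hEx, ?_⟩
  intro t0 ht0 v l hb m b hg
  by_cases h01 : t0 = t1
  · subst h01
    exact kappa_two hφ h hb hb1 (hdisc t0 ht0) m m1 b b1 hg hg1
  · exact path hφ hK O' hτ h01 (fun w hw => hval t0 ht0 v l hb m b hg w hw)
      (fun w hw => hval t1 ht1 v1 l1 hb1 m1 b1 hg1 w hw)

end Pool.Agent.Helper21.TO
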