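import Mathlib
import Pool.Agent.Helper9.NS
import Pool.Agent.Helper21.TO.Defs
import Pool.Agent.Helper21.TO.Defs2
import Pool.Agent.Helper21.TO.KapConst
import Pool.Agent.Helper21.TO.GoodCurve

/-!
# Block TO-ConstThm: functionals with vanishing transform are constant
Take `κ`, `Ex` from `kappa_const`. It suffices to show `φ pt = κ` for all `pt`. Take the curve from
`good_curve`. `ψ = φ - κ` is `Kills` (constant functions are: the sum of the orders of a function is
zero, `FF.deg_dv` in Helper17/FF, or a lemma in Helper26/VC), and vanishes at the values `c (w)`,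
`w ∉ T`: `φ (c (w)) = φ_lin (single (c w) 1) = φ_lin (m.sp b) = κ`. By `Helper83.KV.app`
(Helper83/KV/App.lean, imported by Defs) it vanishes at `c (v0) = pt`.
-/

set_option linter.unusedSectionVars false

namespace Pool.Agent.Helper21.TO

open VC VF Function Polynomial
open Pool.Agent.Helper51.EW (Wei WPt aff zeroPt)

universe u

variable {k : Type u} [Field k] [IsAlgClosed k] [CharZero k] {W : Wei k} {L : Type u} [Field L]
  [Algebra k L]

theorem kills_const (X : Variety k) (κ : k) : Kills X (fun _ => κ) := by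
  have h : X.Rat ≤ (Finsupp.linearCombination ℤ (fun _ : X.Pt => κ)).toAddMonoidHom.ker := by
    unfold Variety.Rat
    rw [AddSubgroup.closure_le]
    rintro z ⟨K, _, _, hK, c, f, hf, rfl⟩
    rw [SetLike.mem_coe, AddMonoidHom.mem_ker]
    rw [finsum_eq_sum_of_support_subset (s := (finite_support_ord hK hf).toFinset) _ (by
      rw [Set.Finite.coe_toFinset]
      intro v hv
      rw [Set.mem_ofPred_eq]
      intro h0
      apply hv
      beta_reduce
      rw [h0, Finsupp.single_zero])]
    rw [map_sum]
    have e : ∀ v ∈ (finite_support_ord hK hf).toFinset,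
        (Finsupp.linearCombination ℤ (fun _ : X.Pt => κ)).toAddMonoidHom
          (Finsupp.single (X.eval hK c v) (ord v.ring f)) = ord v.ring f • κ := fun v _ =>
      Finsupp.linearCombination_single ℤ _ _
    rw [Finset.sum_congr rfl e, ← Finset.sum_smul, VP.degree_zero hK hf, zero_smul]
  intro z hz
  exact h hz

theorem const_thm (D : Dat W L) {Ω : Type u} [Field Ω] [Algebra k Ω] (ι0 : L →ₐ[k] Ω)
    (x y : Ω) (he : y ^ 2 = x ^ 3 + ι0 D.a * x + ι0 D.b)
    (hI : ∀ (P : MvPolynomial (Fin D.M) k) (n : ℕ), P.IsHomogeneous n →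
      MvPolynomial.aeval (ev D.p D.q ι0 x y) P = 0 → P ∈ D.I)
    {φ : D.S.Pt → k} (hφ : Kills D.S φ)
    (h : ∀ y, Finsupp.linearCombination ℤ φ (cycJ D y) = 0) (p p' : D.S.Pt) : φ p = φ p' := by
  obtain ⟨κ, Ex, hE, hκ⟩ := kappa_const hφ h
  have key : ∀ pt : D.S.Pt, φ pt = κ := by
    intro pt
    obtain ⟨K, _, _, hK, c, v0, T, h1, hT, h2⟩ := good_curve D ι0 x y he hI Ex hE pt
    have h3 : Kills D.S (fun p => φ p + -κ) := hφ.add (kills_const D.S (-κ))
    have h4 := Pool.Agent.Helper83.KV.app h3 hK c hT (fun w hw => by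
      obtain ⟨t0, v, l, hb, m, b, h5, h6, h7⟩ := h2 w hw
      have h8 := hκ t0 h5 v l hb m b h6
      rw [← h7, Finsupp.linearCombination_single, one_smul] at h8
      rw [h8, add_neg_cancel]) v0
    rw [h1] at h4
    exact add_neg_eq_zero.mp h4
  rw [key p, key p']

end Pool.Agent.Helper21.TO
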