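import Mathlib
import Pool.Agent.Helper9.NS
import Pool.Agent.Helper21.TO.Defs

/-!
# Block TO-Emb: a common extension of two function fields
`K` is finite over `k⟮τ⟯` and `L` is finite over `k⟮t⟯`
(`VC.IsFunctionField.finiteDimensional` in Helper26/VC/Main3.lean). Let `Ω` be an algebraic closure of
`K` (`AlgebraicClosure K`, in `Type u`). The `k`-homomorphism `k⟮t⟯ → k⟮τ⟯ → Ω`, `t ↦ τ` (both
are `≃ RatFunc k`: `RatFunc.algEquivOfTranscendental`) extends to `ι0 : L → Ω` (`L` is algebraic over
`k⟮t⟯`: `IsAlgClosed.lift`). Let `K' ⊆ Ω` be the subfield generated by `K` and `ι0 (L)`: it is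
generated over `K` by the images of finitely many generators of `L` over `k⟮t⟯`, all algebraic over
`K`, so it is finite over `K` (`IntermediateField.finiteDimensional_adjoin`), and a function field
by `VF.ff_ext`. `ι` is `ι0` with values in `K'`. (`VC.exists_cover` in Helper26/VC/Main4.lean is a
similar statement, perhaps usable directly.)
-/

set_option linter.unusedSectionVars false

namespace Pool.Agent.Helper21.TO

open VC VF Function Polynomial IntermediateField
open Pool.Agent.Helper51.EW (Wei WPt aff zeroPt)

universe u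

variable {k : Type u} [Field k] [IsAlgClosed k] [CharZero k]

theorem emb {L K : Type u} [Field L] [Algebra k L] [Field K] [Algebra k K]
    (hL : IsFunctionField k L) (hK : IsFunctionField k K) (t : L) (ht : Transcendental k t)
    (τ : K) (hτ : Transcendental k τ) :
    ∃ (K' : Type u) (_ : Field K') (_ : Algebra k K') (_ : Algebra K K')
      (_ : IsScalarTower k K K') (_ : IsFunctionField k K') (ι : L →ₐ[k] K'),
      ι t = algebraMap K K' τ := by
  have hfin : FiniteDimensional k⟮t⟯ L := hL.finiteDimensional ht
  let φ0 : k⟮t⟯ →ₐ[k] K := k⟮τ⟯.val.comp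
    ((RatFunc.algEquivOfTranscendental τ hτ).toAlgHom.comp
      (RatFunc.algEquivOfTranscendental t ht).symm.toAlgHom)
  have hφ0 : φ0 (IntermediateField.AdjoinSimple.gen k t) = τ := by
    change ((RatFunc.algEquivOfTranscendental τ hτ)
      ((RatFunc.algEquivOfTranscendental t ht).symm (IntermediateField.AdjoinSimple.gen k t)) : K) = τ
    rw [RatFunc.algEquivOfTranscendental_symm_gen, RatFunc.algEquivOfTranscendental_X]
  let φ : k⟮t⟯ →ₐ[k] AlgebraicClosure K := (IsScalarTower.toAlgHom k K (AlgebraicClosure K)).comp φ0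
  let a1 : Algebra k⟮t⟯ (AlgebraicClosure K) := φ.toRingHom.toAlgebra
  have a2 : IsScalarTower k k⟮t⟯ (AlgebraicClosure K) :=
    IsScalarTower.of_algebraMap_eq (fun x => (φ.commutes x).symm)
  have a3 : Algebra.IsAlgebraic k⟮t⟯ L := Algebra.IsAlgebraic.of_finite _ _
  let ι0 : L →ₐ[k⟮t⟯] AlgebraicClosure K := IsAlgClosed.lift
  have hι0 : ∀ c : k⟮t⟯, ι0 (algebraMap k⟮t⟯ L c) = algebraMap K (AlgebraicClosure K) (φ0 c) :=
    fun c => ι0.commutes c
  let b := Module.finBasis k⟮t⟯ L
  let S : Set (AlgebraicClosure K) := Set.range fun i => ι0 (b i)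
  have hS : Finite S := (Set.finite_range _).to_subtype
  let K' : IntermediateField K (AlgebraicClosure K) := IntermediateField.adjoin K S
  have hfin' : FiniteDimensional K K' := by
    apply IntermediateField.finiteDimensional_adjoin
    intro x _
    exact (Algebra.IsAlgebraic.isAlgebraic x).isIntegral
  have hmem : ∀ x : L, ι0 x ∈ K' := by
    intro x
    rw [← b.sum_repr x, map_sum]
    refine sum_mem fun i _ => ?_
    rw [Algebra.smul_def, map_mul, hι0]
    exact mul_mem (K'.algebraMap_mem _) (IntermediateField.subset_adjoin K S ⟨i, rfl⟩)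
  let ι : L →ₐ[k] K' :=
    { toFun := fun x => ⟨ι0 x, hmem x⟩
      map_one' := Subtype.ext (map_one ι0)
      map_mul' := fun x y => Subtype.ext (map_mul ι0 x y)
      map_zero' := Subtype.ext (map_zero ι0)
      map_add' := fun x y => Subtype.ext (map_add ι0 x y)
      commutes' := fun r => Subtype.ext (by
        change ι0 (algebraMap k L r) = algebraMap k (AlgebraicClosure K) r
        rw [IsScalarTower.algebraMap_apply k k⟮t⟯ L, hι0, φ0.commutes,
          ← IsScalarTower.algebraMap_apply]) }
  refine ⟨K', inferInstance, inferInstance, inferInstance, inferInstance, ff_ext (F := K) hK, ι,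
    Subtype.ext ?_⟩
  change ι0 t = algebraMap K (AlgebraicClosure K) τ
  have h1 := hι0 (IntermediateField.AdjoinSimple.gen k t)
  rw [hφ0] at h1
  exact h1

end Pool.Agent.Helper21.TO
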