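import Mathlib
import Pool.Agent.Helper9.NS
import Pool.Agent.Helper21.TO.Defs
import Pool.Agent.Helper21.TO.Defs2
import Pool.Agent.Helper21.TO.BaseFacts
import Pool.Agent.Helper21.TO.RedMap
import Pool.Agent.Helper21.TO.RedAdd
import Pool.Agent.Helper21.TO.JVal
import Pool.Agent.Helper21.TO.CycJ
import Pool.Agent.Helper21.TO.PsiM

/-!
# Block TO-StarLoc: the local comparison
Second alternative of `pk.cmp` (good fibre; `obtain ⟨s, At, Bt, m, pow, cmp⟩ := pk` and `subst`): `P`
has a reduction `P1` (`red_exists`, the discriminant is `disc W c ≠ 0`; `RedData` from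
`Base.scale` and `Over`), `j • P` has the reduction `j • P1` (`red_nsmul`), so `Pt = j • P1`
(`red_unique`). The value is `ptJ c P1` (`eval_ptL`), and
`cycJ (ptJ c P1) ~ m.cyc P1` (`cycJ_eq`), `j • m.cyc P1 ~ m.cyc (j • P1)` (`Model.nul_cyc_nsmul`).
First alternative: `m.cyc Pt` is `Nul`, and `cycJ (value) = 0` by `cycJ_bad`: the value of a point with
coordinates over `(1, ι t)` at `w` is `WPt.mk b` with `b.u` proportional to `c`
(`EW.exists_coords`: coordinates `a` of the point and `b` of the value with `a.u i → b.u i`; `a.u` is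
proportional to `(1, ι t)` and to `ι l (1, ι t) → c`; both `b.u` and `c` are nonzero, so they
are proportional: cross products), so `disc W b.u = 0`.
-/

set_option linter.unusedSectionVars false

namespace Pool.Agent.Helper21.TO

open VC VF Function Polynomial
open Pool.Agent.Helper51.EW (Wei WPt aff zeroPt)

universe u

variable {k : Type u} [Field k] [IsAlgClosed k] [CharZero k] {W : Wei k} {L : Type u} [Field L]
  [Algebra k L]

private lemma ptL_u56 (D : Dat W L) {K : Type u} [Field K] [Algebra k K] (ι : L →ₐ[k] K)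
    (P : EPt (ι D.a) (ι D.b)) :
    ∃ a0 : Pool.Agent.Helper51.EW.Coord W K, ptL D ι P = WPt.mk a0 ∧ a0.u = ![1, ι D.t] := by
  rcases P with _ | ⟨x, y, h⟩
  · exact ⟨_, rfl, rfl⟩
  · exact ⟨_, rfl, rfl⟩

private lemma cyc_bad56 (D : Dat W L) {v : Place k L} {l : L} {c : Fin 2 → k}
    (hb : Base D v l c) (hd : disc W c = 0) {K : Type u} [Field K]
    [Algebra k K] (hK : IsFunctionField k K) (ι : L →ₐ[k] K) {w : Place k K} (ho : Over v ι w)
    (P : EPt (ι D.a) (ι D.b)) : cycJ D (W.surface.eval hK (ptL D ι P) w) = 0 := by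
  obtain ⟨a, b, h1, h2, h3, -⟩ := Pool.Agent.Helper51.EW.exists_coords hK w (ptL D ι P)
  obtain ⟨a0, h4, h5⟩ := ptL_u56 D ι P
  obtain ⟨μ, c', hμ, -, h6, -⟩ := Pool.Agent.Helper51.EW.mk_eq_iff.mp (h4.symm.trans h1)
  have h7 : ∀ i, IsRes w (ι l * (![1, ι D.t] : Fin 2 → K) i) (c i) := by
    intro i
    have h8 := ho _ _ (hb.res i)
    have e : ι (l * (![1, D.t] : Fin 2 → L) i) = ι l * (![1, ι D.t] : Fin 2 → K) i := by
      rw [map_mul]
      fin_cases i
      · simp
      · simp
    rwa [e] at h8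
  have h8 : ∀ i j, b.u i * c j = b.u j * c i := by
    intro i j
    have f1 := (h3 i).mul (h7 j)
    have f2 := (h3 j).mul (h7 i)
    have e : a.u i * (ι l * (![1, ι D.t] : Fin 2 → K) j) =
        a.u j * (ι l * (![1, ι D.t] : Fin 2 → K) i) := by
      rw [h6 i, h6 j, h5]
      ring
    rw [e] at f1
    exact f1.unique f2
  obtain ⟨j, hj⟩ := Function.ne_iff.mp hb.c_ne
  have hj' : c j ≠ 0 := hj
  rw [h2]
  apply cycJ_bad
  have e : b.u = fun i => b.u j / c j * c i := by
    funext i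
    have := h8 i j
    field_simp
    linear_combination this
  unfold disc at hd ⊢
  rw [e, Pool.Agent.Helper51.EW.aeval_smul W.hA, Pool.Agent.Helper51.EW.aeval_smul W.hB]
  linear_combination (b.u j / c j) ^ (12 * W.N) * hd

theorem star_loc {D : Dat W L} {v : Place k L} (pk : Pk D v) {K : Type u} [Field K]
    [Algebra k K] (hK : IsFunctionField k K) (ι : L →ₐ[k] K) {w : Place k K} (ho : Over v ι w)
    (P : EPt (ι D.a) (ι D.b)) {j : ℕ} {Pt : EPt pk.At pk.Bt} (hP : Red w (ι pk.s) (j • P) Pt) :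
    Nul D.S (j • cycJ D (W.surface.eval hK (ptL D ι P) w) - pk.m.cyc Pt) := by
  obtain ⟨s, At, Bt, m, pow, cmp⟩ := pk
  rcases cmp with ⟨l, c, hb, hdc, hnul⟩ | ⟨l, c, hb, hdc, hs, hAt, hBt⟩
  · rw [cyc_bad56 D hb hdc hK ι ho P, smul_zero, zero_sub]
    exact (hnul Pt).neg
  · subst hs hAt hBt
    obtain ⟨g1, g2, g3⟩ := hb.scale
    have hc : c ≠ 0 := hb.c_ne
    have hrd : RedData w (ι (l ^ W.N)) (ι D.a) (ι D.b) (MvPolynomial.aeval c W.A)
        (MvPolynomial.aeval c W.B) := by
      refine ⟨hK, (_root_.map_ne_zero ι).mpr g1, ?_, ?_⟩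
      · have h := ho _ _ g2
        rwa [map_mul, map_pow ι _ 4] at h
      · have h := ho _ _ g3
        rwa [map_mul, map_pow ι _ 6] at h
    obtain ⟨P1, hP1⟩ := red_exists hrd hdc P
    have h1 := red_nsmul hrd hP1 j
    have h2 : Pt = j • P1 := red_unique hP h1
    rw [eval_ptL D hK ι ho hb hc hP1, h2]
    have h3 := (cycJ_eq D hb hdc hc m P1).nsmul j
    have h4 := h3.sub (m.nul_cyc_nsmul j P1)
    have e : j • cycJ D (ptJ W c hc P1) - m.cyc (j • P1) =
        j • (cycJ D (ptJ W c hc P1) - m.cyc P1) - (m.cyc (j • P1) - j • m.cyc P1) := by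
      rw [smul_sub]
      abel
    rw [e]
    exact h4

end Pool.Agent.Helper21.TO
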