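import Mathlib
import Pool.Agent.Helper9.NS
import Pool.Agent.Helper21.TO.Defs
import Pool.Agent.Helper21.TO.Defs2
import Pool.Agent.Helper21.TO.Emb
import Pool.Agent.Helper21.TO.Wa
import Pool.Agent.Helper21.TO.MapPt
import Pool.Agent.Helper21.TO.RedMap
import Pool.Agent.Helper21.TO.RedAdd
import Pool.Agent.Helper21.TO.FinPt
import Pool.Agent.Helper21.TO.FinBad
import Pool.Agent.Helper21.TO.Val
import Pool.Agent.Helper21.TO.PsiM
import Pool.Agent.Helper21.TO.PkEx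
import Pool.Agent.Helper21.TO.StarLoc

/-!
# Block TO-Star1: nonconstant points
By `emb` there are `K1 ⊇ K` and `ι : L → K1` with `ι t = algebraMap τ`. Let `P1 : EPt (ι D.a) (ι D.b)` be the
image of `P0` (cases; `ι D.a = A (1, ι t)` is the image of `A (1, τ)`), so that
`ptL D ι P1 = QF.wmap _ (ptJ W ![1, τ] _ P0)` (cases, `wmap_mk`), and by `QF.wmap_eval` the value of `ptL`
at `w` is the value of the given point at `res w`. `T1 = {w | res w ∈ T}` is finite
(`VP.finite_res`). For `w ∈ T1` let `v_w = Place.comap D.hL hK1 ι w` and `pk_w` a package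
(`exists_pk`, choice). `pk_w.pow` gives `j_w > 0` with `j_w • P1` having a reduction; let
`j = ∏ j_w` over `T1` (finite product), then `j • P1` has a reduction `a_w` at `w` for all `w ∈ T1`
(`red_nsmul`). Choose `X0 ∈ k` with: for all `w ∈ T1`: `X0 ^ 3 + At X0 + Bt ≠ 0` and all points `b` of
`EPt At Bt` with `x`-coordinate `X0` satisfy: `b` and `a_w + b` are good (`exists_X` for one `w`; here
for finitely many `w`: the excluded `X0` are finitely many for each `w`, `Model.finite_bad`,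
`Model.finite_bad_add`; `k` is infinite). By `wa` there is `z ∈ K1` with
`ι s_w ^ 2 z → X0` for all `w ∈ T1`. Let `K2 ⊇ K1` contain `y` with
`y ^ 2 = z ^ 3 + ι a z + ι b` (`VF.exists_roots`), `κ : K1 → K2`, `ι2 = κ ∘ ι`.
If `T1` is empty take `P = Q` any point (`P = Q` a constant, `pconst`; there is a point of `S`: the
value of any `K`-point, e.g. from a model and a good point, `Model.sp_good`). Otherwise `(z, y)` is
nonsingular (`nonsing_of_x` at some `w2` over `w ∈ T1`); `U = mk z y : EPt (ι2 D.a) (ι2 D.b)`. At `w2` over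
`w ∈ T1`: `U` reduces to a good `b` (`red_of_x`, `RedData.map`), `j • mapPt κ P1 + U` reduces to
`a_w + b` (`red_map`, `mapPt_nsmul`, `red_add`), good, in particular `j • P + U` is affine. By
`Model.val` the values at `w2` of the points `P' = ev (j • P + U)`, `Q' = ev (U)` are
`m.sp (a_w + b)`, `m.sp b` (`ev ≠ 0` at one such `w2` suffices to define the points), and
`m.cyc a_w ~ m.sp (a_w + b) - m.sp b` (`Model.nul_cyc`). Conclude by `star_loc`.
-/

set_option linter.unusedSectionVars false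

namespace Pool.Agent.Helper21.TO

open VC VF Function Polynomial
open Pool.Agent.Helper51.EW (Wei WPt aff zeroPt)

universe u

variable {k : Type u} [Field k] [IsAlgClosed k] [CharZero k] {W : Wei k} {L : Type u} [Field L]
  [Algebra k L]

private lemma exists_ptL6 (D : Dat W L) {K : Type u} [Field K] [Algebra k K] (τ : K)
    (P0 : EPt (MvPolynomial.aeval ![1, τ] W.A) (MvPolynomial.aeval ![1, τ] W.B))
    {K1 : Type u} [Field K1] [Algebra k K1] (κ : K →ₐ[k] K1) (ι : L →ₐ[k] K1) (h : ι D.t = κ τ) :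
    ∃ P1 : EPt (ι D.a) (ι D.b),
      Pool.Agent.Helper83.QF.wmap κ (ptJ W ![1, τ] (one_t_ne _) P0) = ptL D ι P1 := by
  have e : (fun i => κ ((![1, τ] : Fin 2 → K) i)) = ![1, κ τ] := by
    funext i
    fin_cases i
    · simp
    · simp
  have hF : ∀ F : MvPolynomial (Fin 2) k, κ (MvPolynomial.aeval ![1, τ] F) =
      MvPolynomial.aeval ![1, ι D.t] F := by
    intro F
    have h1 := MvPolynomial.comp_aeval_apply (R := k) (![1, τ] : Fin 2 → K) κ F
    rw [e, ← h] at h1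
    exact h1
  have hA : κ (MvPolynomial.aeval ![1, τ] W.A) = ι D.a := by rw [hF, map_cA]
  have hB : κ (MvPolynomial.aeval ![1, τ] W.B) = ι D.b := by rw [hF, map_cB]
  rcases P0 with _ | ⟨x, y, hxy⟩
  · refine ⟨0, ?_⟩
    change WPt.mk (Pool.Agent.Helper83.QF.cmap κ (Pool.Agent.Helper51.EW.zeroC ![1, τ] _)) =
      WPt.mk (Pool.Agent.Helper51.EW.zeroC ![1, ι D.t] _)
    refine Pool.Agent.Helper51.EW.mk_eq_iff.mpr ⟨1, 1, one_ne_zero, one_ne_zero, fun i => ?_,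
      fun i => ?_⟩
    · rw [one_mul]
      change (![1, ι D.t] : Fin 2 → K1) i = κ ((![1, τ] : Fin 2 → K) i)
      rw [h, ← e]
    · rw [one_pow, one_mul, one_mul]
      change (![0, 1, 0] : Fin 3 → K1) i = κ ((![0, 1, 0] : Fin 3 → K) i)
      fin_cases i <;> simp
  · have hns : (sw (ι D.a) (ι D.b)).toAffine.Nonsingular (κ x) (κ y) := by
      rw [← hA, ← hB]
      exact nonsingular_map κ hxy
    refine ⟨EPt.mk (κ x) (κ y) hns, ?_⟩
    change WPt.mk (Pool.Agent.Helper83.QF.cmap κ (Pool.Agent.Helper51.EW.affC ![1, τ] x y _ _)) =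
      WPt.mk (Pool.Agent.Helper51.EW.affC ![1, ι D.t] (κ x) (κ y) _ _)
    refine Pool.Agent.Helper51.EW.mk_eq_iff.mpr ⟨1, 1, one_ne_zero, one_ne_zero, fun i => ?_,
      fun i => ?_⟩
    · rw [one_mul]
      change (![1, ι D.t] : Fin 2 → K1) i = κ ((![1, τ] : Fin 2 → K) i)
      rw [h, ← e]
    · rw [one_pow, one_mul, one_mul]
      change (![κ x, κ y, 1] : Fin 3 → K1) i = κ ((![x, y, 1] : Fin 3 → K) i)
      fin_cases i <;> simp

/-- The reduction data of a model in a larger field. -/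
private lemma redData6 {D : Dat W L} {v : Place k L} {s : L} {At Bt : k} (m : Model D v s At Bt)
    {K : Type u} [Field K] [Algebra k K] (hK : IsFunctionField k K) (ι : L →ₐ[k] K)
    {w : Place k K} (ho : Over v ι w) : RedData w (ι s) (ι D.a) (ι D.b) At Bt := by
  refine ⟨hK, (_root_.map_ne_zero ι).mpr m.s_ne, ?_, ?_⟩
  · have h1 := ho _ _ m.hA
    rwa [map_mul, map_pow] at h1
  · have h1 := ho _ _ m.hB
    rwa [map_mul, map_pow] at h1

private lemma res_res6 {K K1 K2 : Type u} [Field K] [Algebra k K] [Field K1] [Algebra k K1]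
    [Field K2] [Algebra k K2] [Algebra K K1] [Algebra K1 K2] [Algebra K K2]
    [IsScalarTower k K K1] [IsScalarTower k K1 K2] [IsScalarTower k K K2] [IsScalarTower K K1 K2]
    (hK : IsFunctionField k K) (hK1 : IsFunctionField k K1) (hK2 : IsFunctionField k K2)
    (w : Place k K2) : VQ.res hK hK1 (VQ.res hK1 hK2 w) = VQ.res hK hK2 w := by
  refine VQ.res_comap hK hK1 hK2 (IsScalarTower.toAlgHom k K K2)
    (IsScalarTower.toAlgHom k K1 K2) (fun x => ?_) w
  exact (IsScalarTower.algebraMap_apply K K1 K2 x).symm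

theorem star1 (D : Dat W L) (hmin : Minimal W) {K : Type u} [Field K] [Algebra k K]
    (hK : IsFunctionField k K) (τ : K) (hτ : Transcendental k τ)
    (P0 : EPt (MvPolynomial.aeval ![1, τ] W.A) (MvPolynomial.aeval ![1, τ] W.B))
    (T : Set (Place k K)) (hT : T.Finite) :
    ∃ (K' : Type u) (_ : Field K') (_ : Algebra k K') (_ : Algebra K K')
      (_ : IsScalarTower k K K') (hK' : IsFunctionField k K') (m : ℕ) (P Q : D.S.Mor K'), 0 < m ∧
      ∀ w : Place k K', VQ.res hK hK' w ∈ T →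
        Nul D.S (m • cycJ D (W.surface.eval hK (ptJ W ![1, τ] (one_t_ne _) P0)
          (VQ.res hK hK' w)) -
          (Finsupp.single (D.S.eval hK' P w) 1 - Finsupp.single (D.S.eval hK' Q w) 1)) := by
  classical
  -- the set of places is not empty
  obtain ⟨v0, -⟩ := exists_place hK hτ
  obtain ⟨K1, iF1, iA1, iAK1, iT1, hK1, ι, hι⟩ := emb D.hL hK D.t D.ht τ hτ
  obtain ⟨P1, hP1⟩ := exists_ptL6 D τ P0 (IsScalarTower.toAlgHom k K K1) ι hι
  obtain ⟨T1, hT1d⟩ : ∃ T1 : Set (Place k K1), T1 = {w | VQ.res hK hK1 w ∈ insert v0 T} :=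
    ⟨_, rfl⟩
  have hT1 : T1.Finite := by
    have h1 : T1 = ⋃ v ∈ insert v0 T, {w : Place k K1 | VQ.res hK hK1 w = v} := by
      ext w
      simp only [hT1d, Set.mem_ofPred_eq, Set.mem_iUnion, exists_prop, exists_eq_right']
    rw [h1]
    exact (hT.insert v0).biUnion fun v _ => VP.finite_res hK hK1 v
  obtain ⟨w0, hw0⟩ := VP.exists_res hK hK1 v0
  have hw0T : w0 ∈ T1 := by
    rw [hT1d]
    change VQ.res hK hK1 w0 ∈ insert v0 T
    rw [show VQ.res hK hK1 w0 = v0 from hw0]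
    exact Set.mem_insert _ _
  -- the packages
  let pk : ∀ w : Place k K1, Pk D (Place.comap D.hL hK1 ι w) := fun w =>
    (exists_pk D hmin (Place.comap D.hL hK1 ι w)).some
  have ho1 : ∀ w : Place k K1, Over (Place.comap D.hL hK1 ι w) ι w := fun w =>
    over_comap D.hL hK1 ι w
  choose j hj Pt hPt using fun w => (pk w).pow K1 hK1 ι w (ho1 w) P1
  obtain ⟨J, hJ⟩ : ∃ J : ℕ, J = ∏ w ∈ hT1.toFinset, j w := ⟨_, rfl⟩
  have hJ0 : 0 < J := by
    rw [hJ]
    exact Finset.prod_pos fun w _ => hj w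
  have hred : ∀ w ∈ T1, ∃ a : EPt (pk w).At (pk w).Bt, Red w (ι (pk w).s) (J • P1) a := by
    intro w hw
    obtain ⟨c, hc⟩ : j w ∣ J := by
      rw [hJ]
      exact Finset.dvd_prod_of_mem _ (hT1.mem_toFinset.mpr hw)
    refine ⟨c • Pt w, ?_⟩
    rw [hc, mul_comm, mul_smul]
    exact red_nsmul (redData6 (pk w).m hK1 ι (ho1 w)) (hPt w) c
  have hX : ∀ w, ∃ X : k, w ∈ T1 → ∃ a : EPt (pk w).At (pk w).Bt,
      Red w (ι (pk w).s) (J • P1) a ∧ X ^ 3 + (pk w).At * X + (pk w).Bt ≠ 0 ∧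
        ∀ Y h, (pk w).m.Good (EPt.mk X Y h) ∧ (pk w).m.Good (a + EPt.mk X Y h) := by
    intro w
    by_cases hw : w ∈ T1
    · obtain ⟨a, ha⟩ := hred w hw
      obtain ⟨X, h1, h2⟩ := exists_X _ ((Model.finite_bad (pk w).m).union
        (Model.finite_bad_add (pk w).m a))
      refine ⟨X, fun _ => ⟨a, ha, h1, fun Y h => ?_⟩⟩
      have h3 := h2 Y h
      simp only [Set.mem_union, Set.mem_ofPred_eq, not_or, not_not] at h3
      exact h3
    · exact ⟨0, fun h => absurd h hw⟩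
  choose X0 hX0 using hX
  obtain ⟨z, hz⟩ := wa hK1 T1 hT1 (fun w => ι (pk w).s ^ 2)
    (fun w => pow_ne_zero 2 ((_root_.map_ne_zero ι).mpr (pk w).m.s_ne)) X0
  -- the extension
  obtain ⟨K2, iF2, iA2, iAK2, iT2, y, hK2, hy⟩ := VF.exists_roots hK1 (m := 2) two_ne_zero
    (fun _ : Fin 1 => z ^ 3 + ι D.a * z + ι D.b)
  let iA3 : Algebra K K2 := ((algebraMap K1 K2).comp (algebraMap K K1)).toAlgebra
  have iT3 : IsScalarTower K K1 K2 := IsScalarTower.of_algebraMap_eq fun x => rfl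
  have iT4 : IsScalarTower k K K2 := by
    refine IsScalarTower.of_algebraMap_eq fun x => ?_
    change algebraMap k K2 x = algebraMap K1 K2 (algebraMap K K1 (algebraMap k K x))
    rw [← IsScalarTower.algebraMap_apply k K K1, ← IsScalarTower.algebraMap_apply k K1 K2]
  obtain ⟨κ, hκ⟩ : ∃ κ : K1 →ₐ[k] K2, κ = IsScalarTower.toAlgHom k K1 K2 := ⟨_, rfl⟩
  have ho2 : ∀ w : Place k K2, Over (VQ.res hK1 hK2 w) κ w := by
    intro w
    rw [hκ]
    exact over_res hK1 hK2 w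
  have ho3 : ∀ w : Place k K2, Over (Place.comap D.hL hK1 ι (VQ.res hK1 hK2 w)) (κ.comp ι) w :=
    fun w => (ho1 _).comp (ho2 w)
  have heq : y 0 ^ 2 = κ z ^ 3 + κ (ι D.a) * κ z + κ (ι D.b) := by
    rw [hy 0, ← map_mul, ← map_pow, ← map_add, ← map_add, hκ]
    rfl
  have hrd : ∀ w : Place k K2, RedData w (κ (ι (pk (VQ.res hK1 hK2 w)).s)) (κ (ι D.a))
      (κ (ι D.b)) (pk (VQ.res hK1 hK2 w)).At (pk (VQ.res hK1 hK2 w)).Bt := fun w =>
    (redData6 (pk (VQ.res hK1 hK2 w)).m hK1 ι (ho1 _)).map hK2 κ (ho2 w)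
  have hzr : ∀ w : Place k K2, VQ.res hK1 hK2 w ∈ T1 →
      IsRes w (κ (ι (pk (VQ.res hK1 hK2 w)).s) ^ 2 * κ z) (X0 (VQ.res hK1 hK2 w)) := by
    intro w hw
    have h1 := ho2 w _ _ (hz _ hw)
    rwa [map_mul, map_pow] at h1
  obtain ⟨w2, hw2⟩ := VP.exists_res hK1 hK2 w0
  have hw2' : VQ.res hK1 hK2 w2 ∈ T1 := by
    rw [show VQ.res hK1 hK2 w2 = w0 from hw2]
    exact hw0T
  have hns : (sw (κ (ι D.a)) (κ (ι D.b))).toAffine.Nonsingular (κ z) (y 0) := by
    obtain ⟨a, -, h1, -⟩ := hX0 _ hw2'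
    exact nonsing_of_x (hrd w2) h1 (hzr w2 hw2') heq
  -- the reductions
  have hmain : ∀ w : Place k K2, VQ.res hK1 hK2 w ∈ T1 →
      ∃ a b : EPt (pk (VQ.res hK1 hK2 w)).At (pk (VQ.res hK1 hK2 w)).Bt,
        Red (VQ.res hK1 hK2 w) (ι (pk (VQ.res hK1 hK2 w)).s) (J • P1) a ∧
        Red w (κ (ι (pk (VQ.res hK1 hK2 w)).s)) (EPt.mk (κ z) (y 0) hns) b ∧
        Red w (κ (ι (pk (VQ.res hK1 hK2 w)).s))
          (J • mapPt κ P1 + EPt.mk (κ z) (y 0) hns) (a + b) ∧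
        (pk (VQ.res hK1 hK2 w)).m.Good b ∧ (pk (VQ.res hK1 hK2 w)).m.Good (a + b) := by
    intro w hw
    obtain ⟨a, ha, h1, h2⟩ := hX0 _ hw
    obtain ⟨Y, h', -, hU⟩ := red_of_x (hrd w) h1 (hzr w hw) hns
    refine ⟨a, EPt.mk _ Y h', ha, hU, ?_, (h2 Y h').1, (h2 Y h').2⟩
    refine red_add (hrd w) ?_ hU
    rw [← mapPt_nsmul]
    exact (red_map hK1 κ (ho2 w) (J • P1) a).mpr ha
  obtain ⟨x', y', h', hxy⟩ : ∃ x' y' h', J • mapPt κ P1 + EPt.mk (κ z) (y 0) hns =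
      EPt.mk (a := κ (ι D.a)) (b := κ (ι D.b)) x' y' h' := by
    obtain ⟨a, b, -, -, h1, -, h2⟩ := hmain w2 hw2'
    rcases hcase : J • mapPt κ P1 + EPt.mk (κ z) (y 0) hns with _ | ⟨x', y', h'⟩
    · rw [hcase] at h1
      have h3 : a + b = 0 := h1
      rw [h3] at h2
      exact absurd h2 id
    · exact ⟨x', y', h', rfl⟩
  rw [hxy] at hmain
  obtain ⟨a0, b0, -, hr1, hr2, hg1, hg2⟩ := hmain w2 hw2'
  obtain ⟨hneQ, hsQ, -⟩ := (pk (VQ.res hK1 hK2 w2)).m.val hK2 (κ.comp ι) (ho3 w2) hr1 hg1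
  obtain ⟨hneP, hsP, -⟩ := (pk (VQ.res hK1 hK2 w2)).m.val hK2 (κ.comp ι) (ho3 w2) hr2 hg2
  refine ⟨K2, iF2, iA2, iA3, iT4, hK2, J, ppt _ hneP hsP, ppt _ hneQ hsQ, hJ0, ?_⟩
  intro w hw
  have hww : VQ.res hK1 hK2 w ∈ T1 := by
    rw [hT1d]
    change VQ.res hK hK1 (VQ.res hK1 hK2 w) ∈ insert v0 T
    rw [res_res6 hK hK1 hK2 w]
    exact Set.mem_insert_of_mem _ hw
  obtain ⟨a, b, h1, h2, h3, h4, h5⟩ := hmain w hww
  obtain ⟨hneQ', hsQ', hQ⟩ := (pk (VQ.res hK1 hK2 w)).m.val hK2 (κ.comp ι) (ho3 w) h2 h4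
  obtain ⟨hneP', hsP', hP⟩ := (pk (VQ.res hK1 hK2 w)).m.val hK2 (κ.comp ι) (ho3 w) h3 h5
  have h6 := star_loc (pk (VQ.res hK1 hK2 w)) hK1 ι (ho1 _) P1 h1
  have h7 := (pk (VQ.res hK1 hK2 w)).m.nul_cyc a b h4 h5
  have h8 : W.surface.eval hK (ptJ W ![1, τ] (one_t_ne _) P0) (VQ.res hK hK2 w) =
      W.surface.eval hK1 (ptL D ι P1) (VQ.res hK1 hK2 w) := by
    rw [← hP1, Pool.Agent.Helper83.QF.wmap_eval hK hK1, res_res6 hK hK1 hK2 w]
  rw [h8]
  have h9 := h6.add h7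
  rw [← hQ, ← hP] at h9
  have e : J • cycJ D (W.surface.eval hK1 (ptL D ι P1) (VQ.res hK1 hK2 w)) -
      (pk (VQ.res hK1 hK2 w)).m.cyc a + ((pk (VQ.res hK1 hK2 w)).m.cyc a -
        (Finsupp.single ((proj k D.I).eval hK2 (ppt _ hneP' hsP') w) 1 -
          Finsupp.single ((proj k D.I).eval hK2 (ppt _ hneQ' hsQ') w) 1)) =
      J • cycJ D (W.surface.eval hK1 (ptL D ι P1) (VQ.res hK1 hK2 w)) -
        (Finsupp.single ((proj k D.I).eval hK2 (ppt _ hneP' hsP') w) 1 -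
          Finsupp.single ((proj k D.I).eval hK2 (ppt _ hneQ' hsQ') w) 1) := by abel
  rw [e] at h9
  exact h9

end Pool.Agent.Helper21.TO
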