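import Mathlib
import Pool.Agent.Helper9.NS
import Pool.Agent.Helper21.TO.Defs
import Pool.Agent.Helper21.TO.Defs2
import Pool.Agent.Helper21.TO.ExModel
import Pool.Agent.Helper21.TO.MapPt
import Pool.Agent.Helper21.TO.RedMap
import Pool.Agent.Helper21.TO.RedAdd
import Pool.Agent.Helper21.TO.FinPt
import Pool.Agent.Helper21.TO.FinBad
import Pool.Agent.Helper21.TO.Val
import Pool.Agent.Helper21.TO.PsiM
import Pool.Agent.Helper21.TO.BaseFacts
import Pool.Agent.Helper21.TO.JVal
import Pool.Agent.Helper21.TO.CycJ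

/-!
# Block TO-Star2: points over a constant point of the projective line
`exists_over_base`, `Base.scale`, `exists_model`: a place `v`, `l` and a model `m` with scaling `l ^ N`.
`P0 : EPt (algebraMap (A c)) (algebraMap (B c))` (as `A (algebraMap ∘ c) = algebraMap (A c)`,
`MvPolynomial.aeval_algebraMap_apply`; transport by cases). `RedData w 1 (algebraMap At) (algebraMap Bt) At
Bt` is trivial. For all `w` there is a reduction `a_w` (`red_exists`, `disc ≠ 0`). Choose
`b = mk X0 Y0 ∈ EPt At Bt` such that `b` and `a_w + b` are good for all `w ∈ T`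
(`Model.finite_bad`, `Model.finite_bad_add`, `infinite_EPt`). The constant point
`mk (algebraMap X0) (algebraMap Y0)` (`mapPt (Algebra.ofId k K)`) has the reduction `b` at all `w`. If
`T` is empty take constants (as in Star1). Otherwise `P0 + b` has the reduction `a_w + b`
(`red_add`), in particular it is affine `mk x y`; take `P = evt x y`, `Q = evt b`
(`Model.val_const`), `K' = K`, `m = 1` (`VQ.res hK hK w = w` for the trivial extension: `Place.ext`;
`Algebra.id`). The value of the given point at `w` is `ptJ c a_w` (`eval_ptJ` with `u = algebraMap ∘ c`,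
`l = 1`), and `cycJ (ptJ c a_w) ~ m.cyc a_w ~ m.sp (a_w + b) - m.sp b`.
-/

set_option linter.unusedSectionVars false

namespace Pool.Agent.Helper21.TO

open VC VF Function Polynomial
open Pool.Agent.Helper51.EW (Wei WPt aff zeroPt)

universe u

variable {k : Type u} [Field k] [IsAlgClosed k] [CharZero k] {W : Wei k} {L : Type u} [Field L]
  [Algebra k L]

private lemma cast_h14 {K : Type u} [Field K] [Algebra k K] {a b a' b' : K} (ha : a = a')
    (hb : b = b') (P : EPt a b) :
    ∃ P' : EPt a' b', ∀ (w : Place k K) (σ : K) (At Bt : k) (Pt : EPt At Bt),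
      Red w σ P' Pt → Red w σ P Pt := by
  subst ha hb
  exact ⟨P, fun _ _ _ _ _ h => h⟩

private lemma good_affine_h14 {D : Dat W L} {v : Place k L} {s : L} {At Bt : k}
    {m : Model D v s At Bt} {b : EPt At Bt} (h : m.Good b) :
    ∃ X Y hXY, b = EPt.mk X Y hXY := by
  rcases b with _ | ⟨X, Y, hXY⟩
  · exact h.elim
  · exact ⟨X, Y, hXY, rfl⟩

theorem star2 (D : Dat W L) {K : Type u} [Field K] [Algebra k K]
    (hK : IsFunctionField k K) (c : Fin 2 → k) (hc : c 0 = 1 ∨ (c 0 = 0 ∧ c 1 = 1))
    (hd : disc W c ≠ 0) (hu : (fun i => algebraMap k K (c i)) ≠ 0)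
    (P0 : EPt (MvPolynomial.aeval (fun i => algebraMap k K (c i)) W.A)
      (MvPolynomial.aeval (fun i => algebraMap k K (c i)) W.B))
    (T : Set (Place k K)) (hT : T.Finite) :
    ∃ (P Q : D.S.Mor K), ∀ w ∈ T,
        Nul D.S (cycJ D (W.surface.eval hK (ptJ W _ hu P0) w) -
          (Finsupp.single (D.S.eval hK P w) 1 - Finsupp.single (D.S.eval hK Q w) 1)) := by
  obtain ⟨v, l, hb⟩ := exists_over_base D c hc
  obtain ⟨hs, hA, hB⟩ := hb.scale
  obtain ⟨m⟩ := exists_model D v hs hA hB
  have hcne : c ≠ 0 := hb.c_ne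
  have eA : MvPolynomial.aeval (fun i => algebraMap k K (c i)) W.A =
      algebraMap k K (MvPolynomial.aeval c W.A) := MvPolynomial.aeval_algebraMap_apply K c W.A
  have eB : MvPolynomial.aeval (fun i => algebraMap k K (c i)) W.B =
      algebraMap k K (MvPolynomial.aeval c W.B) := MvPolynomial.aeval_algebraMap_apply K c W.B
  obtain ⟨P1, hP1⟩ := cast_h14 (k := k) eA eB P0
  have hrd : ∀ w : Place k K, RedData w (1 : K) (algebraMap k K (MvPolynomial.aeval c W.A))
      (algebraMap k K (MvPolynomial.aeval c W.B)) (MvPolynomial.aeval c W.A)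
      (MvPolynomial.aeval c W.B) := fun w =>
    ⟨hK, one_ne_zero, by rw [one_pow, one_mul]; exact isRes_const _,
      by rw [one_pow, one_mul]; exact isRes_const _⟩
  have hΔ : 4 * (MvPolynomial.aeval c W.A) ^ 3 + 27 * (MvPolynomial.aeval c W.B) ^ 2 ≠ 0 := hd
  choose a ha using fun w : Place k K => red_exists (hrd w) hΔ P1
  rcases T.eq_empty_or_nonempty with hT0 | ⟨w0, hw0⟩
  · obtain ⟨b, hgb, -, -⟩ := m.exists_good 0 ∅ Set.finite_empty
    obtain ⟨X0, Y0, h0, rfl⟩ := good_affine_h14 hgb
    obtain ⟨hs0, -⟩ := m.sp_good (h := h0) hgb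
    obtain ⟨q, -⟩ := pconst K hK (ppt (m.evt X0 Y0) hgb hs0)
    refine ⟨q, q, fun w hw => ?_⟩
    rw [hT0] at hw
    exact hw.elim
  · have hfin : ({b | ¬ m.Good b} ∪ ⋃ w ∈ T, {b | ¬ m.Good (a w + b)}).Finite :=
      m.finite_bad.union (hT.biUnion fun w _ => m.finite_bad_add (a w))
    haveI := infinite_EPt (MvPolynomial.aeval c W.A) (MvPolynomial.aeval c W.B)
    obtain ⟨b, hbn⟩ := hfin.exists_notMem
    rw [Set.mem_union, not_or] at hbn
    have hgb : m.Good b := not_not.mp hbn.1
    have hgab : ∀ w ∈ T, m.Good (a w + b) := by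
      intro w hw
      by_contra hcon
      apply hbn.2
      rw [Set.mem_iUnion₂]
      exact ⟨w, hw, hcon⟩
    obtain ⟨X0, Y0, h0, hbeq⟩ := good_affine_h14 hgb
    have h0' : (sw (algebraMap k K (MvPolynomial.aeval c W.A))
        (algebraMap k K (MvPolynomial.aeval c W.B))).toAffine.Nonsingular
        (algebraMap k K X0) (algebraMap k K Y0) := nonsingular_map (Algebra.ofId k K) h0
    have hred : ∀ w : Place k K, Red w (1 : K) (EPt.mk (algebraMap k K X0) (algebraMap k K Y0) h0')
        b := by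
      intro w
      rw [hbeq]
      refine ⟨?_, ?_⟩
      · rw [one_pow, one_mul]
        exact isRes_const _
      · rw [one_pow, one_mul]
        exact isRes_const _
    have hsum := fun w : Place k K => red_add (hrd w) (ha w) (hred w)
    obtain ⟨hneQ, hsQ, -⟩ := m.val_const hK (hred w0) hgb
    obtain ⟨R, hR⟩ : ∃ R, R = P1 + EPt.mk (algebraMap k K X0) (algebraMap k K Y0) h0' := ⟨_, rfl⟩
    rw [← hR] at hsum
    rcases R with _ | ⟨x, y, h⟩
    · exfalso
      have h1 : a w0 + b = 0 := hsum w0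
      have h2 := hgab w0 hw0
      rw [h1] at h2
      exact h2
    obtain ⟨hneP, hsP, -⟩ := m.val_const hK (hsum w0) (hgab w0 hw0)
    refine ⟨ppt _ hneP hsP, ppt _ hneQ hsQ, fun w hw => ?_⟩
    obtain ⟨_, _, e1⟩ := m.val_const hK (hsum w) (hgab w hw)
    obtain ⟨_, _, e2⟩ := m.val_const hK (hred w) hgb
    have e3 : W.surface.eval hK (ptJ W _ hu P0) w = ptJ W c hcne (a w) := by
      refine eval_ptJ hK hu (one_ne_zero (α := K)) hcne (fun i => ?_) ?_
      · rw [one_mul]
        exact isRes_const _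
      · rw [one_pow]
        exact hP1 _ _ _ _ _ (ha w)
    have h1 := (cycJ_eq D hb hd hcne m (a w)).add (m.nul_cyc (a w) b hgb (hgab w hw))
    rw [sub_add_sub_cancel, ← e1, ← e2, ← e3] at h1
    exact h1

end Pool.Agent.Helper21.TO
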