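import Mathlib
import Pool.Agent.Helper9.NS
import Pool.Agent.Helper51.EW.Final
import Pool.Agent.Helper83.KV.Final
import Pool.Agent.Helper83.VN.Fin

/-!
# Voisin's property for the Weierstrass models of elliptic surfaces over the projective line
-/

set_option linter.unusedSectionVars false

namespace Pool.Agent.Helper21.TO

open VC VF Function
open Pool.Agent.Helper51.EW (Wei WPt Odd exists_const negAct neg)
open Pool.Agent.Helper94.EW (even_const)

universe u

variable {k : Type u} [Field k] [IsAlgClosed k] [CharZero k] {W : Wei k}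

theorem voisin_wei (h1 : 1 ≤ W.N) {n : ℕ} (hn : W.N ≤ n) (hΔ : 4 * W.A ^ 3 + 27 * W.B ^ 2 ≠ 0)
    (a : Fin n → W.surface.Cycles) (ha : ∀ i, (a i).sum (fun _ c => c) = 0) :
    ∃ M : ℕ, 0 < M ∧ M • ∑ σ : Equiv.Perm (Fin n), ((Equiv.Perm.sign σ : ℤˣ) : ℤ) •
      extProd (fun i => a (σ i)) ∈ (W.surface.pow n).Rat := by
  refine VH.assembly_deg (negAct W) n a ha fun E hE χ Ψ h => ?_
  have hact : ∀ p : W.surface.Pt, (negAct W).act 1 p = neg p := fun p => rfl
  have hconst : ∀ (K : Type u) [Field K] [Algebra k K] (hK : IsFunctionField k K)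
      (p : W.surface.Pt), ∃ c : W.surface.Mor K, ∀ v, W.surface.eval hK c v = p :=
    fun K _ _ hK q => exists_const K hK q
  by_cases h0 : ∃ i, χ i = 0
  · right
    obtain ⟨i, hi⟩ := h0
    refine ⟨i, fun p x y => ?_⟩
    obtain ⟨h1, h2⟩ := h.one hconst p i
    refine even_const h1 (fun q => ?_) x y
    have := h2 1 q
    rw [hi, zero_mul, AddChar.map_zero_eq_one, one_mul, hact] at this
    exact this
  · left
    push Not at h0
    have hχ : ∀ i, χ i = 1 := by
      intro i
      have h1 := h0 i
      have : ∀ z : ZMod 2, z ≠ 0 → z = 1 := by decide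
      exact this _ h1
    have hE1 : E 1 = -1 := by
      have h1 : E 1 * E 1 = 1 := by
        rw [← AddChar.map_add_eq_mul]
        have : (1 : ZMod 2) + 1 = 0 := by decide
        rw [this, AddChar.map_zero_eq_one]
      rcases mul_self_eq_one_iff.mp h1 with h2 | h2
      · exact absurd (hE.1 _ h2) (by decide)
      · exact h2
    intro p
    refine Helper83.VN.odd_zero_all h1 hn hΔ ⟨h.kills, fun p i => ?_, fun i j hij p => ?_⟩ p
    · have := h.equi p i 1
      rw [hχ i, one_mul, hE1, hact] at this
      rw [this]; ring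
    · exact h.alt i j hij (by rw [hχ i, hχ j]) p

end Pool.Agent.Helper21.TO
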