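import Mathlib
import Pool.Agent.Helper9.NS
import Pool.Agent.Helper21.TO.Defs
import Pool.Agent.Helper21.TO.Defs2
import Pool.Agent.Helper21.TO.BaseFacts

/-!
# Block TO-Mini: minimality and orders
`mini`: suppose both are regular. Let `π = locp`. Let `d` be a vector in `k ^ 2` with
`det (c, d) ≠ 0`: `d = (0, 1)` if `c = (1, c1)` and `d = (1, 0)` if `c = (0, 1)`. In both cases
`l (1, t) = c + π d` (`c0 = 1`: `l = 1`, `π = t - c1`, `(1, t) = (1, c1) + (t - c1) (0, 1)`;
`c0 = 0`: `l = π = 1 / t`, `(1 / t, 1) = (0, 1) + (1 / t) (1, 0)`). So `(l ^ N) ^ 4 a = A (c + π d) = g (π)`,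
`g (T) = A (c + T d) ∈ k[T]` (`EW.aeval_smul`, homogeneity). If `g (π) / π ^ 4` is regular then
`T ^ 4 ∣ g` (`g = T ^ j g1`, `g1 (0) ≠ 0`, `g1 (π)` has order `0`, so `j ≥ 4`). Now `A` is homogeneous of
degree `4 N`: with the linear forms `u = det (X, d) / det (c, d)`, `λ = det (c, X) / det (c, d)` in
`k[X_0, X_1]`, `X = u c + λ d`, we have `A (X) = A (u c + λ d)`, and
`A (u c + λ d) = ∑ j, g_j u ^ (4 N - j) λ ^ j` where `g = ∑ g_j T ^ j` (prove it for `u = 1`, i.e. as an
identity of forms: both sides are homogeneous and they agree after `u = 1`; or expand the monomials).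
Hence `λ ^ 4 ∣ A`, and in the same way `λ ^ 6 ∣ B`; `λ` is a nonzero linear form: contradiction.
Explicitly: `c = (1, c1)`, `d = (0, 1)`: `u = X_0`, `λ = X_1 - c1 X_0`; `c = (0, 1)`, `d = (1, 0)`:
`u = X_1`, `λ = X_0`.
-/

set_option linter.unusedSectionVars false

namespace Pool.Agent.Helper21.TO

open VC VF Function Polynomial
open Pool.Agent.Helper51.EW (Wei WPt aff zeroPt)

universe u

variable {k : Type u} [Field k] [IsAlgClosed k] [CharZero k] {W : Wei k} {L : Type u} [Field L]
  [Algebra k L]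

/-- A form of degree `n` in two variables whose dehomogenisation is divisible by `T ^ m` is
divisible by the `m`-th power of the second variable. -/
private lemma X_dvd_of_hom {n m : ℕ} {G : MvPolynomial (Fin 2) k} (hG : G.IsHomogeneous n)
    (hg : (X : k[X]) ^ m ∣ MvPolynomial.aeval (![1, X] : Fin 2 → k[X]) G) :
    (MvPolynomial.X 1 : MvPolynomial (Fin 2) k) ^ m ∣ G := by
  classical
  have hdeg : ∀ e ∈ G.support, e 0 + e 1 = n := by
    intro e he
    have := hG (MvPolynomial.mem_support_iff.mp he)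
    rw [Finsupp.weight_apply, Finsupp.sum_fintype _ _ (fun i => by simp)] at this
    simpa [Fin.sum_univ_two] using this
  have h1 : MvPolynomial.aeval (![1, X] : Fin 2 → k[X]) G =
      ∑ e ∈ G.support, C (G.coeff e) * X ^ (e 1) := by
    rw [MvPolynomial.aeval_def, MvPolynomial.eval₂_eq']
    refine Finset.sum_congr rfl fun e _ => ?_
    rw [Fin.prod_univ_two]
    simp only [Matrix.cons_val_zero, Matrix.cons_val_one, one_pow, one_mul]
    rfl
  have hm : ∀ e ∈ G.support, m ≤ e 1 := by
    intro e he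
    by_contra hlt
    have h2 := (X_pow_dvd_iff.mp hg) (e 1) (by omega)
    rw [h1, finsetSum_coeff] at h2
    have h3 : ∀ e' ∈ G.support, e' ≠ e → (C (G.coeff e') * X ^ (e' 1)).coeff (e 1) = 0 := by
      intro e' he' hne
      rw [coeff_C_mul_X_pow, if_neg]
      intro h4
      apply hne
      have := hdeg e he
      have := hdeg e' he'
      ext i
      fin_cases i
      · change e' 0 = e 0
        omega
      · exact h4.symm
    rw [Finset.sum_eq_single_of_mem e he h3, coeff_C_mul_X_pow, if_pos rfl] at h2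
    exact MvPolynomial.mem_support_iff.mp he h2
  rw [← MvPolynomial.support_sum_monomial_coeff G]
  refine Finset.dvd_sum fun e he => ?_
  rw [MvPolynomial.X_pow_eq_monomial, MvPolynomial.monomial_dvd_monomial]
  refine ⟨Or.inr ?_, one_dvd _⟩
  intro i
  fin_cases i
  · simp
  · simpa using hm e he

/-- The same after a linear change of variables. -/
private lemma dvd_of_subst {n m : ℕ} {F : MvPolynomial (Fin 2) k} (hF : F.IsHomogeneous n)
    (c d : Fin 2 → k) (u lam : MvPolynomial (Fin 2) k)
    (hX : ∀ i, MvPolynomial.C (c i) * u + MvPolynomial.C (d i) * lam = MvPolynomial.X i)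
    (hg : (X : k[X]) ^ m ∣ MvPolynomial.aeval (fun i => C (c i) + C (d i) * X : Fin 2 → k[X]) F) :
    lam ^ m ∣ F := by
  set σ : Fin 2 → MvPolynomial (Fin 2) k := fun i =>
    MvPolynomial.C (c i) * MvPolynomial.X 0 + MvPolynomial.C (d i) * MvPolynomial.X 1 with hσ
  have hG : (MvPolynomial.aeval σ F).IsHomogeneous n := by
    have h1 : ∀ i, (σ i).IsHomogeneous 1 := by
      intro i
      have e1 := (MvPolynomial.isHomogeneous_C (Fin 2) (c i)).mul
        (MvPolynomial.isHomogeneous_X k (0 : Fin 2))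
      have e2 := (MvPolynomial.isHomogeneous_C (Fin 2) (d i)).mul
        (MvPolynomial.isHomogeneous_X k (1 : Fin 2))
      rw [zero_add] at e1 e2
      exact e1.add e2
    have h2 := hF.aeval σ h1
    rwa [one_mul] at h2
  have hg2 : MvPolynomial.aeval (![1, X] : Fin 2 → k[X]) (MvPolynomial.aeval σ F) =
      MvPolynomial.aeval (fun i => C (c i) + C (d i) * X : Fin 2 → k[X]) F := by
    have h := MvPolynomial.comp_aeval_apply (R := k) σ
      (MvPolynomial.aeval (R := k) (![1, X] : Fin 2 → k[X])) F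
    rw [h]
    congr 2
    funext i
    simp only [hσ, map_add, map_mul, MvPolynomial.aeval_X, MvPolynomial.aeval_C,
      Matrix.cons_val_zero, Matrix.cons_val_one, mul_one]
    rfl
  rw [← hg2] at hg
  have h3 := X_dvd_of_hom hG hg
  have h4 := map_dvd (MvPolynomial.aeval (R := k) (![u, lam] : Fin 2 → MvPolynomial (Fin 2) k)) h3
  rw [map_pow, MvPolynomial.aeval_X, MvPolynomial.comp_aeval_apply] at h4
  have h5 : (fun i => MvPolynomial.aeval (R := k) (![u, lam] : Fin 2 → MvPolynomial (Fin 2) k)
      (σ i)) = MvPolynomial.X := by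
    funext i
    simp only [hσ, map_add, map_mul, MvPolynomial.aeval_X, MvPolynomial.aeval_C,
      Matrix.cons_val_zero, Matrix.cons_val_one]
    exact hX i
  rw [h5, MvPolynomial.aeval_X_left, AlgHom.id_apply] at h4
  simpa using h4

/-- A polynomial in `π`, divided by `π ^ m`, which is regular is divisible by `T ^ m`. -/
private lemma X_pow_dvd_of_mem (hL : IsFunctionField k L) {v : Place k L} {w : L} (hw : w ≠ 0)
    (h0 : IsRes v w 0) (m : ℕ) {g : k[X]} (h : aeval w g / w ^ m ∈ v.ring) : X ^ m ∣ g := by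
  induction m generalizing g with
  | zero => simp
  | succ m ih =>
    have h1 : aeval w g / w ^ m ∈ v.ring := by
      have e : aeval w g / w ^ m = w * (aeval w g / w ^ (m + 1)) := by
        field_simp
        ring
      rw [e]
      exact v.ring.mul_mem _ _ h0.mem h
    obtain ⟨q, rfl⟩ := ih h1
    obtain ⟨r, hr⟩ := exists_res hL h
    have h2 : aeval w q = w * (aeval w (X ^ m * q) / w ^ (m + 1)) := by
      rw [map_mul, map_pow, aeval_X]
      field_simp
      ring
    have h3 := h0.mul hr
    rw [← h2, zero_mul] at h3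
    have h4 : IsRes v (aeval w q) (q.eval 0) := h0.poly
    have h5 : q.eval 0 = 0 := h4.unique h3
    have h6 : X ∣ q := by
      rw [X_dvd_iff, coeff_zero_eq_eval_zero]
      exact h5
    rw [pow_succ]
    exact mul_dvd_mul_left _ h6

/-- The divisibility of the forms. -/
private lemma form_dvd {D : Dat W L} {v : Place k L} {l w : L} {c d : Fin 2 → k}
    (hw : w ≠ 0) (h0 : IsRes v w 0) (hlc : ∀ i, l * (![1, D.t] : Fin 2 → L) i =
      algebraMap k L (c i) + algebraMap k L (d i) * w)
    {u lam : MvPolynomial (Fin 2) k}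
    (hX : ∀ i, MvPolynomial.C (c i) * u + MvPolynomial.C (d i) * lam = MvPolynomial.X i)
    {a m : ℕ} {F : MvPolynomial (Fin 2) k} (hF : F.IsHomogeneous (a * W.N))
    (h : (l ^ W.N) ^ a * MvPolynomial.aeval (![1, D.t] : Fin 2 → L) F / w ^ m ∈ v.ring) :
    lam ^ m ∣ F := by
  refine dvd_of_subst hF c d u lam hX (X_pow_dvd_of_mem D.hL hw h0 m ?_)
  have h1 := MvPolynomial.comp_aeval_apply (R := k) (fun i => C (c i) + C (d i) * X : Fin 2 → k[X])
    (aeval (R := k) w) F
  have h2 : (fun i => aeval w ((fun i => C (c i) + C (d i) * X : Fin 2 → k[X]) i)) =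
      fun i => l * (![1, D.t] : Fin 2 → L) i := by
    funext i
    rw [hlc i]
    simp
  rw [h1, h2, aeval_smul' hF]
  have h3 : l ^ (a * W.N) = (l ^ W.N) ^ a := by
    rw [← pow_mul, mul_comm]
  rw [h3]
  exact h

theorem mini {D : Dat W L} (hmin : Minimal W) {v : Place k L} {l : L} {c : Fin 2 → k}
    (hb : Base D v l c) : ¬ ((l ^ W.N) ^ 4 * D.a / locp D c ^ 4 ∈ v.ring ∧
      (l ^ W.N) ^ 6 * D.b / locp D c ^ 6 ∈ v.ring) := by
  rintro ⟨hA, hB⟩
  have hw := (ord_locp hb).1
  rcases hb with ⟨rfl, hc0, hc1⟩ | ⟨rfl, hc0, hc1, ht⟩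
  · have hlp : locp D c = D.t - algebraMap k L (c 1) := by
      unfold locp
      rw [if_neg]
      rw [hc0]
      exact one_ne_zero
    have h0 : IsRes v (locp D c) 0 := by
      rw [hlp, isRes_zero_iff]
      exact hc1
    have hlc : ∀ i, (1 : L) * (![1, D.t] : Fin 2 → L) i =
        algebraMap k L (c i) + algebraMap k L ((![0, 1] : Fin 2 → k) i) * locp D c := by
      intro i
      fin_cases i
      · simp [hc0]
      · simp [hlp]
    have hX : ∀ i, MvPolynomial.C (c i) * (MvPolynomial.X 0 : MvPolynomial (Fin 2) k) +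
        MvPolynomial.C ((![0, 1] : Fin 2 → k) i) *
          (MvPolynomial.X 1 - MvPolynomial.C (c 1) * MvPolynomial.X 0) = MvPolynomial.X i := by
      intro i
      fin_cases i
      · simp [hc0]
      · simp
    refine hmin (MvPolynomial.X 1 - MvPolynomial.C (c 1) * MvPolynomial.X 0) ?_ ?_
      ⟨form_dvd hw h0 hlc hX W.hA hA, form_dvd hw h0 hlc hX W.hB hB⟩
    · have e1 := (MvPolynomial.isHomogeneous_C (Fin 2) (c 1)).mul
        (MvPolynomial.isHomogeneous_X k (0 : Fin 2))
      rw [zero_add] at e1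
      exact (MvPolynomial.isHomogeneous_X k (1 : Fin 2)).sub e1
    · intro h
      have h2 := congrArg (MvPolynomial.eval (![0, 1] : Fin 2 → k)) h
      simp at h2
  · have hlp : locp D c = D.t⁻¹ := by
      unfold locp
      rw [if_pos hc0]
    have h0 : IsRes v (locp D c) 0 := by
      rw [hlp]
      exact ht
    have ht0 : D.t ≠ 0 := by
      intro h
      apply hw
      rw [hlp, h, inv_zero]
    have hlc : ∀ i, D.t⁻¹ * (![1, D.t] : Fin 2 → L) i =
        algebraMap k L (c i) + algebraMap k L ((![1, 0] : Fin 2 → k) i) * locp D c := by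
      intro i
      fin_cases i
      · simp [hc0, hlp]
      · simp [hc1, ht0]
    have hX : ∀ i, MvPolynomial.C (c i) * (MvPolynomial.X 1 : MvPolynomial (Fin 2) k) +
        MvPolynomial.C ((![1, 0] : Fin 2 → k) i) * MvPolynomial.X 0 = MvPolynomial.X i := by
      intro i
      fin_cases i
      · simp [hc0]
      · simp [hc1]
    exact hmin (MvPolynomial.X 0) (MvPolynomial.isHomogeneous_X k (0 : Fin 2))
      (MvPolynomial.X_ne_zero 0)
      ⟨form_dvd hw h0 hlc hX W.hA hA, form_dvd hw h0 hlc hX W.hB hB⟩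

end Pool.Agent.Helper21.TO
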