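import Mathlib
import Pool.Agent.Helper9.NS
import Pool.Agent.Helper21.TO.Defs
import Pool.Agent.Helper21.TO.Defs2
import Pool.Agent.Helper21.TO.BaseFacts
import Pool.Agent.Helper21.TO.Mini

/-!
# Block TO-Inertia: an element of the inertia group acting nontrivially on the scaling
Let `Λ = l ^ N`, `s' = s / Λ`, `Δt = 4 a ^ 3 + 27 b ^ 2` (fixed by `H`, nonzero), `e = ord (locp)`.
(1) `s ^ 12 Δt` has the residue `4 At ^ 3 + 27 Bt ^ 2 ≠ 0`, so its order is `0`. `Λ ^ 12 Δt` has the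
residue `disc W c = 0` (`Base.scale`), so its order is positive. Hence `ord s' < 0`.
(2) `- e < ord s'`: otherwise `1 / (s' locp)` is regular at `v`, so
`Λ ^ 4 a / locp ^ 4 = (s ^ 4 a) * (1 / (s' locp)) ^ 4` and `Λ ^ 6 b / locp ^ 6` are regular,
contradicting `mini`.
(3) For `τ ∈ H` with `Over v τ v`: `(τ s / s) ^ 12 = τ (s ^ 12 Δt) / (s ^ 12 Δt)` has the residue `1`, so
`τ s / s` has a residue `c0` with `c0 ^ 12 = 1` (`VF.exists_res_of_pow`). Suppose that `c0 = 1` for all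
these `τ` (otherwise we are done). `τ s' / s' = τ s / s`.
(4) For `τ ∈ H` let `v_τ = Place.comap D.hL D.hL τ v`. By `FF.approx` (Helper17/FF/Approx.lean) for the
finite set of the places `v_τ` (and `v`), `y v = s'`, `y w = 0` for `w ≠ v`, and very negative `r`
there is `y ∈ L` with: `y / s'` has the residue `1` at `v` and `y / τ⁻¹ (s')` has the residue `0` at
`v_τ` for all `τ` with `v_τ ≠ v`. So `τ y / s'` has at `v` the residue `1` if `v_τ = v`
(`τ y / τ s'` has the residue `1` as `Over v τ v`, and `τ s' / s'` has the residue `1`), and `0` if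
`v_τ ≠ v`.
(5) `Y = ∑ τ ∈ H, τ y ∈ k⟮t⟯` (`D.fixed`), `Y / s'` has the residue `#{τ | v_τ = v} ≠ 0` (it contains
`τ = 1`; characteristic zero). So `ord Y = ord s'`, and by `base_ord` it is a multiple of `e`, in
contradiction to (1), (2).
-/

set_option linter.unusedSectionVars false

namespace Pool.Agent.Helper21.TO

open VC VF Function Polynomial
open Pool.Agent.Helper51.EW (Wei WPt aff zeroPt)

universe u

variable {k : Type u} [Field k] [IsAlgClosed k] [CharZero k] {W : Wei k} {L : Type u} [Field L]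
  [Algebra k L]

private lemma isRes_inv97 {v : Place k L} {x : L} {c : k} (h : IsRes v x c) (hc : c ≠ 0) :
    IsRes v x⁻¹ c⁻¹ := by
  obtain ⟨hx, hi⟩ := h.inv_mem hc
  have h1 : x⁻¹ - algebraMap k L c⁻¹ = -((algebraMap k L c⁻¹ * x⁻¹) * (x - algebraMap k L c)) := by
    have hc' : algebraMap k L c ≠ 0 := (_root_.map_ne_zero _).mpr hc
    rw [map_inv₀]
    field_simp
    ring
  unfold IsRes
  rw [h1]
  have h2 := nonunits_mul (v.ring.mul_mem _ _ (v.algebraMap_mem c⁻¹) hi) h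
  have h3 := nonunits_mul (v.algebraMap_mem (-1)) h2
  rw [map_neg, map_one, neg_one_mul] at h3
  exact h3

private lemma isRes_div97 {v : Place k L} {x y : L} {c d : k} (h : IsRes v x c)
    (h' : IsRes v y d) (hd : d ≠ 0) : IsRes v (x / y) (c / d) := by
  rw [div_eq_mul_inv, div_eq_mul_inv]
  exact h.mul (isRes_inv97 h' hd)

private lemma ord_zero97 (hL : IsFunctionField k L) {v : Place k L} {x : L} {c : k}
    (h : IsRes v x c) (hc : c ≠ 0) : x ≠ 0 ∧ ord v.ring x = 0 := by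
  obtain ⟨hx, hi⟩ := h.inv_mem hc
  refine ⟨hx, ?_⟩
  have h1 := (FF.ord_nonneg_iff hL v hx).mpr h.mem
  have h2 := (FF.ord_nonneg_iff hL v (inv_ne_zero hx)).mpr hi
  rw [FF.ord_inv hL v hx] at h2
  omega

private lemma fix_a97 (D : Dat W L) {τ : L ≃ₐ[k] L} (hτ : τ D.t = D.t) : τ D.a = D.a := by
  have h := map_cA D (τ : L →ₐ[k] L)
  have e : ((τ : L →ₐ[k] L)) D.t = D.t := hτ
  rw [e] at h
  exact h

private lemma fix_b97 (D : Dat W L) {τ : L ≃ₐ[k] L} (hτ : τ D.t = D.t) : τ D.b = D.b := by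
  have h := map_cB D (τ : L →ₐ[k] L)
  have e : ((τ : L →ₐ[k] L)) D.t = D.t := hτ
  rw [e] at h
  exact h

theorem inertia {D : Dat W L} (hmin : Minimal W) {v : Place k L} {l : L} {c : Fin 2 → k}
    (hb : Base D v l c) (hd : disc W c = 0) {s : L} (hs : s ≠ 0) {At Bt : k}
    (hA : IsRes v (s ^ 4 * D.a) At) (hB : IsRes v (s ^ 6 * D.b) Bt)
    (hΔ : 4 * At ^ 3 + 27 * Bt ^ 2 ≠ 0) :
    ∃ τ ∈ D.H, Over v ((τ : L ≃ₐ[k] L) : L →ₐ[k] L) v ∧
      ∃ c0 : k, c0 ≠ 0 ∧ c0 ≠ 1 ∧ IsRes v (τ s / s) c0 := by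
  classical
  have hL := D.hL
  obtain ⟨hΛ, hΛA, hΛB⟩ := hb.scale
  obtain ⟨Λ, hΛdef⟩ : ∃ Λ : L, Λ = l ^ W.N := ⟨_, rfl⟩
  rw [← hΛdef] at hΛ hΛA hΛB
  obtain ⟨Dt, hDt⟩ : ∃ Dt : L, Dt = 4 * D.a ^ 3 + 27 * D.b ^ 2 := ⟨_, rfl⟩
  have hDt0 : Dt ≠ 0 := by
    rw [hDt]
    exact D.hΔ
  obtain ⟨hl0, hl1⟩ := ord_locp hb
  -- (1)
  have r1 : IsRes v (s ^ 12 * Dt) (4 * At ^ 3 + 27 * Bt ^ 2) := by
    have h4 := (isRes_const (v := v) (4 : k)).mul (hA.pow 3)
    have h27 := (isRes_const (v := v) (27 : k)).mul (hB.pow 2)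
    have h := h4.add h27
    have e : s ^ 12 * Dt = algebraMap k L 4 * (s ^ 4 * D.a) ^ 3 +
        algebraMap k L 27 * (s ^ 6 * D.b) ^ 2 := by
      rw [hDt, map_ofNat, map_ofNat]
      ring
    rw [e]
    exact h
  have r2 : IsRes v (Λ ^ 12 * Dt) 0 := by
    have h4 := (isRes_const (v := v) (4 : k)).mul (hΛA.pow 3)
    have h27 := (isRes_const (v := v) (27 : k)).mul (hΛB.pow 2)
    have h := h4.add h27
    have e : Λ ^ 12 * Dt = algebraMap k L 4 * (Λ ^ 4 * D.a) ^ 3 +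
        algebraMap k L 27 * (Λ ^ 6 * D.b) ^ 2 := by
      rw [hDt, map_ofNat, map_ofNat]
      ring
    rw [e]
    have e2 : (0 : k) = 4 * MvPolynomial.aeval c W.A ^ 3 + 27 * MvPolynomial.aeval c W.B ^ 2 := by
      rw [← hd]
      rfl
    rw [e2]
    exact h
  have o1 : ord v.ring (s ^ 12 * Dt) = 0 := (ord_zero97 hL r1 hΔ).2
  have o2 : 0 < ord v.ring (Λ ^ 12 * Dt) :=
    (FF.ord_pos_iff hL v (mul_ne_zero (pow_ne_zero _ hΛ) hDt0)).mpr (isRes_zero_iff.mp r2)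
  rw [FF.ord_mul hL v (pow_ne_zero _ hs) hDt0, FF.ord_pow hL v hs] at o1
  rw [FF.ord_mul hL v (pow_ne_zero _ hΛ) hDt0, FF.ord_pow hL v hΛ] at o2
  push_cast at o1 o2
  obtain ⟨s', hs'⟩ : ∃ s' : L, s' = s / Λ := ⟨_, rfl⟩
  have hs'0 : s' ≠ 0 := by
    rw [hs']
    exact div_ne_zero hs hΛ
  have os' : ord v.ring s' = ord v.ring s - ord v.ring Λ := by
    rw [hs', FF.ord_div hL v hs hΛ]
  have oneg : ord v.ring s' < 0 := by
    rw [os']
    omega
  -- (2)
  have ogt : - ord v.ring (locp D c) < ord v.ring s' := by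
    by_contra hcon
    push Not at hcon
    have hne : (s' * locp D c) ≠ 0 := mul_ne_zero hs'0 hl0
    have hreg : (s' * locp D c)⁻¹ ∈ v.ring := by
      rw [← FF.ord_nonneg_iff hL v (inv_ne_zero hne), FF.ord_inv hL v hne,
        FF.ord_mul hL v hs'0 hl0]
      omega
    apply mini hmin hb
    rw [← hΛdef]
    constructor
    · have e : Λ ^ 4 * D.a / locp D c ^ 4 = (s ^ 4 * D.a) * ((s' * locp D c)⁻¹) ^ 4 := by
        rw [hs']
        field_simp
      rw [e]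
      exact v.ring.mul_mem _ _ hA.mem (pow_mem hreg 4)
    · have e : Λ ^ 6 * D.b / locp D c ^ 6 = (s ^ 6 * D.b) * ((s' * locp D c)⁻¹) ^ 6 := by
        rw [hs']
        field_simp
      rw [e]
      exact v.ring.mul_mem _ _ hB.mem (pow_mem hreg 6)
  -- (3)
  have fixD : ∀ τ ∈ D.H, τ Dt = Dt := by
    intro τ hτ
    have ht := D.fixt τ hτ
    rw [hDt, map_add, map_mul, map_mul, map_pow, map_pow, fix_a97 D ht, fix_b97 D ht, map_ofNat,
      map_ofNat]
  have fixΛ : ∀ τ ∈ D.H, τ Λ = Λ := by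
    intro τ hτ
    rw [hΛdef, map_pow, hb.fix (D.fixt τ hτ)]
  have quot : ∀ τ ∈ D.H, τ s' / s' = τ s / s := by
    intro τ hτ
    rw [hs', map_div₀, fixΛ τ hτ]
    field_simp
  by_contra hcon
  have hone : ∀ τ ∈ D.H, Over v ((τ : L ≃ₐ[k] L) : L →ₐ[k] L) v → IsRes v (τ s / s) 1 := by
    intro τ hτ hov
    have h1 : IsRes v (τ (s ^ 12 * Dt)) (4 * At ^ 3 + 27 * Bt ^ 2) := hov _ _ r1
    have h2 := isRes_div97 h1 r1 hΔ
    rw [div_self hΔ] at h2
    have e : τ (s ^ 12 * Dt) / (s ^ 12 * Dt) = (τ s / s) ^ 12 := by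
      rw [map_mul, map_pow, fixD τ hτ]
      field_simp
    rw [e] at h2
    obtain ⟨c0, hc0, hc1⟩ := exists_res_of_pow hL (by norm_num) h2
    have hc00 : c0 ≠ 0 := by
      rintro rfl
      rw [zero_pow (by norm_num)] at hc1
      exact zero_ne_one hc1
    by_cases h3 : c0 = 1
    · rwa [h3] at hc0
    · exact (hcon ⟨τ, hτ, hov, c0, hc00, h3, hc0⟩).elim
  -- (4)
  have hfin : Finite D.H := D.finH
  let i1 : Fintype D.H := Fintype.ofFinite D.H
  let vt : D.H → Place k L := fun τ => Place.comap hL hL ((τ : L ≃ₐ[k] L) : L →ₐ[k] L) v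
  have hov : ∀ τ : D.H, Over (vt τ) ((τ : L ≃ₐ[k] L) : L →ₐ[k] L) v := fun τ =>
    over_comap hL hL _ v
  have hs'τ : ∀ τ : D.H, (τ : L ≃ₐ[k] L).symm s' ≠ 0 := fun τ =>
    (_root_.map_ne_zero _).mpr hs'0
  obtain ⟨r, hr0, hr⟩ : ∃ r : ℤ, r ≤ - ord v.ring s' ∧
      ∀ τ : D.H, r ≤ - ord (vt τ).ring ((τ : L ≃ₐ[k] L).symm s') := by
    obtain ⟨r1, hr1⟩ := (Set.finite_range fun τ : D.H =>
      - ord (vt τ).ring ((τ : L ≃ₐ[k] L).symm s')).bddBelow
    refine ⟨min r1 (- ord v.ring s'), min_le_right _ _, fun τ => (min_le_left _ _).trans ?_⟩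
    exact hr1 ⟨τ, rfl⟩
  obtain ⟨y, hy⟩ := FF.approx hL (insert v (Finset.univ.image vt))
    (fun P => if P = v then s' else 0) r
  have hyv : IsRes v (y / s') 1 := by
    have h1 := hy v (Finset.mem_insert_self _ _)
    rw [if_pos rfl] at h1
    have e : y / s' - algebraMap k L 1 = (y - s') / s' := by
      rw [map_one]
      field_simp
    unfold IsRes
    rw [e, ← FF.val_lt_one_iff hL, map_div₀]
    have h2 : 0 < FF.val hL v s' := zero_lt_iff.mpr ((Valuation.ne_zero_iff _).mpr hs'0)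
    rw [div_lt_one₀ h2]
    refine lt_of_lt_of_le h1 ?_
    rw [FF.val_eq_exp hL v hs'0, WithZero.exp_le_exp]
    exact hr0
  have hyt : ∀ τ : D.H, vt τ ≠ v → IsRes (vt τ) (y / (τ : L ≃ₐ[k] L).symm s') 0 := by
    intro τ hτ
    have h1 := hy (vt τ) (Finset.mem_insert_of_mem (Finset.mem_image_of_mem _ (Finset.mem_univ τ)))
    rw [if_neg hτ, sub_zero] at h1
    rw [isRes_zero_iff, ← FF.val_lt_one_iff hL, map_div₀]
    have h2 : 0 < FF.val hL (vt τ) ((τ : L ≃ₐ[k] L).symm s') :=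
      zero_lt_iff.mpr ((Valuation.ne_zero_iff _).mpr (hs'τ τ))
    rw [div_lt_one₀ h2]
    refine lt_of_lt_of_le h1 ?_
    rw [FF.val_eq_exp hL _ (hs'τ τ), WithZero.exp_le_exp]
    exact hr τ
  have hres : ∀ τ : D.H, IsRes v ((τ : L ≃ₐ[k] L) y / s') (if vt τ = v then 1 else 0) := by
    intro τ
    by_cases hτ : vt τ = v
    · rw [if_pos hτ]
      have ho : Over v ((τ : L ≃ₐ[k] L) : L →ₐ[k] L) v := by
        have := hov τ
        rwa [hτ] at this
      have h1 : IsRes v ((τ : L ≃ₐ[k] L) (y / s')) 1 := ho _ _ hyv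
      have h2 := hone τ.1 τ.2 ho
      rw [← quot τ.1 τ.2] at h2
      have h3 := h1.mul h2
      rw [mul_one] at h3
      have e : (τ : L ≃ₐ[k] L) (y / s') * ((τ : L ≃ₐ[k] L) s' / s') =
          (τ : L ≃ₐ[k] L) y / s' := by
        have hne : (τ : L ≃ₐ[k] L) s' ≠ 0 := (_root_.map_ne_zero _).mpr hs'0
        rw [map_div₀]
        field_simp
      rw [e] at h3
      exact h3
    · rw [if_neg hτ]
      have h1 : IsRes v ((τ : L ≃ₐ[k] L) (y / (τ : L ≃ₐ[k] L).symm s')) 0 :=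
        hov τ _ _ (hyt τ hτ)
      rw [map_div₀, AlgEquiv.apply_symm_apply] at h1
      exact h1
  -- (5)
  obtain ⟨Y, hY⟩ : ∃ Y : L, Y = ∑ τ : D.H, (τ : L ≃ₐ[k] L) y := ⟨_, rfl⟩
  have hYfix : ∀ σ ∈ D.H, σ Y = Y := by
    intro σ hσ
    rw [hY, map_sum]
    exact Fintype.sum_equiv (Equiv.mulLeft (⟨σ, hσ⟩ : D.H)) _ _ fun τ => rfl
  have hYmem := D.fixed Y hYfix
  have hYres : IsRes v (Y / s') (∑ τ : D.H, if vt τ = v then (1 : k) else 0) := by
    rw [hY, Finset.sum_div]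
    exact IsRes.sum _ fun τ _ => hres τ
  have hcard : (∑ τ : D.H, if vt τ = v then (1 : k) else 0) ≠ 0 := by
    rw [Finset.sum_ite, Finset.sum_const_zero, add_zero, Finset.sum_const, nsmul_eq_mul, mul_one]
    rw [Nat.cast_ne_zero]
    apply Finset.card_ne_zero_of_mem (a := (1 : D.H))
    rw [Finset.mem_filter]
    refine ⟨Finset.mem_univ _, ?_⟩
    symm
    apply Over.eq_comap hL hL
    intro z c0 hz
    exact hz
  obtain ⟨hY0, hYo⟩ := ord_zero97 hL hYres hcard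
  have hYne : Y ≠ 0 := by
    rintro rfl
    rw [zero_div] at hY0
    exact hY0 rfl
  rw [FF.ord_div hL v hYne hs'0] at hYo
  obtain ⟨n, hn⟩ := base_ord hb hYmem hYne
  have h1 : n * ord v.ring (locp D c) < 0 := by
    rw [← hn]
    omega
  have h2 : - ord v.ring (locp D c) < n * ord v.ring (locp D c) := by
    rw [← hn]
    omega
  have hn0 : n < 0 := by
    by_contra hcon2
    push Not at hcon2
    nlinarith
  nlinarith

end Pool.Agent.Helper21.TO
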