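import Mathlib
import Pool.Agent.Helper9.NS
import Pool.Agent.Helper21.TO.Defs
import Pool.Agent.Helper21.TO.Defs2
import Pool.Agent.Helper21.TO.ExModel
import Pool.Agent.Helper21.TO.BaseFacts
import Pool.Agent.Helper21.TO.Scaling
import Pool.Agent.Helper21.TO.RedMap
import Pool.Agent.Helper21.TO.NodP
import Pool.Agent.Helper21.TO.Nodal
import Pool.Agent.Helper21.TO.BadNul

/-!
# Block TO-PkEx: existence of the package at every place
`exists_base` gives `l`, `c`. If `disc W c ≠ 0`: `s = l ^ N`, `At = A (c)`, `Bt = B (c)`, `Base.scale`,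
`exists_model`; `pow` with `j = 1` by `red_exists` (`RedData w (ι s) (ι a) (ι b) At Bt`: from
`Base.scale` and `Over`); `cmp` is the second alternative. If `disc W c = 0`: `exists_scaling` and
`exists_model`. If `4 At ^ 3 + 27 Bt ^ 2 ≠ 0`: `pow` with `j = 1` by `red_exists`, and the cycles are
`Nul` by `Model.nul_bad`. Otherwise `At = - 3 n ^ 2`, `Bt = 2 n ^ 3` (`subst`): `pow` by `nod_pow` with
`r1 = ι (r (σ 0))`, ... (`hr` from `D.hr` evaluated and mapped by `ι`; `h12` by `root_ne`), and the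
cycles are `Nul` by `Model.nul_nodal`.
-/

set_option linter.unusedSectionVars false

namespace Pool.Agent.Helper21.TO

open VC VF Function Polynomial
open Pool.Agent.Helper51.EW (Wei WPt aff zeroPt)

universe u

variable {k : Type u} [Field k] [IsAlgClosed k] [CharZero k] {W : Wei k} {L : Type u} [Field L]
  [Algebra k L]

private lemma over_data74 {K : Type u} [Field K] [Algebra k K] (hK : IsFunctionField k K)
    (ι : L →ₐ[k] K) {v : Place k L} {w : Place k K} (ho : Over v ι w) {s : L} (hs : s ≠ 0)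
    {a b : L} {At Bt : k} (hA : IsRes v (s ^ 4 * a) At) (hB : IsRes v (s ^ 6 * b) Bt) :
    RedData w (ι s) (ι a) (ι b) At Bt := by
  refine ⟨hK, (_root_.map_ne_zero ι).mpr hs, ?_, ?_⟩
  · have h := ho _ _ hA
    rwa [map_mul, map_pow] at h
  · have h := ho _ _ hB
    rwa [map_mul, map_pow] at h

private lemma roots_map74 (D : Dat W L) {K : Type u} [Field K] [Algebra k K] (ι : L →ₐ[k] K)
    (σ : Equiv.Perm (Fin 3)) (z : K) : z ^ 3 + ι D.a * z + ι D.b =
      (z - ι (D.r (σ 0))) * (z - ι (D.r (σ 1))) * (z - ι (D.r (σ 2))) := by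
  have h := congrArg (fun p : L[X] => p.eval₂ (ι : L →+* K) z) D.hr
  simp only [eval₂_add, eval₂_mul, eval₂_pow, eval₂_X, eval₂_C, eval₂_finsetProd,
    eval₂_sub] at h
  have h1 : ∏ i, (z - (ι : L →+* K) (D.r i)) = ∏ i, (z - (ι : L →+* K) (D.r (σ i))) :=
    (Equiv.prod_comp σ fun i => z - (ι : L →+* K) (D.r i)).symm
  rw [h1, Fin.prod_univ_three] at h
  exact h

theorem exists_pk (D : Dat W L) (hmin : Minimal W) (v : Place k L) : Nonempty (Pk D v) := by
  obtain ⟨l, c, hb⟩ := exists_base D v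
  by_cases hd : disc W c = 0
  · obtain ⟨s, At, Bt, hs, hA, hB, hcase⟩ := exists_scaling D v
    obtain ⟨m⟩ := exists_model D v hs hA hB
    rcases hcase with hΔ | ⟨n, σ, hn, rfl, rfl, h0, h1, h2⟩
    · refine ⟨⟨s, At, Bt, m, ?_, Or.inl ⟨l, c, hb, hd, fun a => m.nul_bad hmin hb hd hΔ a⟩⟩⟩
      intro K _ _ hK ι w ho P
      obtain ⟨Pt, hPt⟩ := red_exists (over_data74 hK ι ho hs hA hB) hΔ P
      exact ⟨1, one_pos, Pt, by rwa [one_smul]⟩
    · refine ⟨⟨s, _, _, m, ?_, Or.inl ⟨l, c, hb, hd, fun a => m.nul_nodal hn a⟩⟩⟩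
      intro K _ _ hK ι w ho P
      have hres : ∀ i {d : k}, IsRes v (s ^ 2 * D.r i) d →
          IsRes w (ι s ^ 2 * ι (D.r i)) d := by
        intro i d h
        have h' := ho _ _ h
        rwa [map_mul, map_pow] at h'
      have h12 : ι (D.r (σ 0)) ≠ ι (D.r (σ 1)) := by
        intro h
        have h3 := ι.toRingHom.injective h
        exact root_ne D (fun h4 => by
          have := σ.injective h4
          exact absurd this (by decide)) h3
      exact nod_pow (over_data74 hK ι ho hs hA hB) hn (roots_map74 D ι σ) h12 (hres _ h0)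
        (hres _ h1) (hres _ h2) P
  · obtain ⟨hs, hA, hB⟩ := hb.scale
    obtain ⟨m⟩ := exists_model D v hs hA hB
    refine ⟨⟨l ^ W.N, _, _, m, ?_, Or.inr ⟨l, c, hb, hd, rfl, rfl, rfl⟩⟩⟩
    intro K _ _ hK ι w ho P
    obtain ⟨Pt, hPt⟩ := red_exists (over_data74 hK ι ho hs hA hB) hd P
    exact ⟨1, one_pos, Pt, by rwa [one_smul]⟩

end Pool.Agent.Helper21.TO
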